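import Mathlib
import Pool.Agent.H373R2.T7.BilF

set_option autoImplicit false

/-! Ramanujan sums and the spacing of the Farey fractions. -/

namespace Pool.Agent.TH212.DV
open Finset
open Pool.Agent.H807R2.Dav
open Pool.Agent.H373R2.T7 (orth)

/-- the reduced residues -/
def Rd (q : ℕ) : Finset ℕ := (range q).filter (fun b => Nat.Coprime b q)

lemma mem_Rd {q b : ℕ} : b ∈ Rd q ↔ b < q ∧ Nat.Coprime b q := by
  unfold Rd
  rw [mem_filter, mem_range]

lemma card_Rd (q : ℕ) : (Rd q).card = Nat.totient q := by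
  unfold Rd
  rw [Nat.totient_eq_card_coprime]
  congr 1
  ext a
  rw [mem_filter, mem_filter, Nat.coprime_comm]

/-- the Ramanujan sum -/
noncomputable def cr (q : ℕ) (n : ℤ) : ℂ := ∑ b ∈ Rd q, ee (n * ((b : ℝ) / q))

lemma norm_cr (q : ℕ) (n : ℤ) : ‖cr q n‖ ≤ q := by
  unfold cr
  refine (norm_sum_le _ _).trans ?_
  have : ∀ b ∈ Rd q, ‖ee (n * ((b : ℝ) / q))‖ ≤ 1 := fun b _ => (norm_ee _).le
  refine (sum_le_sum this).trans ?_
  rw [sum_const, nsmul_eq_mul, mul_one, card_Rd]
  exact_mod_cast Nat.totient_le q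

lemma sum_divisors_cr (r : ℕ) (n : ℤ) (hr : 0 < r) :
    ∑ d ∈ r.divisors, cr d n = ∑ b ∈ range r, ee (n * ((b : ℝ) / r)) := by
  classical
  have hmaps : ∀ b ∈ range r, r / Nat.gcd b r ∈ r.divisors := by
    intro b _
    rw [Nat.mem_divisors]
    exact ⟨Nat.div_dvd_of_dvd (Nat.gcd_dvd_right b r), hr.ne'⟩
  rw [← sum_fiberwise_of_maps_to hmaps]
  apply sum_congr rfl
  intro d hd
  have hdr : d ∣ r := Nat.dvd_of_mem_divisors hd
  have hd0 : 0 < d := Nat.pos_of_dvd_of_pos hdr hr
  obtain ⟨e, he⟩ := hdr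
  have he0 : 0 < e := by
    rcases Nat.eq_zero_or_pos e with h | h
    · rw [h, mul_zero] at he; omega
    · exact h
  unfold cr Rd
  have himg : (range r).filter (fun b => r / Nat.gcd b r = d) =
      ((range d).filter (fun b => Nat.Coprime b d)).image (fun b => e * b) := by
    ext b
    rw [mem_filter, mem_range, mem_image]
    constructor
    · rintro ⟨hb, hg⟩
      have hgpos : 0 < Nat.gcd b r := Nat.gcd_pos_of_pos_right b hr
      have hge : Nat.gcd b r = e := by
        have h1 : r = d * Nat.gcd b r := by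
          rw [← hg]; exact (Nat.div_mul_cancel (Nat.gcd_dvd_right b r)).symm
        rw [he] at h1
        have := Nat.eq_of_mul_eq_mul_left hd0 h1
        rw [← he] at this
        exact this.symm
      obtain ⟨b', hb'⟩ : e ∣ b := hge ▸ Nat.gcd_dvd_left b r
      refine ⟨b', ?_, hb'.symm⟩
      rw [mem_filter, mem_range]
      constructor
      · rw [hb', he, mul_comm] at hb
        exact Nat.lt_of_mul_lt_mul_right hb
      · rw [hb', he, mul_comm d e, Nat.gcd_mul_left] at hge
        have h2 : e * Nat.gcd b' d = e * 1 := by rw [hge, mul_one]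
        exact Nat.eq_of_mul_eq_mul_left he0 h2
    · rintro ⟨b', hb', rfl⟩
      rw [mem_filter, mem_range] at hb'
      constructor
      · rw [he, mul_comm e b']
        exact Nat.mul_lt_mul_of_pos_right hb'.1 he0
      · rw [he, mul_comm d e, Nat.gcd_mul_left, hb'.2, mul_one, Nat.mul_div_cancel_left _ he0]
  rw [himg, sum_image]
  · apply sum_congr rfl
    intro b _
    congr 2
    rw [he]
    have hdr' : (d : ℝ) ≠ 0 := by exact_mod_cast hd0.ne'
    have her' : (e : ℝ) ≠ 0 := by exact_mod_cast he0.ne'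
    push_cast
    field_simp
  · intro a _ b _ hab
    exact Nat.eq_of_mul_eq_mul_left he0 hab

lemma sum_divisors_cr' (r : ℕ) (n : ℤ) (hr : 0 < r) :
    ∑ d ∈ r.divisors, cr d n = if (r : ℤ) ∣ n then (r : ℂ) else 0 := by
  rw [sum_divisors_cr r n hr, ← orth r hr n]
  apply sum_congr rfl
  intro b _
  congr 1
  ring

/-- the divisor formula -/
def cz (q : ℕ) (n : ℤ) : ℤ := ∑ d ∈ q.divisors.filter (fun d : ℕ => (d : ℤ) ∣ n), ArithmeticFunction.moebius (q / d) * d

lemma cr_eq (r : ℕ) (n : ℤ) (hr : 0 < r) : cr r n = (cz r n : ℂ) := by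
  have h := (ArithmeticFunction.sum_eq_iff_sum_mul_moebius_eq (R := ℂ)
    (f := fun r => cr r n) (g := fun r => if (r : ℤ) ∣ n then (r : ℂ) else 0)).mp
    (fun r hr => sum_divisors_cr' r n hr) r hr
  rw [← h, Nat.sum_divisorsAntidiagonal' (f := fun x y => ((ArithmeticFunction.moebius x : ℤ) : ℂ) *
    (if (y : ℤ) ∣ n then (y : ℂ) else 0))]
  unfold cz
  rw [sum_filter]
  push_cast
  apply sum_congr rfl
  intro d _
  split_ifs <;> simp

end Pool.Agent.TH212.DV
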