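import Pool.Agent.TH212.DV.C5

set_option autoImplicit false

/-! The sums of `dk s d / d` over the multiples of a fixed modulus. -/

namespace Pool.Agent.TH212.DV
open Finset

/-- the truncated logarithm -/
noncomputable def Gl (x : ℝ) (k : ℕ) : ℝ := max (Real.log (x / k)) 0

lemma Gl_nonneg (x : ℝ) (k : ℕ) : 0 ≤ Gl x k := le_max_right _ _

lemma Gl_anti (x : ℝ) (hx : 1 ≤ x) (k l : ℕ) (hk : 1 ≤ k) (hkl : k ≤ l) : Gl x l ≤ Gl x k := by
  unfold Gl
  apply max_le_max _ le_rfl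
  have h1 : (0 : ℝ) < k := by exact_mod_cast hk
  have h2 : (k : ℝ) ≤ l := by exact_mod_cast hkl
  apply Real.log_le_log (by apply div_pos <;> linarith)
  exact div_le_div_of_nonneg_left (by linarith) h1 h2

lemma Gl_one (x : ℝ) (hx : 1 ≤ x) : Gl x 1 = Real.log x := by
  unfold Gl
  rw [Nat.cast_one, div_one, max_eq_left (Real.log_nonneg hx)]

lemma Gl_of_le (x : ℝ) (k : ℕ) (hk : 1 ≤ k) (h : (k : ℝ) ≤ x) : Gl x k = Real.log (x / k) := by
  unfold Gl
  have h1 : (0 : ℝ) < k := by exact_mod_cast hk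
  rw [max_eq_left]
  apply Real.log_nonneg
  rw [le_div_iff₀ h1, one_mul]
  exact h

lemma Gl_of_ge (x : ℝ) (hx : 1 ≤ x) (k : ℕ) (h : x ≤ k) : Gl x k = 0 := by
  unfold Gl
  have h1 : (0 : ℝ) < k := by linarith
  rw [max_eq_right]
  apply Real.log_nonpos (by apply div_nonneg <;> linarith)
  rw [div_le_iff₀ h1, one_mul]
  exact h

/-- differences of powers -/
lemma pow_diff (u v : ℝ) (hv : 0 ≤ v) (huv : v ≤ u) (s : ℕ) :
    (s + 1) * (v ^ s * (u - v)) ≤ u ^ (s + 1) - v ^ (s + 1) ∧ u ^ (s + 1) - v ^ (s + 1) ≤ (s + 1) * (u ^ s * (u - v)) := by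
  have hu : 0 ≤ u := hv.trans huv
  induction s with
  | zero => constructor <;> simp
  | succ s ih =>
    obtain ⟨i1, i2⟩ := ih
    have hd : 0 ≤ u - v := sub_nonneg.2 huv
    have e1 : u ^ (s + 1 + 1) - v ^ (s + 1 + 1) = u * (u ^ (s + 1) - v ^ (s + 1)) + v ^ (s + 1) * (u - v) := by ring
    have e2 : u ^ (s + 1 + 1) - v ^ (s + 1 + 1) = v * (u ^ (s + 1) - v ^ (s + 1)) + u ^ (s + 1) * (u - v) := by ring
    have h3 : v ^ (s + 1) ≤ u ^ (s + 1) := pow_le_pow_left₀ hv huv _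
    have h4 : v ^ (s + 1) * (u - v) ≤ u ^ (s + 1) * (u - v) := mul_le_mul_of_nonneg_right h3 hd
    push_cast
    constructor
    · rw [e2]
      have h5 : v * ((s + 1) * (v ^ s * (u - v))) ≤ v * (u ^ (s + 1) - v ^ (s + 1)) := mul_le_mul_of_nonneg_left i1 hv
      have e3 : v * ((s + 1) * (v ^ s * (u - v))) = (s + 1) * (v ^ (s + 1) * (u - v)) := by ring
      linarith
    · rw [e1]
      have h5 : u * (u ^ (s + 1) - v ^ (s + 1)) ≤ u * ((s + 1) * (u ^ s * (u - v))) := mul_le_mul_of_nonneg_left i2 hu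
      have e3 : u * ((s + 1) * (u ^ s * (u - v))) = (s + 1) * (u ^ (s + 1) * (u - v)) := by ring
      linarith

/-- one step of the comparison with the integral -/
lemma step (x : ℝ) (hx : 1 ≤ x) (s k q : ℕ) (hs : 1 ≤ s) (hk : 1 ≤ k) (hq : 1 ≤ q) :
    (q : ℝ) * (1 / ((k + q : ℕ) : ℝ) * Gl x (k + q) ^ s) ≤ Gl x k ^ (s + 1) / (s + 1) - Gl x (k + q) ^ (s + 1) / (s + 1) ∧
      Gl x k ^ (s + 1) / (s + 1) - Gl x (k + q) ^ (s + 1) / (s + 1) ≤ (q : ℝ) * (1 / (k : ℝ) * Gl x k ^ s) := by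
  have hk0 : (0 : ℝ) < k := by exact_mod_cast hk
  have hq0 : (0 : ℝ) < q := by exact_mod_cast hq
  have hkq0 : (0 : ℝ) < ((k + q : ℕ) : ℝ) := by push_cast; linarith
  have hs0 : (0 : ℝ) < (s : ℝ) + 1 := by positivity
  have hv := Gl_nonneg x (k + q)
  have huv := Gl_anti x hx k (k + q) hk (by omega)
  obtain ⟨p1, p2⟩ := pow_diff (Gl x k) (Gl x (k + q)) hv huv s
  have e1 : Gl x k ^ (s + 1) / (s + 1) - Gl x (k + q) ^ (s + 1) / (s + 1) = (Gl x k ^ (s + 1) - Gl x (k + q) ^ (s + 1)) / (s + 1) := by ring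
  have hx0 : (0 : ℝ) < x := by linarith
  have elog : Real.log (x / k) - Real.log (x / ((k + q : ℕ) : ℝ)) = Real.log (((k + q : ℕ) : ℝ) / k) := by
    rw [Real.log_div hx0.ne' hk0.ne', Real.log_div hx0.ne' hkq0.ne', Real.log_div hkq0.ne' hk0.ne']
    ring
  have hlog1 : Real.log (((k + q : ℕ) : ℝ) / k) ≤ q / k := by
    have := Real.log_le_sub_one_of_pos (x := ((k + q : ℕ) : ℝ) / k) (by positivity)
    have e : ((k + q : ℕ) : ℝ) / k - 1 = q / k := by
      push_cast
      field_simp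
      ring
    linarith
  have hlog2 : (q : ℝ) / ((k + q : ℕ) : ℝ) ≤ Real.log (((k + q : ℕ) : ℝ) / k) := by
    have := Real.one_sub_inv_le_log_of_pos (x := ((k + q : ℕ) : ℝ) / k) (by positivity)
    have e : 1 - (((k + q : ℕ) : ℝ) / k)⁻¹ = q / ((k + q : ℕ) : ℝ) := by
      push_cast at *
      field_simp
      ring
    linarith
  constructor
  · rw [e1, le_div_iff₀ hs0]
    refine le_trans ?_ p1
    by_cases h : x ≤ ((k + q : ℕ) : ℝ)
    · rw [Gl_of_ge x hx (k + q) h, zero_pow (by omega : s ≠ 0)]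
      simp
    · push Not at h
      have h2 : (k : ℝ) ≤ x := by push_cast at h; linarith
      have hu : Gl x k - Gl x (k + q) = Real.log (((k + q : ℕ) : ℝ) / k) := by
        rw [Gl_of_le x k hk h2, Gl_of_le x (k + q) (by omega) h.le, elog]
      have h3 : (q : ℝ) / ((k + q : ℕ) : ℝ) ≤ Gl x k - Gl x (k + q) := by rw [hu]; exact hlog2
      have h4 : Gl x (k + q) ^ s * ((q : ℝ) / ((k + q : ℕ) : ℝ)) ≤ Gl x (k + q) ^ s * (Gl x k - Gl x (k + q)) :=
        mul_le_mul_of_nonneg_left h3 (pow_nonneg hv s)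
      calc (q : ℝ) * (1 / ((k + q : ℕ) : ℝ) * Gl x (k + q) ^ s) * (s + 1) = (s + 1) * (Gl x (k + q) ^ s * ((q : ℝ) / ((k + q : ℕ) : ℝ))) := by ring
        _ ≤ _ := mul_le_mul_of_nonneg_left h4 hs0.le
  · rw [e1, div_le_iff₀ hs0]
    refine p2.trans ?_
    have h3 : Gl x k - Gl x (k + q) ≤ q / k := by
      rw [sub_le_iff_le_add]
      apply max_le
      · have h5 : Real.log (x / ((k + q : ℕ) : ℝ)) ≤ Gl x (k + q) := le_max_left _ _
        linarith
      · positivity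
    have h4 : Gl x k ^ s * (Gl x k - Gl x (k + q)) ≤ Gl x k ^ s * (q / k) := mul_le_mul_of_nonneg_left h3 (pow_nonneg (Gl_nonneg x k) s)
    calc (s + 1) * (Gl x k ^ s * (Gl x k - Gl x (k + q))) ≤ (s + 1) * (Gl x k ^ s * (q / k)) := mul_le_mul_of_nonneg_left h4 hs0.le
      _ = _ := by ring

/-- an arithmetic progression -/
lemma prog (x : ℝ) (hx : 1 ≤ x) (s b q J : ℕ) (hs : 1 ≤ s) (hb : 1 ≤ b) (hbq : b ≤ q) (hJ : x ≤ J) :
    |∑ j ∈ range J, (1 / ((b + j * q : ℕ) : ℝ) * Gl x (b + j * q) ^ s) - Real.log x ^ (s + 1) / (s + 1) / q| ≤ Real.log x ^ s := by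
  have hq : 1 ≤ q := hb.trans hbq
  have hq0 : (0 : ℝ) < q := by exact_mod_cast hq
  have hs0 : (0 : ℝ) < (s : ℝ) + 1 := by positivity
  have hl : 0 ≤ Real.log x := Real.log_nonneg hx
  obtain ⟨f, hf⟩ : ∃ f : ℕ → ℝ, f = fun j => 1 / ((b + j * q : ℕ) : ℝ) * Gl x (b + j * q) ^ s := ⟨_, rfl⟩
  obtain ⟨P, hP⟩ : ∃ P : ℕ → ℝ, P = fun j => Gl x (b + j * q) ^ (s + 1) / (s + 1) := ⟨_, rfl⟩
  have hst : ∀ j, (q : ℝ) * f (j + 1) ≤ P j - P (j + 1) ∧ P j - P (j + 1) ≤ q * f j := by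
    intro j
    have h := step x hx s (b + j * q) q hs (by omega) hq
    have e : b + j * q + q = b + (j + 1) * q := by ring
    rw [e] at h
    rw [hf, hP]
    exact h
  have htel : ∀ n, ∑ j ∈ range n, (P j - P (j + 1)) = P 0 - P n := by
    intro n
    induction n with
    | zero => simp
    | succ n ih => rw [sum_range_succ, ih]; ring
  have hfin : ∀ n : ℕ, x ≤ n → P n = 0 ∧ f n = 0 := by
    intro n hn
    have h1 : x ≤ ((b + n * q : ℕ) : ℝ) := by
      refine hn.trans ?_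
      exact_mod_cast (Nat.le_mul_of_pos_right n hq).trans (Nat.le_add_left _ _)
    rw [hP, hf]
    simp only
    rw [Gl_of_ge x hx _ h1, zero_pow (by omega : s ≠ 0), zero_pow (by omega : s + 1 ≠ 0)]
    simp
  obtain ⟨pJ, fJ⟩ := hfin J hJ
  have up : (q : ℝ) * ∑ j ∈ range J, f j ≤ P 0 + q * f 0 := by
    have h1 : ∑ j ∈ range J, f j + f J = ∑ j ∈ range J, f (j + 1) + f 0 := by
      rw [← sum_range_succ, sum_range_succ']
    have h2 : (q : ℝ) * ∑ j ∈ range J, f (j + 1) ≤ P 0 - P J := by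
      rw [← htel J, mul_sum]
      exact sum_le_sum fun j _ => (hst j).1
    rw [fJ, add_zero] at h1
    rw [h1, mul_add]
    linarith
  have low : P 0 ≤ (q : ℝ) * ∑ j ∈ range J, f j := by
    have h2 : P 0 - P J ≤ (q : ℝ) * ∑ j ∈ range J, f j := by
      rw [← htel J, mul_sum]
      exact sum_le_sum fun j _ => (hst j).2
    linarith
  have hG0 : Gl x b ≤ Real.log x := by rw [← Gl_one x hx]; exact Gl_anti x hx 1 b le_rfl hb
  have hGn := Gl_nonneg x b
  have hb1 : (1 : ℝ) ≤ b := by exact_mod_cast hb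
  have f0 : f 0 ≤ Real.log x ^ s := by
    rw [hf]
    simp only [zero_mul, add_zero]
    have h1 : 1 / (b : ℝ) ≤ 1 := by rw [div_le_one (by linarith)]; exact hb1
    calc 1 / (b : ℝ) * Gl x b ^ s ≤ 1 * Real.log x ^ s := mul_le_mul h1 (pow_le_pow_left₀ hGn hG0 _) (pow_nonneg hGn _) (by norm_num)
      _ = _ := one_mul _
  have P0 : P 0 ≤ Real.log x ^ (s + 1) / (s + 1) := by
    rw [hP]
    simp only [zero_mul, add_zero]
    exact div_le_div_of_nonneg_right (pow_le_pow_left₀ hGn hG0 _) hs0.le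
  have P0' : Real.log x ^ (s + 1) / (s + 1) - q * Real.log x ^ s ≤ P 0 := by
    rw [hP]
    simp only [zero_mul, add_zero]
    have h1 := (pow_diff (Real.log x) (Gl x b) hGn hG0 s).2
    have h2 : Real.log x - Gl x b ≤ Real.log b := by
      have h3 : Real.log (x / b) ≤ Gl x b := le_max_left _ _
      rw [Real.log_div (by linarith) (by linarith)] at h3
      linarith
    have h4 : Real.log b ≤ q := (Real.log_le_self (by linarith)).trans (by exact_mod_cast hbq)
    have h5 : Real.log x ^ s * (Real.log x - Gl x b) ≤ Real.log x ^ s * q := mul_le_mul_of_nonneg_left (h2.trans h4) (pow_nonneg hl s)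
    have h6 : (s + 1) * (Real.log x ^ s * (Real.log x - Gl x b)) ≤ (s + 1) * (Real.log x ^ s * q) := mul_le_mul_of_nonneg_left h5 hs0.le
    have h7 : Real.log x ^ (s + 1) ≤ Gl x b ^ (s + 1) + (s + 1) * (Real.log x ^ s * q) := by linarith
    have h8 : Real.log x ^ (s + 1) / (s + 1) ≤ (Gl x b ^ (s + 1) + (s + 1) * (Real.log x ^ s * q)) / (s + 1) := div_le_div_of_nonneg_right h7 hs0.le
    have e : (Gl x b ^ (s + 1) + (s + 1) * (Real.log x ^ s * q)) / (s + 1) = Gl x b ^ (s + 1) / (s + 1) + q * Real.log x ^ s := by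
      field_simp
    linarith
  have hsum : ∑ j ∈ range J, (1 / ((b + j * q : ℕ) : ℝ) * Gl x (b + j * q) ^ s) = ∑ j ∈ range J, f j := by rw [hf]
  rw [hsum, abs_le]
  obtain ⟨S, hS⟩ : ∃ S, S = ∑ j ∈ range J, f j := ⟨_, rfl⟩
  rw [← hS] at up low ⊢
  have e2 : Real.log x ^ (s + 1) / (s + 1) / q * q = Real.log x ^ (s + 1) / (s + 1) := by field_simp
  have u1 : S * q ≤ (Real.log x ^ (s + 1) / (s + 1) / q + Real.log x ^ s) * q := by
    rw [add_mul, e2]
    nlinarith [mul_le_mul_of_nonneg_left f0 hq0.le]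
  have u2 := le_of_mul_le_mul_right u1 hq0
  have l1 : (Real.log x ^ (s + 1) / (s + 1) / q - Real.log x ^ s) * q ≤ S * q := by
    rw [sub_mul, e2]
    nlinarith
  have l2 := le_of_mul_le_mul_right l1 hq0
  constructor <;> linarith

/-- splitting into residue classes -/
lemma split_classes (f : ℕ → ℝ) (q J : ℕ) : ∑ k ∈ Icc 1 (J * q), f k = ∑ b ∈ Icc 1 q, ∑ j ∈ range J, f (b + j * q) := by
  induction J with
  | zero => simp
  | succ J ih =>
    have h1 : Icc 1 ((J + 1) * q) = Icc 1 (J * q) ∪ (Icc 1 q).map (addRightEmbedding (J * q)) := by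
      ext k
      rw [mem_union, mem_map, mem_Icc, mem_Icc]
      constructor
      · intro h
        by_cases hk : k ≤ J * q
        · left; exact ⟨h.1, hk⟩
        · right
          refine ⟨k - J * q, ?_, ?_⟩
          · rw [mem_Icc]
            have : (J + 1) * q = J * q + q := by ring
            omega
          · simp only [addRightEmbedding_apply]
            omega
      · intro h
        have e : (J + 1) * q = J * q + q := by ring
        rcases h with h | ⟨a, ha, rfl⟩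
        · omega
        · rw [mem_Icc] at ha
          simp only [addRightEmbedding_apply]
          omega
    have h2 : Disjoint (Icc 1 (J * q)) ((Icc 1 q).map (addRightEmbedding (J * q))) := by
      rw [disjoint_left]
      intro k hk hk'
      rw [mem_map] at hk'
      obtain ⟨a, ha, rfl⟩ := hk'
      rw [mem_Icc] at ha hk
      simp only [addRightEmbedding_apply] at hk
      omega
    rw [h1, sum_union h2, ih, sum_map, ← sum_add_distrib]
    apply sum_congr rfl
    intro b _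
    rw [sum_range_succ]
    simp only [addRightEmbedding_apply]

/-- periodic weights -/
lemma per_sum (x : ℝ) (hx : 1 ≤ x) (s q : ℕ) (hs : 1 ≤ s) (hq : 1 ≤ q) (a : ℕ → ℝ) (A : ℝ) (ha : ∀ k, a (k + q) = a k)
    (hA : ∀ k, |a k| ≤ A) :
    |∑ k ∈ Icc 1 ⌊x⌋₊, a k * (1 / (k : ℝ) * Real.log (x / k) ^ s) - (∑ b ∈ range q, a b) / q * (Real.log x ^ (s + 1) / (s + 1))| ≤
      q * A * Real.log x ^ s := by
  have hq0 : (0 : ℝ) < q := by exact_mod_cast hq
  have hper : ∀ j k, a (k + j * q) = a k := by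
    intro j
    induction j with
    | zero => intro k; simp
    | succ j ih =>
      intro k
      have e : k + (j + 1) * q = (k + j * q) + q := by ring
      rw [e, ha, ih]
  obtain ⟨J, hJ⟩ : ∃ J, J = ⌊x⌋₊ + 1 := ⟨_, rfl⟩
  have hxJ : x ≤ J := by rw [hJ]; push_cast; exact (Nat.lt_floor_add_one x).le
  have e1 : ∑ k ∈ Icc 1 ⌊x⌋₊, a k * (1 / (k : ℝ) * Real.log (x / k) ^ s) = ∑ k ∈ Icc 1 (J * q), a k * (1 / (k : ℝ) * Gl x k ^ s) := by
    have hsub : Icc 1 ⌊x⌋₊ ⊆ Icc 1 (J * q) := by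
      apply Icc_subset_Icc le_rfl
      rw [hJ]
      nlinarith
    rw [← sum_subset hsub]
    · apply sum_congr rfl
      intro k hk
      rw [mem_Icc] at hk
      rw [Gl_of_le x k hk.1 ((Nat.le_floor_iff (by linarith)).1 hk.2)]
    · intro k hk hk'
      rw [mem_Icc] at hk hk'
      have h1 : ⌊x⌋₊ < k := by omega
      have h2 : x ≤ k := ((Nat.floor_lt (by linarith)).1 h1).le
      rw [Gl_of_ge x hx k h2, zero_pow (by omega)]
      simp
  have e2 : ∑ b ∈ range q, a b = ∑ b ∈ Icc 1 q, a b := by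
    have h1 : ∑ b ∈ Icc 1 q, a b = ∑ b ∈ range q, a (b + 1) := by
      rw [range_eq_Ico, sum_Ico_add' a 0 q 1]
      rfl
    have h2 : ∑ b ∈ range q, a (b + 1) + a 0 = ∑ b ∈ range q, a b + a q := by
      rw [← sum_range_succ, sum_range_succ']
    have h3 : a q = a 0 := by have := ha 0; rwa [zero_add] at this
    rw [h1]
    linarith
  rw [e1, split_classes, e2, sum_div, sum_mul, ← sum_sub_distrib]
  refine (abs_sum_le_sum_abs _ _).trans ?_
  have h5 : ∀ b ∈ Icc 1 q, |∑ j ∈ range J, a (b + j * q) * (1 / ((b + j * q : ℕ) : ℝ) * Gl x (b + j * q) ^ s) -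
      a b / q * (Real.log x ^ (s + 1) / (s + 1))| ≤ A * Real.log x ^ s := by
    intro b hb
    rw [mem_Icc] at hb
    have e3 : ∑ j ∈ range J, a (b + j * q) * (1 / ((b + j * q : ℕ) : ℝ) * Gl x (b + j * q) ^ s) - a b / q * (Real.log x ^ (s + 1) / (s + 1)) =
        a b * (∑ j ∈ range J, (1 / ((b + j * q : ℕ) : ℝ) * Gl x (b + j * q) ^ s) - Real.log x ^ (s + 1) / (s + 1) / q) := by
      rw [mul_sub, mul_sum]
      congr 1
      · apply sum_congr rfl
        intro j _
        rw [hper]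
      · ring
    rw [e3, abs_mul]
    exact mul_le_mul (hA b) (prog x hx s b q J hs hb.1 hb.2 hxJ) (abs_nonneg _) ((abs_nonneg _).trans (hA b))
  refine (sum_le_sum h5).trans ?_
  rw [sum_const, Nat.card_Icc, nsmul_eq_mul, Nat.add_sub_cancel]
  apply le_of_eq
  ring

end Pool.Agent.TH212.DV
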