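import Pool.Agent.TH212.DV.C10

set_option autoImplicit false

/-! The asymptotics of the sums of `dk s d / d` over the multiples of a fixed modulus. -/

namespace Pool.Agent.TH212.DV
open Finset

/-- the proportion of `s`-tuples modulo `q` with product zero -/
noncomputable def kap : ℕ → ℕ → ℝ
  | 0, q => if q = 1 then 1 else 0
  | s + 1, q => (∑ b ∈ range q, kap s (q / Nat.gcd b q)) / q

lemma kap_succ (s q : ℕ) : kap (s + 1) q = (∑ b ∈ range q, kap s (q / Nat.gcd b q)) / q := rfl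

lemma kap_nonneg (s : ℕ) : ∀ q, 0 ≤ kap s q := by
  induction s with
  | zero => intro q; unfold kap; split_ifs <;> norm_num
  | succ s ih => intro q; rw [kap_succ]; exact div_nonneg (sum_nonneg fun b _ => ih _) (Nat.cast_nonneg _)

lemma kap_le_one (s : ℕ) : ∀ q, kap s q ≤ 1 := by
  induction s with
  | zero => intro q; unfold kap; split_ifs <;> norm_num
  | succ s ih =>
    intro q
    rw [kap_succ]
    rcases Nat.eq_zero_or_pos q with h | h
    · subst h; simp
    · have hq : (0 : ℝ) < q := by exact_mod_cast h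
      rw [div_le_one hq]
      refine (sum_le_sum fun b _ => ih _).trans ?_
      rw [sum_const, card_range, nsmul_eq_mul, mul_one]

/-- `kap s q ≤ dk s q / q` -/
lemma kap_le (s : ℕ) : ∀ q, 1 ≤ q → kap s q ≤ (dk s q : ℝ) / q := by
  induction s with
  | zero =>
    intro q hq
    unfold kap
    rw [dk_zero]
    split_ifs with h
    · subst h; simp
    · simp
  | succ s ih =>
    intro q hq
    have hq0 : (0 : ℝ) < q := by exact_mod_cast hq
    rw [kap_succ]
    apply div_le_div_of_nonneg_right _ hq0.le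
    rw [dk_succ_apply]
    have hmaps : ∀ b ∈ range q, q / Nat.gcd b q ∈ q.divisors := by
      intro b _
      rw [Nat.mem_divisors]
      exact ⟨Nat.div_dvd_of_dvd (Nat.gcd_dvd_right b q), by omega⟩
    rw [← sum_fiberwise_of_maps_to hmaps]
    push_cast
    apply sum_le_sum
    intro d hd
    rw [Nat.mem_divisors] at hd
    have hd0 : 1 ≤ d := Nat.pos_of_dvd_of_pos hd.1 hq
    have hd1 : (0 : ℝ) < d := by exact_mod_cast hd0
    have h1 : ∀ b ∈ (range q).filter (fun b => q / Nat.gcd b q = d), kap s (q / Nat.gcd b q) ≤ (dk s d : ℝ) / d := by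
      intro b hb
      rw [mem_filter] at hb
      rw [hb.2]
      exact ih d hd0
    refine (sum_le_sum h1).trans ?_
    rw [sum_const, nsmul_eq_mul]
    have hcard : ((range q).filter (fun b => q / Nat.gcd b q = d)).card ≤ d := by
      have e1 : (range q).filter (fun b => q / Nat.gcd b q = d) = (range q).filter (fun b => Nat.gcd q b = q / d) := by
        apply filter_congr
        intro b hb
        rw [Nat.gcd_comm q b]
        have hg := Nat.gcd_dvd_right b q
        constructor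
        · intro h
          rw [← h, Nat.div_div_self hg (by omega)]
        · intro h
          rw [h, Nat.div_div_self hd.1 (by omega)]
      rw [e1, ← Nat.totient_div_of_dvd (Nat.div_dvd_of_dvd hd.1), Nat.div_div_self hd.1 (by omega)]
      exact Nat.totient_le d
    have hc : (((range q).filter (fun b => q / Nat.gcd b q = d)).card : ℝ) ≤ d := by exact_mod_cast hcard
    have h2 : (0 : ℝ) ≤ (dk s d : ℝ) / d := by positivity
    calc _ ≤ (d : ℝ) * ((dk s d : ℝ) / d) := mul_le_mul_of_nonneg_right hc h2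
      _ = dk s d := by field_simp

lemma conv_sum (g : ℕ → ℕ → ℝ) (n : ℕ) :
    ∑ d ∈ Icc 1 n, ∑ p ∈ d.divisorsAntidiagonal, g p.1 p.2 = ∑ k ∈ Icc 1 n, ∑ m ∈ Icc 1 (n / k), g k m := by
  rw [sum_sigma', sum_sigma']
  apply sum_bij' (i := fun (x : Σ _ : ℕ, ℕ × ℕ) _ => (⟨x.2.1, x.2.2⟩ : Σ _ : ℕ, ℕ)) (j := fun (y : Σ _ : ℕ, ℕ) _ => (⟨y.1 * y.2, (y.1, y.2)⟩ : Σ _ : ℕ, ℕ × ℕ))
  · intro x hx
    rw [mem_sigma, mem_Icc, Nat.mem_divisorsAntidiagonal] at hx
    rw [mem_sigma, mem_Icc, mem_Icc]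
    obtain ⟨⟨h1, h2⟩, h3, h4⟩ := hx
    have a1 : 0 < x.2.1 := Nat.pos_of_ne_zero (by rintro h; rw [h, zero_mul] at h3; exact h4 h3.symm)
    have a2 : 0 < x.2.2 := Nat.pos_of_ne_zero (by rintro h; rw [h, mul_zero] at h3; exact h4 h3.symm)
    refine ⟨⟨a1, ?_⟩, a2, ?_⟩
    · refine le_trans ?_ h2
      rw [← h3]
      exact Nat.le_mul_of_pos_right _ a2
    · simp only
      rw [Nat.le_div_iff_mul_le a1, mul_comm, h3]
      exact h2
  · intro y hy
    rw [mem_sigma, mem_Icc, mem_Icc] at hy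
    rw [mem_sigma, mem_Icc, Nat.mem_divisorsAntidiagonal]
    obtain ⟨⟨h1, h2⟩, h3, h4⟩ := hy
    rw [Nat.le_div_iff_mul_le h1, mul_comm] at h4
    have : 0 < y.1 * y.2 := Nat.mul_pos h1 h3
    refine ⟨⟨this, h4⟩, rfl, this.ne'⟩
  · intro x hx
    rw [mem_sigma, mem_Icc, Nat.mem_divisorsAntidiagonal] at hx
    obtain ⟨a, b, c⟩ := x
    simp only at hx ⊢
    rw [hx.2.1]
  · intro y hy
    rfl
  · intro x hx
    rfl

lemma dvd_mul_iff (q k m : ℕ) (hq : 1 ≤ q) : q ∣ k * m ↔ q / Nat.gcd k q ∣ m := by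
  have hg : 0 < Nat.gcd k q := Nat.gcd_pos_of_pos_right _ hq
  obtain ⟨g, k', q', h0, h1, h2, h3⟩ := Nat.exists_coprime' hg
  have hgg : Nat.gcd k q = g := by rw [h2, h3, Nat.gcd_mul_right, h1, one_mul]
  rw [hgg, h3, Nat.mul_div_cancel _ h0, h2]
  constructor
  · intro h
    have h4 : q' * g ∣ (k' * m) * g := by
      have : k' * g * m = k' * m * g := by ring
      rwa [this] at h
    exact (Nat.Coprime.symm h1).dvd_of_dvd_mul_left (Nat.dvd_of_mul_dvd_mul_right h0 h4)
  · intro h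
    have : k' * g * m = k' * (m * g) := by ring
    rw [this]
    exact (Nat.mul_dvd_mul_right h g).trans (Dvd.intro_left _ rfl)

/-- the recursion -/
lemma RR_rec (s n q : ℕ) (hq : 1 ≤ q) : RR (fun d => (dk (s + 1) d : ℝ)) n q =
    ∑ k ∈ Icc 1 n, 1 / (k : ℝ) * RR (fun d => (dk s d : ℝ)) (n / k) (q / Nat.gcd k q) := by
  have e1 : RR (fun d => (dk (s + 1) d : ℝ)) n q = ∑ d ∈ Icc 1 n, ∑ p ∈ d.divisorsAntidiagonal,
      (fun k m : ℕ => if q ∣ k * m then (dk s m : ℝ) / (k * m) else 0) p.1 p.2 := by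
    unfold RR
    rw [sum_filter]
    apply sum_congr rfl
    intro d hd
    rw [mem_Icc] at hd
    split_ifs with h
    · simp only
      rw [dk_succ, ArithmeticFunction.mul_apply]
      push_cast
      rw [sum_div]
      apply sum_congr rfl
      intro p hp
      rw [Nat.mem_divisorsAntidiagonal] at hp
      have a1 : p.1 ≠ 0 := by rintro h; rw [h, zero_mul] at hp; exact hp.2 hp.1.symm
      have e2 : ((p.1 : ℝ) * p.2) = d := by exact_mod_cast hp.1
      rw [hp.1, if_pos h, ArithmeticFunction.zeta_apply_ne a1, e2]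
      push_cast
      ring
    · symm
      apply sum_eq_zero
      intro p hp
      rw [Nat.mem_divisorsAntidiagonal] at hp
      simp only
      rw [hp.1, if_neg h]
  rw [e1, conv_sum (fun k m : ℕ => if q ∣ k * m then (dk s m : ℝ) / (k * m) else 0)]
  apply sum_congr rfl
  intro k hk
  rw [mem_Icc] at hk
  unfold RR
  rw [sum_filter, mul_sum]
  apply sum_congr rfl
  intro m _
  by_cases h : q ∣ k * m
  · rw [if_pos h, if_pos ((dvd_mul_iff q k m hq).1 h)]
    rw [one_div, div_mul_eq_div_div, div_eq_mul_inv (_ / (k : ℝ)), div_eq_mul_inv, div_eq_mul_inv]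
    ring
  · rw [if_neg h, if_neg (fun h' => h ((dvd_mul_iff q k m hq).2 h')), mul_zero]

/-- the first case -/
lemma RR_one (q : ℕ) (hq : 1 ≤ q) (x : ℝ) (hx : 1 ≤ x) :
    |RR (fun d => (dk (0 + 1) d : ℝ)) ⌊x⌋₊ q - kap (0 + 1) q * (Real.log x ^ (0 + 1) / ((0 + 1).factorial : ℕ))| ≤
      (1 + Real.log q) * (1 + Real.log x) ^ 0 := by
  have hq0 : (0 : ℝ) < q := by exact_mod_cast hq
  have hq1 : (1 : ℝ) ≤ q := by exact_mod_cast hq
  have hlq : 0 ≤ Real.log q := Real.log_nonneg hq1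
  have hlx : 0 ≤ Real.log x := Real.log_nonneg hx
  have hk : kap (0 + 1) q = 1 / q := by
    rw [kap_succ]
    congr 1
    have : ∀ b ∈ range q, kap 0 (q / Nat.gcd b q) = if b = 0 then 1 else 0 := by
      intro b hb
      rw [mem_range] at hb
      unfold kap
      by_cases h : b = 0
      · subst h; simp [Nat.div_self hq]
      · rw [if_neg h, if_neg]
        intro h2
        have h3 := Nat.gcd_dvd_right b q
        have h4 : q = Nat.gcd b q := by
          have := Nat.div_mul_cancel h3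
          rw [h2, one_mul] at this
          exact this.symm
        have h5 : q ∣ b := by rw [h4]; exact Nat.gcd_dvd_left b q
        exact absurd (Nat.le_of_dvd (Nat.pos_of_ne_zero h) h5) (by omega)
    rw [sum_congr rfl this, sum_ite_eq' (range q) 0, if_pos (mem_range.2 hq)]
  have hR : RR (fun d => (dk (0 + 1) d : ℝ)) ⌊x⌋₊ q = 1 / q * ∑ m ∈ Icc 1 (⌊x⌋₊ / q), (1 : ℝ) / m := by
    unfold RR
    rw [mul_sum]
    symm
    apply sum_bij (fun m _ => m * q)
    · intro m hm
      rw [mem_Icc] at hm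
      rw [mem_filter, mem_Icc]
      refine ⟨⟨Nat.mul_pos hm.1 hq, ?_⟩, Dvd.intro_left _ rfl⟩
      exact (Nat.le_div_iff_mul_le hq).1 hm.2
    · intro m _ m' _ h
      exact Nat.eq_of_mul_eq_mul_right hq h
    · intro d hd
      rw [mem_filter, mem_Icc] at hd
      refine ⟨d / q, ?_, Nat.div_mul_cancel hd.2⟩
      rw [mem_Icc]
      exact ⟨Nat.div_pos (Nat.le_of_dvd hd.1.1 hd.2) hq, Nat.div_le_div_right hd.1.2⟩
    · intro m hm
      rw [mem_Icc] at hm
      have : dk (0 + 1) (m * q) = 1 := by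
        unfold dk
        rw [zero_add, pow_one, ArithmeticFunction.zeta_apply_ne (Nat.mul_ne_zero (by omega) (by omega))]
      simp only
      rw [this]
      push_cast
      rw [one_div, one_div, one_div, mul_inv]
      ring
  have hfl : ⌊x⌋₊ / q = ⌊x / q⌋₊ := by rw [Nat.floor_div_natCast]
  obtain ⟨M, hM⟩ : ∃ M, M = ⌊x / q⌋₊ := ⟨_, rfl⟩
  rw [hR, hk, hfl, ← hM, pow_zero, mul_one, zero_add, pow_one, Nat.factorial_one, Nat.cast_one, div_one, ← mul_sub, abs_mul]
  have h1 : |(1 : ℝ) / q| ≤ 1 := by rw [abs_of_pos (by positivity), div_le_one hq0]; exact hq1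
  have h2 : |∑ m ∈ Icc 1 M, (1 : ℝ) / m - Real.log x| ≤ 1 + Real.log q := by
    have hxq : 0 < x / q := by positivity
    have elog : Real.log (x / q) = Real.log x - Real.log q := Real.log_div (by linarith) hq0.ne'
    have up := sum_inv_Icc M
    have low : Real.log (M + 1) ≤ ∑ m ∈ Icc 1 M, (1 : ℝ) / m := by
      have h3 := log_add_one_le_harmonic M
      push_cast at h3
      refine h3.trans (le_of_eq ?_)
      rw [harmonic_eq_sum_Icc]
      push_cast
      apply sum_congr rfl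
      intro i _
      rw [one_div]
    have h4 : x / q < M + 1 := by rw [hM]; exact Nat.lt_floor_add_one _
    have h5 : Real.log (x / q) ≤ Real.log (M + 1) := Real.log_le_log hxq h4.le
    rw [abs_le]
    constructor
    · linarith
    · have h6 : Real.log M ≤ Real.log x := by
        rcases Nat.eq_zero_or_pos M with h | h
        · rw [h]; simp; exact hlx
        · apply Real.log_le_log (by exact_mod_cast h)
          have : (M : ℝ) ≤ x / q := by rw [hM]; exact Nat.floor_le hxq.le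
          refine this.trans ?_
          rw [div_le_iff₀ hq0]
          nlinarith
      linarith
  calc |(1 : ℝ) / q| * |∑ m ∈ Icc 1 M, (1 : ℝ) / m - Real.log x| ≤ 1 * (1 + Real.log q) := mul_le_mul h1 h2 (abs_nonneg _) (by norm_num)
    _ = _ := one_mul _

/-- the asymptotics -/
theorem RR_asymp (s : ℕ) : ∀ q : ℕ, 1 ≤ q → ∃ C : ℝ, 0 ≤ C ∧ ∀ x : ℝ, 1 ≤ x →
    |RR (fun d => (dk (s + 1) d : ℝ)) ⌊x⌋₊ q - kap (s + 1) q * (Real.log x ^ (s + 1) / ((s + 1).factorial : ℕ))| ≤ C * (1 + Real.log x) ^ s := by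
  induction s with
  | zero =>
    intro q hq
    have hq1 : (1 : ℝ) ≤ q := by exact_mod_cast hq
    exact ⟨1 + Real.log q, by linarith [Real.log_nonneg hq1], fun x hx => RR_one q hq x hx⟩
  | succ s ih =>
    intro q hq
    have hq0 : (0 : ℝ) < q := by exact_mod_cast hq
    choose! C hC0 hC using ih
    obtain ⟨C', hC'⟩ : ∃ C', C' = ∑ d ∈ Icc 1 q, C d := ⟨_, rfl⟩
    have hC'0 : 0 ≤ C' := by rw [hC']; exact sum_nonneg fun d hd => hC0 d (mem_Icc.1 hd).1
    have hCle : ∀ d, 1 ≤ d → d ≤ q → C d ≤ C' := by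
      intro d h1 h2
      rw [hC']
      exact single_le_sum (f := C) (fun d hd => hC0 d (mem_Icc.1 hd).1) (mem_Icc.2 ⟨h1, h2⟩)
    refine ⟨C' + q, by positivity, fun x hx => ?_⟩
    have hlx : 0 ≤ Real.log x := Real.log_nonneg hx
    obtain ⟨F, hF⟩ : ∃ F : ℝ, F = (((s + 1).factorial : ℕ) : ℝ) := ⟨_, rfl⟩
    have hF1 : 1 ≤ F := by rw [hF]; exact_mod_cast Nat.one_le_iff_ne_zero.2 (Nat.factorial_ne_zero _)
    obtain ⟨a, ha⟩ : ∃ a : ℕ → ℝ, a = fun k => kap (s + 1) (q / Nat.gcd k q) := ⟨_, rfl⟩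
    have h1 : |RR (fun d => (dk (s + 1 + 1) d : ℝ)) ⌊x⌋₊ q - ∑ k ∈ Icc 1 ⌊x⌋₊, 1 / (k : ℝ) * (a k * (Real.log (x / k) ^ (s + 1) / F))| ≤
        C' * (1 + Real.log x) ^ (s + 1) := by
      rw [RR_rec (s + 1) ⌊x⌋₊ q hq, ← sum_sub_distrib]
      refine (abs_sum_le_sum_abs _ _).trans ?_
      have h2 : ∀ k ∈ Icc 1 ⌊x⌋₊, |1 / (k : ℝ) * RR (fun d => (dk (s + 1) d : ℝ)) (⌊x⌋₊ / k) (q / Nat.gcd k q) -
          1 / (k : ℝ) * (a k * (Real.log (x / k) ^ (s + 1) / F))| ≤ 1 / (k : ℝ) * (C' * (1 + Real.log x) ^ s) := by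
        intro k hk
        rw [mem_Icc] at hk
        have hk0 : (0 : ℝ) < k := by exact_mod_cast hk.1
        have hkx : (k : ℝ) ≤ x := (Nat.le_floor_iff (by linarith)).1 hk.2
        have hxk : 1 ≤ x / k := by rw [le_div_iff₀ hk0, one_mul]; exact hkx
        have hg := Nat.gcd_dvd_right k q
        have hgp : 0 < Nat.gcd k q := Nat.gcd_pos_of_pos_right _ hq
        have hq' : 1 ≤ q / Nat.gcd k q := Nat.div_pos (Nat.le_of_dvd hq hg) hgp
        have h3 := hC (q / Nat.gcd k q) hq' (x / k) hxk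
        rw [← mul_sub, abs_mul, abs_of_pos (by positivity : (0 : ℝ) < 1 / k)]
        apply mul_le_mul_of_nonneg_left _ (by positivity)
        rw [Nat.floor_div_natCast] at h3
        rw [ha, hF]
        refine h3.trans ?_
        have h4 : C (q / Nat.gcd k q) ≤ C' := hCle _ hq' (Nat.div_le_self _ _)
        have h5 : 0 ≤ Real.log (x / k) := Real.log_nonneg hxk
        have h6 : Real.log (x / k) ≤ Real.log x := by
          apply Real.log_le_log (by linarith)
          rw [div_le_iff₀ hk0]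
          have : (1 : ℝ) ≤ k := by exact_mod_cast hk.1
          nlinarith
        exact mul_le_mul h4 (pow_le_pow_left₀ (by linarith) (by linarith) _) (by positivity) hC'0
      refine (sum_le_sum h2).trans ?_
      rw [← sum_mul]
      have h7 := sum_inv_Icc ⌊x⌋₊
      have h8 : Real.log (⌊x⌋₊ : ℝ) ≤ Real.log x := by
        apply Real.log_le_log
        · exact_mod_cast Nat.floor_pos.2 hx
        · exact Nat.floor_le (by linarith)
      calc (∑ k ∈ Icc 1 ⌊x⌋₊, 1 / (k : ℝ)) * (C' * (1 + Real.log x) ^ s) ≤ (1 + Real.log x) * (C' * (1 + Real.log x) ^ s) :=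
            mul_le_mul_of_nonneg_right (by linarith) (by positivity)
        _ = _ := by ring
    have h2 : |∑ k ∈ Icc 1 ⌊x⌋₊, 1 / (k : ℝ) * (a k * (Real.log (x / k) ^ (s + 1) / F)) -
        kap (s + 1 + 1) q * (Real.log x ^ (s + 1 + 1) / ((s + 1 + 1).factorial : ℕ))| ≤ q * (1 + Real.log x) ^ (s + 1) := by
      have h3 := per_sum x hx (s + 1) q (by omega) hq a 1 (by
        intro k
        rw [ha]
        simp only
        rw [Nat.gcd_add_self_left]) (by
        intro k
        rw [ha]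
        simp only
        rw [abs_of_nonneg (kap_nonneg _ _)]
        exact kap_le_one _ _)
      have e1 : ∑ k ∈ Icc 1 ⌊x⌋₊, 1 / (k : ℝ) * (a k * (Real.log (x / k) ^ (s + 1) / F)) =
          (∑ k ∈ Icc 1 ⌊x⌋₊, a k * (1 / (k : ℝ) * Real.log (x / k) ^ (s + 1))) / F := by
        rw [sum_div]
        apply sum_congr rfl
        intro k _
        ring
      have e2 : kap (s + 1 + 1) q * (Real.log x ^ (s + 1 + 1) / ((s + 1 + 1).factorial : ℕ)) =
          ((∑ b ∈ range q, a b) / q * (Real.log x ^ (s + 1 + 1) / (((s + 1 : ℕ) : ℝ) + 1))) / F := by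
        rw [kap_succ (s + 1), Nat.factorial_succ (s + 1), hF, ha]
        push_cast
        have : ((s : ℝ) + 1 + 1) ≠ 0 := by positivity
        have h9 : (((s + 1).factorial : ℕ) : ℝ) ≠ 0 := by exact_mod_cast Nat.factorial_ne_zero _
        field_simp
      rw [e1, e2, ← sub_div, abs_div, abs_of_pos (by linarith : 0 < F)]
      rw [div_le_iff₀ (by linarith)]
      refine h3.trans ?_
      have h4 : Real.log x ^ (s + 1) ≤ (1 + Real.log x) ^ (s + 1) := pow_le_pow_left₀ hlx (by linarith) _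
      have h5 : (0 : ℝ) ≤ q * (1 + Real.log x) ^ (s + 1) := by positivity
      nlinarith [mul_le_mul_of_nonneg_left h4 hq0.le]
    have h3 := abs_sub_le (RR (fun d => (dk (s + 1 + 1) d : ℝ)) ⌊x⌋₊ q) (∑ k ∈ Icc 1 ⌊x⌋₊, 1 / (k : ℝ) * (a k * (Real.log (x / k) ^ (s + 1) / F)))
      (kap (s + 1 + 1) q * (Real.log x ^ (s + 1 + 1) / ((s + 1 + 1).factorial : ℕ)))
    calc _ ≤ _ := h3
      _ ≤ C' * (1 + Real.log x) ^ (s + 1) + q * (1 + Real.log x) ^ (s + 1) := add_le_add h1 h2
      _ = _ := by ring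

end Pool.Agent.TH212.DV
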