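import Pool.Agent.TH212.DV.C6
import Pool.Agent.TH212.PL.L1

set_option autoImplicit false

/-! Correlations of the models and mean squares. -/

namespace Pool.Agent.TH212.DV
open Finset
open Pool.Agent.H807R2.Dav

lemma red_zero : red 0 = 0 := by unfold red; simp

/-- the sum over `n` for two different fractions -/
lemma inner_small (z A : ℕ) (hz : 1 ≤ z) (x y : Σ _ : ℕ, ℕ) (hx : x ∈ PP z) (hy : y ∈ PP z) (hne : x ≠ y) :
    ‖∑ n ∈ Icc 1 A, ee ((n : ℝ) * ((y.2 : ℝ) / y.1 - (x.2 : ℝ) / x.1))‖ ≤ (z : ℝ) ^ 2 := by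
  have hz0 : (0 : ℝ) < z := by exact_mod_cast hz
  obtain ⟨β, hβ⟩ : ∃ β : ℝ, β = (y.2 : ℝ) / y.1 - (x.2 : ℝ) / x.1 := ⟨_, rfl⟩
  have h1 : 1 / (z : ℝ) ^ 2 ≤ |red β| := by
    by_contra hc
    push Not at hc
    apply hne
    apply separated z (-((x.2 : ℝ) / x.1)) x y hx hy
    rw [neg_add_cancel, red_zero, zero_sub, abs_neg]
    have e : -((x.2 : ℝ) / x.1) + (y.2 : ℝ) / y.1 = β := by rw [hβ]; ring
    rw [e]
    exact hc
  have h2 : 4 * (1 / (z : ℝ) ^ 2) ≤ dd β := by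
    have h3 := dd_red (red β) (abs_red β)
    have h4 : dd (red β) = dd β := by
      unfold red
      have : β - (round β : ℝ) = β + ((-round β : ℤ) : ℝ) := by push_cast; ring
      rw [this, dd_add_int]
    rw [h4] at h3
    linarith
  have h3 : ‖∑ n ∈ Ico 1 (A + 1), ee ((n : ℝ) * β)‖ ≤ KK A β := geo_bound 1 (A + 1) (by omega) (by push_cast; linarith) _
  rw [← hβ]
  have h4 : Icc 1 A = Ico 1 (A + 1) := rfl
  rw [h4]
  refine h3.trans ((KK_le' (Nat.cast_nonneg _) (by positivity) h2).trans ?_)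
  rw [div_le_iff₀ (by positivity)]
  have : (z : ℝ) ^ 2 * (4 * (1 / (z : ℝ) ^ 2)) = 4 := by field_simp
  linarith

lemma card_PP (z : ℕ) : ((PP z).card : ℝ) ≤ (z : ℝ) ^ 2 := by
  unfold PP
  rw [card_sigma]
  push_cast
  calc ∑ q ∈ Icc 1 z, ((Rd q).card : ℝ) ≤ ∑ _q ∈ Icc 1 z, (z : ℝ) := by
        apply sum_le_sum
        intro q hq
        rw [mem_Icc] at hq
        rw [card_Rd]
        exact_mod_cast (Nat.totient_le q).trans hq.2
    _ = _ := by rw [sum_const, Nat.card_Icc, nsmul_eq_mul]; simp; ring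

lemma MM_eq (W : ℕ → ℝ) (D z : ℕ) (n : ℤ) :
    ((MM W D z n : ℝ) : ℂ) = ∑ x ∈ PP z, (RR W D x.1 : ℂ) * ee (n * ((x.2 : ℝ) / x.1)) := by
  unfold MM PP
  rw [sum_sigma]
  push_cast
  apply sum_congr rfl
  intro q hq
  rw [mem_Icc] at hq
  rw [← mul_sum]
  congr 1
  rw [← cr_eq q n (by omega)]
  rfl

/-- correlations of two models -/
theorem model_corr (W W' : ℕ → ℝ) (D D' z A : ℕ) (hz : 1 ≤ z) (h : ℤ) (ρ : ℝ) (hρ : 0 ≤ ρ)
    (h1 : ∀ q ∈ Icc 1 z, |RR W D q| ≤ ρ) (h2 : ∀ q ∈ Icc 1 z, |RR W' D' q| ≤ ρ) :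
    |∑ n ∈ Icc 1 A, MM W D z n * MM W' D' z (n + h) - A * ∑ q ∈ Icc 1 z, RR W D q * RR W' D' q * (cz q h : ℝ)| ≤
      (z : ℝ) ^ 6 * ρ ^ 2 := by
  classical
  have e0 : ∀ n : ℕ, ((MM W D z n : ℝ) : ℂ) = ∑ x ∈ PP z, (RR W D x.1 : ℂ) * ee (-((n : ℝ) * ((x.2 : ℝ) / x.1))) := by
    intro n
    have e1 : ((MM W D z n : ℝ) : ℂ) = (starRingEnd ℂ) ((MM W D z n : ℝ) : ℂ) := (Complex.conj_ofReal _).symm
    rw [e1, MM_eq, map_sum]
    apply sum_congr rfl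
    intro x _
    rw [map_mul, Complex.conj_ofReal, Pool.Agent.H373R2.T7.conj_ee]
    push_cast
    rfl
  have e2 : ((∑ n ∈ Icc 1 A, MM W D z n * MM W' D' z (n + h) : ℝ) : ℂ) =
      ∑ x ∈ PP z, ∑ y ∈ PP z, (RR W D x.1 : ℂ) * (RR W' D' y.1 : ℂ) * ee (h * ((y.2 : ℝ) / y.1)) *
        ∑ n ∈ Icc 1 A, ee ((n : ℝ) * ((y.2 : ℝ) / y.1 - (x.2 : ℝ) / x.1)) := by
    push_cast
    have e3 : ∀ n ∈ Icc 1 A, ((MM W D z n : ℝ) : ℂ) * ((MM W' D' z (n + h) : ℝ) : ℂ) =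
        ∑ x ∈ PP z, ∑ y ∈ PP z, (RR W D x.1 : ℂ) * (RR W' D' y.1 : ℂ) * ee (h * ((y.2 : ℝ) / y.1)) *
          ee ((n : ℝ) * ((y.2 : ℝ) / y.1 - (x.2 : ℝ) / x.1)) := by
      intro n _
      rw [e0 n, MM_eq W' D' z, sum_mul_sum]
      apply sum_congr rfl
      intro x _
      apply sum_congr rfl
      intro y _
      have e4 : ee ((((n : ℤ) + h : ℤ) : ℝ) * ((y.2 : ℝ) / y.1)) = ee (h * ((y.2 : ℝ) / y.1)) * ee ((n : ℝ) * ((y.2 : ℝ) / y.1)) := by
        rw [← ee_add]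
        congr 1
        push_cast
        ring
      have e5 : ee ((n : ℝ) * ((y.2 : ℝ) / y.1 - (x.2 : ℝ) / x.1)) = ee ((n : ℝ) * ((y.2 : ℝ) / y.1)) * ee (-((n : ℝ) * ((x.2 : ℝ) / x.1))) := by
        rw [← ee_add]
        congr 1
        ring
      rw [e4, e5]
      ring
    rw [sum_congr rfl e3, sum_comm]
    apply sum_congr rfl
    intro x _
    rw [sum_comm]
    apply sum_congr rfl
    intro y _
    rw [mul_sum]
  have e3 : ((A * ∑ q ∈ Icc 1 z, RR W D q * RR W' D' q * (cz q h : ℝ) : ℝ) : ℂ) =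
      ∑ x ∈ PP z, (RR W D x.1 : ℂ) * (RR W' D' x.1 : ℂ) * ee (h * ((x.2 : ℝ) / x.1)) * (A : ℂ) := by
    unfold PP
    rw [sum_sigma]
    push_cast
    rw [mul_sum]
    apply sum_congr rfl
    intro q hq
    rw [mem_Icc] at hq
    rw [← cr_eq q h (by omega)]
    unfold cr
    rw [mul_sum, mul_sum]
    apply sum_congr rfl
    intro a _
    ring
  have e4 : ∀ x ∈ PP z, ∑ n ∈ Icc 1 A, ee ((n : ℝ) * ((x.2 : ℝ) / x.1 - (x.2 : ℝ) / x.1)) = (A : ℂ) := by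
    intro x _
    simp only [sub_self, mul_zero, ee_zero, sum_const, Nat.card_Icc, nsmul_eq_mul, mul_one]
    simp
  have e5 : ((∑ n ∈ Icc 1 A, MM W D z n * MM W' D' z (n + h) - A * ∑ q ∈ Icc 1 z, RR W D q * RR W' D' q * (cz q h : ℝ) : ℝ) : ℂ) =
      ∑ x ∈ PP z, ∑ y ∈ (PP z).erase x, (RR W D x.1 : ℂ) * (RR W' D' y.1 : ℂ) * ee (h * ((y.2 : ℝ) / y.1)) *
        ∑ n ∈ Icc 1 A, ee ((n : ℝ) * ((y.2 : ℝ) / y.1 - (x.2 : ℝ) / x.1)) := by
    rw [Complex.ofReal_sub, e2, e3, ← sum_sub_distrib]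
    apply sum_congr rfl
    intro x hx
    rw [← add_sum_erase _ _ hx, e4 x hx]
    ring
  have e6 : |∑ n ∈ Icc 1 A, MM W D z n * MM W' D' z (n + h) - A * ∑ q ∈ Icc 1 z, RR W D q * RR W' D' q * (cz q h : ℝ)| =
      ‖((∑ n ∈ Icc 1 A, MM W D z n * MM W' D' z (n + h) - A * ∑ q ∈ Icc 1 z, RR W D q * RR W' D' q * (cz q h : ℝ) : ℝ) : ℂ)‖ := by
    rw [Complex.norm_real, Real.norm_eq_abs]
  rw [e6, e5]
  have hz0 : (0 : ℝ) < z := by exact_mod_cast hz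
  have hmemq : ∀ x ∈ PP z, x.1 ∈ Icc 1 z := by
    intro x hx
    unfold PP at hx
    exact (mem_sigma.1 hx).1
  calc ‖∑ x ∈ PP z, ∑ y ∈ (PP z).erase x, (RR W D x.1 : ℂ) * (RR W' D' y.1 : ℂ) * ee (h * ((y.2 : ℝ) / y.1)) *
        ∑ n ∈ Icc 1 A, ee ((n : ℝ) * ((y.2 : ℝ) / y.1 - (x.2 : ℝ) / x.1))‖
      ≤ ∑ x ∈ PP z, ∑ y ∈ (PP z).erase x, ρ ^ 2 * (z : ℝ) ^ 2 := by
        refine (norm_sum_le _ _).trans (sum_le_sum fun x hx => ?_)
        refine (norm_sum_le _ _).trans (sum_le_sum fun y hy => ?_)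
        rw [mem_erase] at hy
        rw [norm_mul, norm_mul, norm_mul, norm_ee, mul_one, Complex.norm_real, Complex.norm_real, Real.norm_eq_abs, Real.norm_eq_abs]
        apply mul_le_mul _ (inner_small z A hz x y hx hy.2 (Ne.symm hy.1)) (norm_nonneg _) (by positivity)
        rw [pow_two]
        exact mul_le_mul (h1 _ (hmemq x hx)) (h2 _ (hmemq y hy.2)) (abs_nonneg _) hρ
    _ ≤ ∑ x ∈ PP z, ∑ y ∈ PP z, ρ ^ 2 * (z : ℝ) ^ 2 := by
        apply sum_le_sum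
        intro x _
        exact sum_le_sum_of_subset_of_nonneg (erase_subset _ _) (fun _ _ _ => by positivity)
    _ = (PP z).card * ((PP z).card * (ρ ^ 2 * (z : ℝ) ^ 2)) := by
        rw [sum_const, sum_const, nsmul_eq_mul, nsmul_eq_mul]
    _ ≤ (z : ℝ) ^ 2 * ((z : ℝ) ^ 2 * (ρ ^ 2 * (z : ℝ) ^ 2)) := by
        apply mul_le_mul (card_PP z) _ (by positivity) (by positivity)
        exact mul_le_mul_of_nonneg_right (card_PP z) (by positivity)
    _ = _ := by ring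

lemma abs_cz_le (q : ℕ) (hq : 1 ≤ q) (h : ℤ) : |(cz q h : ℝ)| ≤ q := by
  have h1 := norm_cr q h
  rw [cr_eq q h hq] at h1
  have : ‖((cz q h : ℤ) : ℂ)‖ = |(cz q h : ℝ)| := by
    rw [← Complex.ofReal_intCast, Complex.norm_real, Real.norm_eq_abs]
  rw [this] at h1
  exact h1

/-- mean squares -/
theorem l2_bounds (t : ℕ) : ∃ c1 : ℕ, ∀ E : ℕ, ∃ N₀ : ℕ, ∀ N : ℕ, N₀ ≤ N → ∀ z : ℕ, 1 ≤ z → (z : ℝ) ≤ Real.log N ^ E → ∀ D : ℕ, D ≤ N →
    ∀ W : ℕ → ℝ, (∀ d, 0 ≤ W d) → (∀ d, W d ≤ (t + 2) * dk (t + 1) d) →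
    ∑ n ∈ Icc 1 N, FF W D n ^ 2 ≤ N * Real.log N ^ c1 ∧ ∀ A : ℕ, A ≤ N → ∑ n ∈ Icc 1 A, MM W D z n ^ 2 ≤ N * Real.log N ^ c1 := by
  obtain ⟨m1, hm1⟩ : ∃ m1, m1 = 2 ^ (2 * t + 4) := ⟨_, rfl⟩
  obtain ⟨m2, hm2⟩ : ∃ m2, m2 = 2 * t + 2 + 2 ^ (2 * t + 2) := ⟨_, rfl⟩
  obtain ⟨n1, h1⟩ := ev_log (2 * ((t + 2) ^ 2 * 2 ^ (m1 + m2)) + 1)
  refine ⟨m1 + m2 + 1, fun E => ?_⟩
  obtain ⟨n2, h2⟩ := ev_pow ((2 * t + 6) * E + 2 * t + 2) ((t + 2) ^ 2 * 2 ^ (2 * t + 2)) 1 one_pos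
  refine ⟨n1 + n2 + 3, fun N hN z hz hzE D hD W hW0 hW => ?_⟩
  have a1 := h1 N (by omega)
  have a2 := h2 N (by omega)
  rw [Real.rpow_one] at a2
  have hN1 : 1 ≤ N := by omega
  have hN0 : (0 : ℝ) < N := by exact_mod_cast hN1
  obtain ⟨L, hL⟩ : ∃ L, L = Real.log (N : ℝ) := ⟨_, rfl⟩
  rw [← hL] at a1 a2 hzE ⊢
  have hP1 : (1 : ℝ) ≤ (t + 2) ^ 2 * 2 ^ (m1 + m2) := by
    have q1 : (1 : ℝ) ≤ (t + 2) ^ 2 := one_le_pow₀ (by linarith [(Nat.cast_nonneg t : (0 : ℝ) ≤ t)])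
    have q2 : (1 : ℝ) ≤ 2 ^ (m1 + m2) := one_le_pow₀ (by norm_num)
    nlinarith
  have hL1 : 1 ≤ L := by linarith
  have hL0 : 0 < L := by linarith
  have h1L : 1 + L ≤ 2 * L := by linarith
  have hpow : ∀ m : ℕ, (1 + L) ^ m ≤ 2 ^ m * L ^ m := by
    intro m
    rw [← mul_pow]
    exact pow_le_pow_left₀ (by positivity) h1L m
  constructor
  · have f1 : ∀ n ∈ Icc 1 N, FF W D n ^ 2 ≤ (t + 2) ^ 2 * (N * ((n.divisors.card : ℝ) ^ (2 * t + 4) / n)) := by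
      intro n hn
      rw [mem_Icc] at hn
      have hn0 : (0 : ℝ) < n := by exact_mod_cast hn.1
      have g1 : FF W D n ≤ (t + 2) * dk (t + 2) n := by
        unfold FF
        rw [dk_succ_apply]
        push_cast
        rw [mul_sum]
        refine (sum_le_sum fun d _ => hW d).trans ?_
        apply sum_le_sum_of_subset_of_nonneg
        · intro d hd
          rw [mem_filter] at hd
          rw [Nat.mem_divisors]
          exact ⟨hd.2, by omega⟩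
        · intro d _ _
          positivity
      have g2 : (dk (t + 2) n : ℝ) ≤ (n.divisors.card : ℝ) ^ (t + 2) := by exact_mod_cast dk_le_tau (t + 2) n
      have g3 : 0 ≤ FF W D n := sum_nonneg fun d _ => hW0 d
      have g4 : FF W D n ≤ (t + 2) * (n.divisors.card : ℝ) ^ (t + 2) := g1.trans (mul_le_mul_of_nonneg_left g2 (by positivity))
      calc FF W D n ^ 2 ≤ ((t + 2) * (n.divisors.card : ℝ) ^ (t + 2)) ^ 2 := pow_le_pow_left₀ g3 g4 2
        _ = (t + 2) ^ 2 * (n.divisors.card : ℝ) ^ (2 * t + 4) := by rw [mul_pow, ← pow_mul]; ring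
        _ ≤ _ := by
            apply mul_le_mul_of_nonneg_left _ (by positivity)
            rw [mul_div_assoc', le_div_iff₀ hn0, mul_comm]
            exact mul_le_mul_of_nonneg_right (by exact_mod_cast hn.2) (by positivity)
    refine (sum_le_sum f1).trans ?_
    rw [← mul_sum, ← mul_sum]
    have f2 := Pool.Agent.TH212.PL.tau_pow_div (2 * t + 4) N
    rw [← hL, ← hm1] at f2
    have f3 : (t + 2 : ℝ) ^ 2 * (N * ∑ n ∈ Icc 1 N, (n.divisors.card : ℝ) ^ (2 * t + 4) / n) ≤ (t + 2) ^ 2 * (N * (2 ^ m1 * L ^ m1)) := by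
      apply mul_le_mul_of_nonneg_left _ (by positivity)
      exact mul_le_mul_of_nonneg_left (f2.trans (hpow m1)) hN0.le
    refine f3.trans ?_
    have f4 : (t + 2 : ℝ) ^ 2 * 2 ^ m1 ≤ L := by
      have : (t + 2 : ℝ) ^ 2 * 2 ^ m1 ≤ (t + 2) ^ 2 * 2 ^ (m1 + m2) := by
        apply mul_le_mul_of_nonneg_left _ (by positivity)
        exact pow_le_pow_right₀ (by norm_num) (by omega)
      linarith
    calc (t + 2 : ℝ) ^ 2 * (N * (2 ^ m1 * L ^ m1)) = ((t + 2) ^ 2 * 2 ^ m1) * (N * L ^ m1) := by ring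
      _ ≤ L * (N * L ^ m1) := mul_le_mul_of_nonneg_right f4 (by positivity)
      _ = N * L ^ (m1 + 1) := by ring
      _ ≤ _ := by
          apply mul_le_mul_of_nonneg_left _ hN0.le
          exact pow_le_pow_right₀ hL1 (by omega)
  · intro A hA
    have hlD : Real.log D ≤ L := by
      rcases Nat.eq_zero_or_pos D with h | h
      · rw [h]; simp; linarith
      · rw [hL]; exact Real.log_le_log (by exact_mod_cast h) (by exact_mod_cast hD)
    have hlD0 : 0 ≤ Real.log D := Real.log_natCast_nonneg D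
    have hlD1 : (1 + Real.log D) ^ (t + 1) ≤ 2 ^ (t + 1) * L ^ (t + 1) :=
      (pow_le_pow_left₀ (by positivity) (by linarith) _).trans (hpow (t + 1))
    have hR : ∀ q ∈ Icc 1 z, 0 ≤ RR W D q ∧ RR W D q ≤ (t + 2) * ((dk (t + 1) q : ℝ) / q) * (2 ^ (t + 1) * L ^ (t + 1)) := by
      intro q hq
      rw [mem_Icc] at hq
      refine ⟨RR_nonneg W D q hW0, (RR_le W (t + 2) t D q hW (by positivity) hq.1).trans ?_⟩
      exact mul_le_mul_of_nonneg_left hlD1 (by positivity)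
    have hzN : (z : ℝ) ≤ N := by
      have q1 : L ^ E ≤ (t + 2) ^ 2 * 2 ^ (2 * t + 2) * L ^ ((2 * t + 6) * E + 2 * t + 2) := by
        have q2 : (1 : ℝ) ≤ (t + 2) ^ 2 * 2 ^ (2 * t + 2) := by
          have q3 : (1 : ℝ) ≤ (t + 2) ^ 2 := one_le_pow₀ (by linarith [(Nat.cast_nonneg t : (0 : ℝ) ≤ t)])
          have q4 : (1 : ℝ) ≤ 2 ^ (2 * t + 2) := one_le_pow₀ (by norm_num)
          nlinarith
        have q5 : L ^ E ≤ L ^ ((2 * t + 6) * E + 2 * t + 2) := pow_le_pow_right₀ hL1 (by nlinarith)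
        have q6 : 0 ≤ L ^ ((2 * t + 6) * E + 2 * t + 2) := by positivity
        nlinarith
      linarith
    have hτ : ∀ q : ℕ, (dk (t + 1) q : ℝ) ≤ (q.divisors.card : ℝ) ^ (t + 1) := fun q => by exact_mod_cast dk_le_tau (t + 1) q
    -- the size of the coefficients
    have hρ : ∀ q ∈ Icc 1 z, |RR W D q| ≤ (t + 2) * (2 ^ (t + 1) * L ^ (t + 1)) * (z : ℝ) ^ t := by
      intro q hq
      have hq' := mem_Icc.1 hq
      have hq0 : (0 : ℝ) < q := by exact_mod_cast hq'.1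
      rw [abs_of_nonneg (hR q hq).1]
      refine (hR q hq).2.trans ?_
      have g1 : (dk (t + 1) q : ℝ) / q ≤ (z : ℝ) ^ t := by
        rw [div_le_iff₀ hq0]
        have g2 : (dk (t + 1) q : ℝ) ≤ (q : ℝ) ^ (t + 1) := by
          refine (hτ q).trans (pow_le_pow_left₀ (Nat.cast_nonneg _) ?_ _)
          exact_mod_cast Nat.card_divisors_le_self q
        refine g2.trans ?_
        rw [pow_succ]
        apply mul_le_mul_of_nonneg_right _ hq0.le
        exact pow_le_pow_left₀ hq0.le (by exact_mod_cast hq'.2) _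
      calc (t + 2 : ℝ) * ((dk (t + 1) q : ℝ) / q) * (2 ^ (t + 1) * L ^ (t + 1)) ≤ (t + 2) * (z : ℝ) ^ t * (2 ^ (t + 1) * L ^ (t + 1)) := by
            apply mul_le_mul_of_nonneg_right _ (by positivity)
            exact mul_le_mul_of_nonneg_left g1 (by positivity)
        _ = _ := by ring
    have hz0 : (0 : ℝ) < z := by exact_mod_cast hz
    have key := model_corr W W D D z A hz 0 ((t + 2) * (2 ^ (t + 1) * L ^ (t + 1)) * (z : ℝ) ^ t) (by positivity) hρ hρ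
    simp only [add_zero] at key
    have e1 : ∑ n ∈ Icc 1 A, MM W D z n ^ 2 = ∑ n ∈ Icc 1 A, MM W D z n * MM W D z n := sum_congr rfl fun n _ => pow_two _
    rw [e1]
    have g1 := (abs_le.1 key).2
    have g2 : ∑ q ∈ Icc 1 z, RR W D q * RR W D q * (cz q 0 : ℝ) ≤ (t + 2) ^ 2 * (2 ^ m2 * L ^ m2) := by
      have g3 : ∀ q ∈ Icc 1 z, RR W D q * RR W D q * (cz q 0 : ℝ) ≤
          ((t + 2) * (2 ^ (t + 1) * L ^ (t + 1))) ^ 2 * ((q.divisors.card : ℝ) ^ (2 * t + 2) / q) := by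
        intro q hq
        have hq' := mem_Icc.1 hq
        have hq0 : (0 : ℝ) < q := by exact_mod_cast hq'.1
        obtain ⟨r1, r2⟩ := hR q hq
        have r3 : (cz q 0 : ℝ) ≤ q := (le_abs_self _).trans (abs_cz_le q hq'.1 0)
        have r4 : RR W D q * RR W D q ≤ ((t + 2) * ((dk (t + 1) q : ℝ) / q) * (2 ^ (t + 1) * L ^ (t + 1))) ^ 2 := by
          rw [pow_two]
          exact mul_le_mul r2 r2 r1 (by positivity)
        calc RR W D q * RR W D q * (cz q 0 : ℝ) ≤ RR W D q * RR W D q * q := mul_le_mul_of_nonneg_left r3 (mul_nonneg r1 r1)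
          _ ≤ ((t + 2) * ((dk (t + 1) q : ℝ) / q) * (2 ^ (t + 1) * L ^ (t + 1))) ^ 2 * q := mul_le_mul_of_nonneg_right r4 hq0.le
          _ = ((t + 2) * (2 ^ (t + 1) * L ^ (t + 1))) ^ 2 * ((dk (t + 1) q : ℝ) ^ 2 / q) := by
              field_simp
          _ ≤ ((t + 2) * (2 ^ (t + 1) * L ^ (t + 1))) ^ 2 * (((q.divisors.card : ℝ) ^ (t + 1)) ^ 2 / q) := by
              apply mul_le_mul_of_nonneg_left _ (by positivity)
              apply div_le_div_of_nonneg_right _ hq0.le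
              exact pow_le_pow_left₀ (Nat.cast_nonneg _) (hτ q) 2
          _ = _ := by
              rw [← pow_mul]
              congr 3
              ring
      refine (sum_le_sum g3).trans ?_
      rw [← mul_sum]
      have g4 := Pool.Agent.TH212.PL.tau_pow_div (2 * t + 2) z
      have g5 : (1 + Real.log z) ^ (2 ^ (2 * t + 2)) ≤ 2 ^ (2 ^ (2 * t + 2)) * L ^ (2 ^ (2 * t + 2)) := by
        refine le_trans (pow_le_pow_left₀ ?_ ?_ _) (hpow _)
        · have := Real.log_natCast_nonneg z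
          linarith
        · have : Real.log z ≤ L := by rw [hL]; exact Real.log_le_log hz0 hzN
          linarith
      refine (mul_le_mul_of_nonneg_left (g4.trans g5) (by positivity)).trans (le_of_eq ?_)
      rw [hm2, pow_add (2 : ℝ), pow_add L]
      ring
    have hA0 : (0 : ℝ) ≤ A := Nat.cast_nonneg _
    have hAN : (A : ℝ) ≤ N := by exact_mod_cast hA
    have g3 : (A : ℝ) * ∑ q ∈ Icc 1 z, RR W D q * RR W D q * (cz q 0 : ℝ) ≤ N * ((t + 2) ^ 2 * (2 ^ m2 * L ^ m2)) :=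
      (mul_le_mul_of_nonneg_left g2 hA0).trans (mul_le_mul_of_nonneg_right hAN (by positivity))
    have g4 : (z : ℝ) ^ 6 * ((t + 2) * (2 ^ (t + 1) * L ^ (t + 1)) * (z : ℝ) ^ t) ^ 2 ≤ N := by
      refine le_trans ?_ a2
      have q1 : (z : ℝ) ^ (2 * t + 6) ≤ L ^ ((2 * t + 6) * E) := by
        rw [show (2 * t + 6) * E = E * (2 * t + 6) by ring, pow_mul]
        exact pow_le_pow_left₀ hz0.le hzE _
      calc (z : ℝ) ^ 6 * ((t + 2) * (2 ^ (t + 1) * L ^ (t + 1)) * (z : ℝ) ^ t) ^ 2 =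
            (t + 2) ^ 2 * 2 ^ (2 * t + 2) * (L ^ (2 * t + 2) * (z : ℝ) ^ (2 * t + 6)) := by ring
        _ ≤ (t + 2) ^ 2 * 2 ^ (2 * t + 2) * (L ^ (2 * t + 2) * L ^ ((2 * t + 6) * E)) := by
            apply mul_le_mul_of_nonneg_left _ (by positivity)
            exact mul_le_mul_of_nonneg_left q1 (by positivity)
        _ = _ := by rw [← pow_add]; congr 2; ring
    have g5 : (t + 2 : ℝ) ^ 2 * 2 ^ m2 + 1 ≤ L := by
      have : (t + 2 : ℝ) ^ 2 * 2 ^ m2 ≤ (t + 2) ^ 2 * 2 ^ (m1 + m2) := by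
        apply mul_le_mul_of_nonneg_left _ (by positivity)
        exact pow_le_pow_right₀ (by norm_num) (by omega)
      linarith
    have g6 : 1 ≤ L ^ m2 := one_le_pow₀ hL1
    calc ∑ n ∈ Icc 1 A, MM W D z n * MM W D z n ≤ N * ((t + 2) ^ 2 * (2 ^ m2 * L ^ m2)) + N := by linarith
      _ ≤ N * (((t + 2) ^ 2 * 2 ^ m2 + 1) * L ^ m2) := by nlinarith
      _ ≤ N * (L * L ^ m2) := by
          apply mul_le_mul_of_nonneg_left _ hN0.le
          exact mul_le_mul_of_nonneg_right g5 (by positivity)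
      _ = N * L ^ (m2 + 1) := by ring
      _ ≤ _ := by
          apply mul_le_mul_of_nonneg_left _ hN0.le
          exact pow_le_pow_right₀ hL1 (by omega)

end Pool.Agent.TH212.DV
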