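import Pool.Agent.TH212.DV.C12

set_option autoImplicit false

/-! The main term. -/

namespace Pool.Agent.TH212.DV
open Finset

/-- comparison of the series of squares -/
lemma series_cmp (t : ℕ) : ∃ Cs : ℝ, 0 ≤ Cs ∧ ∀ H : ℕ, 1 ≤ H → ∀ K z : ℕ, 1 ≤ K → K ≤ z → ∀ (a : ℕ → ℝ) (A δ Λ f : ℝ), 0 ≤ A → 0 ≤ δ → 0 ≤ Λ → 0 ≤ f → f ≤ Λ →
    (∀ q ∈ Icc 1 z, 0 ≤ a q) → (∀ q ∈ Icc 1 z, a q ≤ A * ((dk (t + 1) q : ℝ) / q) * Λ) →
    (∀ q ∈ Icc 1 K, |a q - kap (t + 1) q * f| ≤ δ * ((dk (t + 1) q : ℝ) / q) * Λ) →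
    |∑ q ∈ Icc 1 z, a q * a q * (cz q (H : ℤ) : ℝ) - Sing (t + 1) H * f ^ 2| ≤
      Cs * (δ * (A + 1) + (A ^ 2 + 1) * (K : ℝ) ^ (-(1 / 4) : ℝ)) * (sg H * Λ ^ 2) := by
  obtain ⟨C1, hC1, h1⟩ := cz_sums t
  obtain ⟨C2, hC2, h2⟩ := sing_tail t
  refine ⟨C1 + C2, by positivity, fun H hH K z hK hKz a A δ Λ f hA hδ hΛ hf hfΛ ha0 haA haK => ?_⟩
  obtain ⟨e, he⟩ : ∃ e : ℕ → ℝ, e = fun q => (dk (t + 1) q : ℝ) / q := ⟨_, rfl⟩
  have he0 : ∀ q, 0 ≤ e q := by intro q; rw [he]; positivity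
  have hκ : ∀ q, 1 ≤ q → kap (t + 1) q ≤ e q := by intro q hq; rw [he]; exact kap_le (t + 1) q hq
  have hκ0 : ∀ q, 0 ≤ kap (t + 1) q := fun q => kap_nonneg _ _
  obtain ⟨κ, hκd⟩ : ∃ κ : ℝ, κ = (K : ℝ) ^ (-(1 / 4) : ℝ) := ⟨_, rfl⟩
  have hκn : 0 ≤ κ := by rw [hκd]; positivity
  have hsg := sg_nonneg H
  have hsplit : ∑ q ∈ Icc 1 z, a q * a q * (cz q (H : ℤ) : ℝ) = ∑ q ∈ Icc 1 K, a q * a q * (cz q (H : ℤ) : ℝ) + ∑ q ∈ Ioc K z, a q * a q * (cz q (H : ℤ) : ℝ) := by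
    have h3 : Icc 1 z = Icc 1 K ∪ Ioc K z := by
      ext q
      rw [mem_union, mem_Icc, mem_Icc, mem_Ioc]
      omega
    have h4 : Disjoint (Icc 1 K) (Ioc K z) := by
      rw [disjoint_left]
      intro q hq hq'
      rw [mem_Icc] at hq
      rw [mem_Ioc] at hq'
      omega
    rw [h3, sum_union h4]
  have p1 : |∑ q ∈ Icc 1 K, a q * a q * (cz q (H : ℤ) : ℝ) - ∑ q ∈ Icc 1 K, (kap (t + 1) q ^ 2 * (cz q (H : ℤ) : ℝ)) * f ^ 2| ≤
      δ * (A + 1) * Λ ^ 2 * (C1 * sg H) := by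
    rw [← sum_sub_distrib]
    refine (abs_sum_le_sum_abs _ _).trans ?_
    have h5 : ∀ q ∈ Icc 1 K, |a q * a q * (cz q (H : ℤ) : ℝ) - (kap (t + 1) q ^ 2 * (cz q (H : ℤ) : ℝ)) * f ^ 2| ≤
        δ * (A + 1) * Λ ^ 2 * (e q ^ 2 * |(cz q (H : ℤ) : ℝ)|) := by
      intro q hq
      have hq' := mem_Icc.1 hq
      have hqz : q ∈ Icc 1 z := mem_Icc.2 ⟨hq'.1, hq'.2.trans hKz⟩
      have e1 : a q * a q * (cz q (H : ℤ) : ℝ) - (kap (t + 1) q ^ 2 * (cz q (H : ℤ) : ℝ)) * f ^ 2 =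
          (a q - kap (t + 1) q * f) * (a q + kap (t + 1) q * f) * (cz q (H : ℤ) : ℝ) := by ring
      rw [e1, abs_mul, abs_mul]
      have h6 := haK q hq
      have h7 : |a q + kap (t + 1) q * f| ≤ (A + 1) * (e q * Λ) := by
        rw [abs_of_nonneg (add_nonneg (ha0 q hqz) (mul_nonneg (hκ0 q) hf))]
        have h8 := haA q hqz
        have h9 : kap (t + 1) q * f ≤ e q * Λ := mul_le_mul (hκ q hq'.1) hfΛ hf (he0 q)
        have h8' : a q ≤ A * e q * Λ := by rw [he]; exact h8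
        nlinarith
      have h6' : |a q - kap (t + 1) q * f| ≤ δ * e q * Λ := by rw [he]; exact h6
      have h10 : |a q - kap (t + 1) q * f| * |a q + kap (t + 1) q * f| ≤ (δ * e q * Λ) * ((A + 1) * (e q * Λ)) :=
        mul_le_mul h6' h7 (abs_nonneg _) (by have := he0 q; positivity)
      calc _ ≤ (δ * e q * Λ) * ((A + 1) * (e q * Λ)) * |(cz q (H : ℤ) : ℝ)| := mul_le_mul_of_nonneg_right h10 (abs_nonneg _)
        _ = _ := by ring
    refine (sum_le_sum h5).trans ?_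
    rw [← mul_sum]
    apply mul_le_mul_of_nonneg_left _ (by positivity)
    rw [he]
    exact (h1 H hH K).1
  have p2 : |∑ q ∈ Ioc K z, a q * a q * (cz q (H : ℤ) : ℝ)| ≤ A ^ 2 * Λ ^ 2 * (C1 * κ * sg H) := by
    refine (abs_sum_le_sum_abs _ _).trans ?_
    have h5 : ∀ q ∈ Ioc K z, |a q * a q * (cz q (H : ℤ) : ℝ)| ≤ A ^ 2 * Λ ^ 2 * (e q ^ 2 * |(cz q (H : ℤ) : ℝ)|) := by
      intro q hq
      have hq' := mem_Ioc.1 hq
      have hqz : q ∈ Icc 1 z := mem_Icc.2 ⟨by omega, hq'.2⟩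
      have h8 := haA q hqz
      have h8' : a q ≤ A * e q * Λ := by rw [he]; exact h8
      rw [abs_mul, abs_of_nonneg (mul_nonneg (ha0 q hqz) (ha0 q hqz))]
      have h9 : a q * a q ≤ (A * e q * Λ) * (A * e q * Λ) := mul_le_mul h8' h8' (ha0 q hqz) (by have := he0 q; positivity)
      calc _ ≤ (A * e q * Λ) * (A * e q * Λ) * |(cz q (H : ℤ) : ℝ)| := mul_le_mul_of_nonneg_right h9 (abs_nonneg _)
        _ = _ := by ring
    refine (sum_le_sum h5).trans ?_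
    rw [← mul_sum]
    apply mul_le_mul_of_nonneg_left _ (by positivity)
    rw [he, hκd]
    exact (h1 H hH z).2 K hK
  have p3 : |∑ q ∈ Icc 1 K, (kap (t + 1) q ^ 2 * (cz q (H : ℤ) : ℝ)) * f ^ 2 - Sing (t + 1) H * f ^ 2| ≤ C2 * κ * sg H * Λ ^ 2 := by
    rw [← sum_mul, ← sub_mul, abs_mul, abs_of_nonneg (by positivity : 0 ≤ f ^ 2)]
    have h3 := h2 H hH K hK
    rw [← hκd] at h3
    exact mul_le_mul h3 (pow_le_pow_left₀ hf hfΛ 2) (by positivity) (by positivity)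
  rw [hsplit, ← hκd]
  have q1 := abs_add_le (∑ q ∈ Icc 1 K, a q * a q * (cz q (H : ℤ) : ℝ) - ∑ q ∈ Icc 1 K, (kap (t + 1) q ^ 2 * (cz q (H : ℤ) : ℝ)) * f ^ 2)
    (∑ q ∈ Ioc K z, a q * a q * (cz q (H : ℤ) : ℝ))
  have q2 := abs_add_le (∑ q ∈ Icc 1 K, a q * a q * (cz q (H : ℤ) : ℝ) - ∑ q ∈ Icc 1 K, (kap (t + 1) q ^ 2 * (cz q (H : ℤ) : ℝ)) * f ^ 2 +
    ∑ q ∈ Ioc K z, a q * a q * (cz q (H : ℤ) : ℝ)) (∑ q ∈ Icc 1 K, (kap (t + 1) q ^ 2 * (cz q (H : ℤ) : ℝ)) * f ^ 2 - Sing (t + 1) H * f ^ 2)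
  have e3 : ∑ q ∈ Icc 1 K, a q * a q * (cz q (H : ℤ) : ℝ) + ∑ q ∈ Ioc K z, a q * a q * (cz q (H : ℤ) : ℝ) - Sing (t + 1) H * f ^ 2 =
      (∑ q ∈ Icc 1 K, a q * a q * (cz q (H : ℤ) : ℝ) - ∑ q ∈ Icc 1 K, (kap (t + 1) q ^ 2 * (cz q (H : ℤ) : ℝ)) * f ^ 2 +
    ∑ q ∈ Ioc K z, a q * a q * (cz q (H : ℤ) : ℝ)) + (∑ q ∈ Icc 1 K, (kap (t + 1) q ^ 2 * (cz q (H : ℤ) : ℝ)) * f ^ 2 - Sing (t + 1) H * f ^ 2) := by ring
  rw [e3]
  have r1 : 0 ≤ C1 * κ * sg H * Λ ^ 2 := by positivity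
  have r2 : 0 ≤ δ * (A + 1) * (sg H * Λ ^ 2) * C2 := by positivity
  have r3 : 0 ≤ A ^ 2 * κ * (sg H * Λ ^ 2) * C2 := by positivity
  calc _ ≤ δ * (A + 1) * Λ ^ 2 * (C1 * sg H) + A ^ 2 * Λ ^ 2 * (C1 * κ * sg H) + C2 * κ * sg H * Λ ^ 2 := by linarith
    _ ≤ _ := by nlinarith

/-- the coefficients -/
theorem RR_main (t k K : ℕ) (hk : 2 ≤ k) : ∃ N₀ : ℕ, ∀ N : ℕ, N₀ ≤ N → ∀ q ∈ Icc 1 K,
    |RR (WL t) (N / yk k N) q - kap (t + 1) q * (Real.log N ^ (t + 1) / ((t + 1).factorial : ℕ))| ≤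
      (3 + (t + 1) * 2 ^ (t + 1)) / k * ((dk (t + 1) q : ℝ) / q) * Real.log N ^ (t + 1) ∧
    |RR (WU (yk k N) t) (N / yk k N) q - kap (t + 1) q * (Real.log N ^ (t + 1) / ((t + 1).factorial : ℕ))| ≤
      (3 + (t + 1) * 2 ^ (t + 1)) / k * ((dk (t + 1) q : ℝ) / q) * Real.log N ^ (t + 1) := by
  have hk0 : (0 : ℝ) < k := by exact_mod_cast (by omega : 0 < k)
  have hk2 : (2 : ℝ) ≤ k := by exact_mod_cast hk
  choose! C hC0 hC using RR_asymp t
  obtain ⟨C', hC'⟩ : ∃ C', C' = ∑ d ∈ Icc 1 K, C d := ⟨_, rfl⟩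
  have hC'0 : 0 ≤ C' := by rw [hC']; exact sum_nonneg fun d hd => hC0 d (mem_Icc.1 hd).1
  obtain ⟨n1, h1⟩ := ev_log (2 * k + 2 + k * K * (C' * 2 ^ t))
  refine ⟨n1 + 1, fun N hN q hq => ?_⟩
  have a1 := h1 N (by omega)
  have hN1 : 1 ≤ N := by omega
  obtain ⟨L, hL⟩ : ∃ L, L = Real.log N := ⟨_, rfl⟩
  rw [← hL] at a1 ⊢
  have a2 : 0 ≤ k * K * (C' * 2 ^ t) := by positivity
  have hL2 : 2 * k + 2 ≤ L := by linarith
  have hL0 : 0 < L := by linarith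
  have hq' := mem_Icc.1 hq
  have hq0 : (0 : ℝ) < q := by exact_mod_cast hq'.1
  have hCq : C q ≤ C' := by rw [hC']; exact single_le_sum (f := C) (fun d hd => hC0 d (mem_Icc.1 hd).1) hq
  obtain ⟨D, hD⟩ : ∃ D, D = N / yk k N := ⟨_, rfl⟩
  rw [← hD]
  have hN0 : (0 : ℝ) < N := by exact_mod_cast hN1
  have hD1 : (D : ℝ) ≤ N := by rw [hD]; exact_mod_cast Nat.div_le_self _ _
  have hD2 : (N : ℝ) ^ (1 - (1 : ℝ) / k) ≤ 2 * ((D : ℝ) + 1) := by rw [hD]; exact D_ge k N hN1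
  have hp : Real.exp (L / 2) ≤ (N : ℝ) ^ (1 - (1 : ℝ) / k) := by
    rw [Real.rpow_def_of_pos hN0, ← hL]
    apply Real.exp_le_exp.2
    have : (1 : ℝ) / k ≤ 1 / 2 := by rw [div_le_div_iff₀ hk0 (by norm_num)]; linarith
    nlinarith
  have hD3 : (1 : ℝ) ≤ D := by
    have h2 : L / 2 + 1 ≤ Real.exp (L / 2) := Real.add_one_le_exp _
    nlinarith
  have hlD : (1 - 1 / k) * L - 2 ≤ Real.log D := by
    have h2 : (N : ℝ) ^ (1 - (1 : ℝ) / k) ≤ 4 * D := by linarith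
    have h3 := Real.log_le_log (by positivity) h2
    rw [Real.log_rpow hN0, Real.log_mul (by norm_num) (by linarith), ← hL] at h3
    have h4 : Real.log 4 ≤ 2 := by
      have : Real.log 4 = 2 * Real.log 2 := by
        rw [show (4 : ℝ) = 2 ^ 2 by norm_num, Real.log_pow]; norm_num
      rw [this]
      have := Real.log_two_lt_d9
      linarith
    linarith
  have hlD0 : 0 ≤ Real.log D := Real.log_nonneg hD3
  have hlDL : Real.log D ≤ L := by rw [hL]; exact Real.log_le_log (by linarith) hD1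
  have hgap : L - Real.log D ≤ 2 / k * L := by
    have h2 : 2 ≤ L / k := by rw [le_div_iff₀ hk0]; linarith
    have h3 : (1 - 1 / (k : ℝ)) * L = L - L / k := by ring
    have h4 : 2 / (k : ℝ) * L = 2 * (L / k) := by ring
    linarith
  obtain ⟨F, hF⟩ : ∃ F : ℝ, F = (((t + 1).factorial : ℕ) : ℝ) := ⟨_, rfl⟩
  have hFt : ((t : ℝ) + 1) ≤ F := by
    rw [hF]
    have : t + 1 ≤ (t + 1).factorial := Nat.self_le_factorial _
    exact_mod_cast this
  have hF0 : 0 < F := by have : (0 : ℝ) ≤ t := Nat.cast_nonneg t; linarith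
  rw [← hF]
  obtain ⟨e, he⟩ : ∃ e, e = (dk (t + 1) q : ℝ) / q := ⟨_, rfl⟩
  have he0 : 0 ≤ e := by rw [he]; positivity
  have heq : 1 / (q : ℝ) ≤ e := by
    rw [he]
    apply div_le_div_of_nonneg_right _ hq0.le
    have : 1 ≤ dk (t + 1) q := by
      rw [dk_succ_apply]
      have h2 : (1 : ℕ) ∈ q.divisors := by rw [Nat.mem_divisors]; exact ⟨one_dvd _, by omega⟩
      refine le_trans ?_ (single_le_sum (f := fun d => dk t d) (fun _ _ => Nat.zero_le _) h2)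
      have : ∀ s, dk s 1 = 1 := by
        intro s
        induction s with
        | zero => rw [dk_zero, if_pos rfl]
        | succ s ih => rw [dk_succ_apply, Nat.divisors_one, sum_singleton, ih]
      rw [this]
    exact_mod_cast this
  rw [← he]
  have hκ0 := kap_nonneg (t + 1) q
  have hκe : kap (t + 1) q ≤ e := by rw [he]; exact kap_le (t + 1) q hq'.1
  have m1 : |RR (WL t) D q - kap (t + 1) q * (Real.log D ^ (t + 1) / F)| ≤ 1 / k * e * L ^ (t + 1) := by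
    have h2 := hC q hq'.1 D hD3
    rw [Nat.floor_natCast, ← hF] at h2
    refine h2.trans ?_
    have h3 : (1 + Real.log D) ^ t ≤ (2 * L) ^ t := pow_le_pow_left₀ (by linarith) (by linarith) _
    have hqK : (q : ℝ) ≤ K := by exact_mod_cast hq'.2
    have h4 : C' * 2 ^ t ≤ 1 / k * e * L := by
      have h5 : k * K * (C' * 2 ^ t) ≤ L := by linarith
      have h6 : k * q * (C' * 2 ^ t) ≤ L := by
        refine le_trans ?_ h5
        have : 0 ≤ C' * 2 ^ t := by positivity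
        apply mul_le_mul_of_nonneg_right _ this
        exact mul_le_mul_of_nonneg_left hqK hk0.le
      have h7 : C' * 2 ^ t ≤ 1 / k * (1 / q) * L := by
        have e1 : 1 / (k : ℝ) * (1 / q) * L = L / (k * q) := by field_simp
        rw [e1, le_div_iff₀ (by positivity)]
        linarith
      refine h7.trans ?_
      apply mul_le_mul_of_nonneg_right _ hL0.le
      exact mul_le_mul_of_nonneg_left heq (by positivity)
    calc C q * (1 + Real.log D) ^ t ≤ C' * (2 * L) ^ t := mul_le_mul hCq h3 (by positivity) hC'0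
      _ = C' * 2 ^ t * L ^ t := by rw [mul_pow]; ring
      _ ≤ 1 / k * e * L * L ^ t := mul_le_mul_of_nonneg_right h4 (by positivity)
      _ = _ := by ring
  have m2 : |kap (t + 1) q * (Real.log D ^ (t + 1) / F) - kap (t + 1) q * (L ^ (t + 1) / F)| ≤ 2 / k * e * L ^ (t + 1) := by
    rw [← mul_sub, ← sub_div, abs_mul, abs_of_nonneg hκ0, abs_div, abs_of_pos hF0, abs_sub_comm]
    have h2 := (pow_diff L (Real.log D) hlD0 hlDL t).2
    have h3 : Real.log D ^ (t + 1) ≤ L ^ (t + 1) := pow_le_pow_left₀ hlD0 hlDL _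
    rw [abs_of_nonneg (by linarith)]
    have h4 : (L ^ (t + 1) - Real.log D ^ (t + 1)) / F ≤ 2 / k * L ^ (t + 1) := by
      rw [div_le_iff₀ hF0]
      refine h2.trans ?_
      have h5 : L ^ t * (L - Real.log D) ≤ L ^ t * (2 / k * L) := mul_le_mul_of_nonneg_left hgap (by positivity)
      calc ((t : ℝ) + 1) * (L ^ t * (L - Real.log D)) ≤ F * (L ^ t * (2 / k * L)) :=
            mul_le_mul hFt h5 (mul_nonneg (by positivity) (by linarith)) hF0.le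
        _ = _ := by ring
    calc kap (t + 1) q * ((L ^ (t + 1) - Real.log D ^ (t + 1)) / F) ≤ e * (2 / k * L ^ (t + 1)) :=
          mul_le_mul hκe h4 (div_nonneg (by linarith) hF0.le) he0
      _ = _ := by ring
  have m3 : |RR (WL t) D q - kap (t + 1) q * (L ^ (t + 1) / F)| ≤ 3 / k * e * L ^ (t + 1) := by
    have := abs_sub_le (RR (WL t) D q) (kap (t + 1) q * (Real.log D ^ (t + 1) / F)) (kap (t + 1) q * (L ^ (t + 1) / F))
    have e1 : 3 / (k : ℝ) * e * L ^ (t + 1) = 1 / k * e * L ^ (t + 1) + 2 / k * e * L ^ (t + 1) := by ring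
    linarith
  have hpos : 0 ≤ ((t : ℝ) + 1) * 2 ^ (t + 1) / k * e * L ^ (t + 1) := by positivity
  have e4 : (3 + ((t : ℝ) + 1) * 2 ^ (t + 1)) / k * e * L ^ (t + 1) = 3 / k * e * L ^ (t + 1) + ((t : ℝ) + 1) * 2 ^ (t + 1) / k * e * L ^ (t + 1) := by ring
  refine ⟨by linarith, ?_⟩
  have m4 : |RR (WU (yk k N) t) D q - RR (WL t) D q| ≤ ((t : ℝ) + 1) * 2 ^ (t + 1) / k * e * L ^ (t + 1) := by
    have h2 := RR_diff (yk k N) t D q (yk_pos k N hN1) hq'.1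
    have h3 : RR (WL t) D q ≤ RR (WU (yk k N) t) D q := by
      unfold RR
      apply sum_le_sum
      intro d _
      apply div_le_div_of_nonneg_right _ (Nat.cast_nonneg _)
      unfold WL WU
      have : (0 : ℝ) ≤ ((t : ℝ) + 1) * uu (yk k N) t d := by positivity
      linarith
    rw [abs_of_nonneg (by linarith)]
    rw [← he] at h2
    have hy := yk_le k N hN1
    have hyp : (1 : ℝ) ≤ yk k N := by exact_mod_cast yk_pos k N hN1
    have h4 : Real.log (yk k N) ≤ 1 + L / k := by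
      have h5 := Real.log_le_log (by linarith) hy
      rw [Real.log_mul (by norm_num) (by positivity), Real.log_rpow hN0, ← hL] at h5
      have := Real.log_two_lt_d9
      have e5 : 1 / (k : ℝ) * L = L / k := by ring
      linarith
    have h6 : 1 + Real.log (yk k N) ≤ 2 * (L / k) := by
      have h2 : 2 ≤ L / k := by rw [le_div_iff₀ hk0]; linarith
      linarith
    have h7 : (1 + Real.log D) ^ t ≤ (2 * L) ^ t := pow_le_pow_left₀ (by linarith) (by linarith) _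
    have h8 : (1 + Real.log (yk k N)) * (1 + Real.log D) ^ t ≤ (2 * (L / k)) * (2 * L) ^ t :=
      mul_le_mul h6 h7 (by positivity) (by positivity)
    have h9 : ((t : ℝ) + 1) * e * ((1 + Real.log (yk k N)) * (1 + Real.log D) ^ t) ≤ ((t : ℝ) + 1) * e * ((2 * (L / k)) * (2 * L) ^ t) :=
      mul_le_mul_of_nonneg_left h8 (by positivity)
    have e6 : ((t : ℝ) + 1) * e * ((2 * (L / k)) * (2 * L) ^ t) = ((t : ℝ) + 1) * 2 ^ (t + 1) / k * e * L ^ (t + 1) := by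
      rw [mul_pow]; ring
    linarith
  have := abs_sub_le (RR (WU (yk k N) t) D q) (RR (WL t) D q) (kap (t + 1) q * (L ^ (t + 1) / F))
  linarith

end Pool.Agent.TH212.DV
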