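import Pool.Agent.TH212.DV.C5
import Pool.Agent.H353R2.Z2

set_option autoImplicit false

/-! The exponential sums of the differences. -/

namespace Pool.Agent.TH212.DV
open Finset
open Pool.Agent.H807R2.Dav

lemma ev_pow (m : ℕ) (c θ : ℝ) (hθ : 0 < θ) : ∃ N₀ : ℕ, ∀ N : ℕ, N₀ ≤ N → c * Real.log N ^ m ≤ (N : ℝ) ^ θ := by
  have h := (isLittleO_log_rpow_rpow_atTop (m : ℝ) hθ).bound (c := 1 / (|c| + 1)) (by positivity)
  rw [Filter.eventually_atTop] at h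
  obtain ⟨a, ha⟩ := h
  refine ⟨max ⌈a⌉₊ 1, fun N hN => ?_⟩
  have hN1 : 1 ≤ N := (le_max_right _ _).trans hN
  have haN : a ≤ N := (Nat.le_ceil a).trans (by exact_mod_cast (le_max_left _ _).trans hN)
  have h2 := ha N haN
  have hl : 0 ≤ Real.log N := Real.log_natCast_nonneg N
  rw [Real.rpow_natCast, Real.norm_of_nonneg (pow_nonneg hl m), Real.norm_of_nonneg (by positivity)] at h2
  have h3 : c * Real.log N ^ m ≤ (|c| + 1) * Real.log N ^ m := by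
    apply mul_le_mul_of_nonneg_right _ (pow_nonneg hl m)
    linarith [le_abs_self c]
  refine h3.trans ?_
  calc (|c| + 1) * Real.log N ^ m ≤ (|c| + 1) * (1 / (|c| + 1) * (N : ℝ) ^ θ) := mul_le_mul_of_nonneg_left h2 (by positivity)
    _ = _ := by field_simp

lemma ev_log (c : ℝ) : ∃ N₀ : ℕ, ∀ N : ℕ, N₀ ≤ N → c ≤ Real.log N := by
  refine ⟨⌈Real.exp c⌉₊, fun N hN => ?_⟩
  have h1 : Real.exp c ≤ N := (Nat.le_ceil _).trans (by exact_mod_cast hN)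
  rw [Real.le_log_iff_exp_le (lt_of_lt_of_le (Real.exp_pos c) h1)]
  exact h1

lemma dk_eps (s : ℕ) (η : ℝ) (hη : 0 < η) : ∃ C : ℝ, 1 ≤ C ∧ ∀ q : ℕ, 1 ≤ q → (dk s q : ℝ) ≤ C * (q : ℝ) ^ η := by
  obtain ⟨C, hC, h⟩ := H353.divisor_bound_real (η / (s + 1)) (by positivity)
  refine ⟨max (C ^ s) 1, le_max_right _ _, fun q hq => ?_⟩
  have hq1 : (1 : ℝ) ≤ q := by exact_mod_cast hq
  have h1 : (dk s q : ℝ) ≤ (q.divisors.card : ℝ) ^ s := by exact_mod_cast dk_le_tau s q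
  have h2 : (q.divisors.card : ℝ) ^ s ≤ (C * (q : ℝ) ^ (η / (s + 1))) ^ s := pow_le_pow_left₀ (Nat.cast_nonneg _) (h q (by omega)) s
  have h3 : (C * (q : ℝ) ^ (η / (s + 1))) ^ s = C ^ s * (q : ℝ) ^ (η / (s + 1) * s) := by
    rw [mul_pow, ← Real.rpow_natCast ((q : ℝ) ^ (η / (s + 1))), ← Real.rpow_mul (by linarith)]
  have h4 : (q : ℝ) ^ (η / (s + 1) * s) ≤ (q : ℝ) ^ η := by
    apply Real.rpow_le_rpow_of_exponent_le hq1
    have hs : (0 : ℝ) ≤ s := Nat.cast_nonneg _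
    rw [div_mul_eq_mul_div, div_le_iff₀ (by positivity)]
    nlinarith
  calc (dk s q : ℝ) ≤ C ^ s * (q : ℝ) ^ (η / (s + 1) * s) := by rw [← h3]; exact h1.trans h2
    _ ≤ C ^ s * (q : ℝ) ^ η := mul_le_mul_of_nonneg_left h4 (by positivity)
    _ ≤ _ := mul_le_mul_of_nonneg_right (le_max_left _ _) (by positivity)

/-- `N ^ (1 / k)` -/
noncomputable def yk (k N : ℕ) : ℕ := ⌈(N : ℝ) ^ ((1 : ℝ) / k)⌉₊

lemma yk_pos (k N : ℕ) (hN : 1 ≤ N) : 1 ≤ yk k N := by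
  unfold yk
  apply Nat.ceil_pos.2
  have : (0 : ℝ) < N := by exact_mod_cast hN
  positivity

lemma D_le (k N : ℕ) (hN : 1 ≤ N) : ((N / yk k N : ℕ) : ℝ) ≤ (N : ℝ) ^ (1 - (1 : ℝ) / k) := by
  have hN0 : (0 : ℝ) < N := by exact_mod_cast hN
  have h1 : (N : ℝ) ^ ((1 : ℝ) / k) ≤ yk k N := Nat.le_ceil _
  have h2 : 0 < (N : ℝ) ^ ((1 : ℝ) / k) := Real.rpow_pos_of_pos hN0 _
  calc ((N / yk k N : ℕ) : ℝ) ≤ (N : ℝ) / (yk k N : ℝ) := Nat.cast_div_le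
    _ ≤ N / (N : ℝ) ^ ((1 : ℝ) / k) := div_le_div_of_nonneg_left hN0.le h2 h1
    _ = _ := by rw [Real.rpow_sub hN0, Real.rpow_one]

lemma yk_le (k N : ℕ) (hN : 1 ≤ N) : (yk k N : ℝ) ≤ 2 * (N : ℝ) ^ ((1 : ℝ) / k) := by
  have hN1 : (1 : ℝ) ≤ N := by exact_mod_cast hN
  have h1 : (1 : ℝ) ≤ (N : ℝ) ^ ((1 : ℝ) / k) := Real.one_le_rpow hN1 (by positivity)
  have h2 : (yk k N : ℝ) < (N : ℝ) ^ ((1 : ℝ) / k) + 1 := Nat.ceil_lt_add_one (by positivity)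
  linarith

lemma D_ge (k N : ℕ) (hN : 1 ≤ N) : (N : ℝ) ^ (1 - (1 : ℝ) / k) ≤ 2 * (((N / yk k N : ℕ) : ℝ) + 1) := by
  have hN0 : (0 : ℝ) < N := by exact_mod_cast hN
  have h2 : 0 < (N : ℝ) ^ ((1 : ℝ) / k) := Real.rpow_pos_of_pos hN0 _
  have hy : (0 : ℝ) < yk k N := by exact_mod_cast yk_pos k N hN
  rw [Real.rpow_sub hN0, Real.rpow_one, div_le_iff₀ h2]
  have h3 : N < (N / yk k N + 1) * yk k N := by
    have := Nat.lt_div_mul_add (a := N) (b := yk k N) (yk_pos k N hN)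
    rw [add_mul, one_mul]
    exact this
  have h4 : (N : ℝ) < (((N / yk k N : ℕ) : ℝ) + 1) * yk k N := by exact_mod_cast h3
  have h5 := yk_le k N hN
  have h6 : (0 : ℝ) ≤ ((N / yk k N : ℕ) : ℝ) + 1 := by positivity
  nlinarith

theorem sup_small (t k U : ℕ) (hk : 2 ≤ k) : ∃ B0 : ℕ, ∀ E : ℕ, ∃ N₀ : ℕ, ∀ N : ℕ, N₀ ≤ N → ∀ z : ℕ, Real.log N ^ B0 ≤ z →
    (z : ℝ) ≤ Real.log N ^ E → ∀ W : ℕ → ℝ, (∀ d, 0 ≤ W d) → (∀ d, W d ≤ (t + 2) * dk (t + 1) d) → ∀ H : ℕ, H ≤ N → ∀ α : ℝ,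
    ‖∑ n ∈ Icc 1 H, ((FF W (N / yk k N) n - MM W (N / yk k N) z n : ℝ) : ℂ) * ee ((n : ℝ) * α)‖ ≤ N / Real.log N ^ U := by
  obtain ⟨δ, hδ⟩ : ∃ δ : ℝ, δ = (1 : ℝ) / k := ⟨_, rfl⟩
  have hk0 : (0 : ℝ) < k := by exact_mod_cast (by omega : 0 < k)
  have hδ0 : 0 < δ := by rw [hδ]; positivity
  have hδ1 : δ ≤ 1 / 2 := by
    rw [hδ, div_le_div_iff₀ hk0 (by norm_num), one_mul, one_mul]
    exact_mod_cast hk
  obtain ⟨C, hC1, hC⟩ := dk_eps (t + 1) (δ / 2) (by positivity)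
  obtain ⟨A, hA⟩ : ∃ A : ℝ, A = (t + 2) * C * 2 ^ (t + 1) * 3 * 12 * 3 := ⟨_, rfl⟩
  have hA0 : 0 < A := by rw [hA]; positivity
  refine ⟨2 * (U + t + 3), fun E => ?_⟩
  obtain ⟨n1, h1⟩ := ev_log (2 * A + 1)
  obtain ⟨n2, h2⟩ := ev_pow (U + t + 3) (2 * A) (δ / 2) (by positivity)
  obtain ⟨n3, h3⟩ := ev_pow E 4 (1 - δ) (by linarith)
  refine ⟨n1 + n2 + n3 + 3, fun N hN z hz1 hz2 W hW0 hW H hH α => ?_⟩
  have a1 := h1 N (by omega)
  have a2 := h2 N (by omega)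
  have a3 := h3 N (by omega)
  have hN1 : 1 ≤ N := by omega
  have hN0 : (0 : ℝ) < N := by exact_mod_cast hN1
  have hNr : (1 : ℝ) ≤ N := by exact_mod_cast hN1
  obtain ⟨L, hL⟩ : ∃ L, L = Real.log (N : ℝ) := ⟨_, rfl⟩
  rw [← hL] at a1 a2 a3 hz1 hz2 ⊢
  have hL1 : 1 ≤ L := by linarith
  have hL0 : 0 < L := by linarith
  have hz : 1 ≤ z := by
    have : (1 : ℝ) ≤ z := (one_le_pow₀ hL1).trans hz1
    exact_mod_cast this
  have hz0 : (0 : ℝ) < z := by exact_mod_cast hz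
  obtain ⟨D, hD⟩ : ∃ D : ℕ, D = N / yk k N := ⟨_, rfl⟩
  have hDle := D_le k N hN1
  have hDge := D_ge k N hN1
  rw [← hD, ← hδ] at hDle hDge
  rw [← hD]
  have hzD : z ≤ D := by
    have q1 : (z : ℝ) ≤ D := by
      have : (1 : ℝ) ≤ z := by exact_mod_cast hz
      linarith
    exact_mod_cast q1
  have hDN : D ≤ N := by rw [hD]; exact Nat.div_le_self _ _
  have hD0 : (0 : ℝ) < D := by exact_mod_cast (by omega : 0 < D)
  have hlD : Real.log D ≤ L := by rw [hL]; exact Real.log_le_log hD0 (by exact_mod_cast hDN)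
  have hlD0 : 0 ≤ Real.log D := Real.log_natCast_nonneg D
  have hKK : ∀ q, 0 ≤ ∑ a ∈ Rd q, KK H (α + (a : ℝ) / q) := fun q => sum_nonneg fun a _ => KK_nonneg (Nat.cast_nonneg _) _
  refine (sup_KK W D z H hzD α).trans ?_
  have s1 : ∑ q ∈ Ioc z D, |RR W D q| * ∑ a ∈ Rd q, KK H (α + (a : ℝ) / q) ≤
      ∑ q ∈ Ioc z D, ((t + 2) * C * (1 + L) ^ (t + 1)) * ((q : ℝ) ^ (δ / 2 - 1) * ∑ a ∈ Rd q, KK H (α + (a : ℝ) / q)) := by
    apply sum_le_sum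
    intro q hq
    rw [mem_Ioc] at hq
    have hq1 : 1 ≤ q := by omega
    have hq0 : (0 : ℝ) < q := by exact_mod_cast hq1
    rw [← mul_assoc]
    apply mul_le_mul_of_nonneg_right _ (hKK q)
    rw [abs_of_nonneg (RR_nonneg W D q hW0)]
    refine (RR_le W (t + 2) t D q hW (by positivity) hq1).trans ?_
    have e1 : (dk (t + 1) q : ℝ) / q ≤ C * (q : ℝ) ^ (δ / 2 - 1) := by
      rw [div_le_iff₀ hq0]
      refine (hC q hq1).trans (le_of_eq ?_)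
      rw [mul_assoc, Real.rpow_sub hq0, Real.rpow_one, div_mul_cancel₀ _ hq0.ne']
    calc (t + 2) * ((dk (t + 1) q : ℝ) / q) * (1 + Real.log D) ^ (t + 1)
        ≤ (t + 2) * (C * (q : ℝ) ^ (δ / 2 - 1)) * (1 + L) ^ (t + 1) := by
          apply mul_le_mul (mul_le_mul_of_nonneg_left e1 (by positivity)) _ (by positivity) (by positivity)
          exact pow_le_pow_left₀ (by linarith) (by linarith) _
      _ = _ := by ring
  refine s1.trans ?_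
  rw [← mul_sum]
  have s2 := dyadic D z H hz hzD α (δ / 2) (by positivity) (by linarith)
  have s3 : (1 + 2 * Real.log D) * (12 * H * (z : ℝ) ^ (δ / 2 - 1) + 12 * (D : ℝ) ^ (1 + δ / 2) * (2 + Real.log D)) ≤
      (3 * L) * (12 * (N / L ^ (U + t + 3)) + 12 * (N / (N : ℝ) ^ (δ / 2)) * (3 * L)) := by
    have f1 : (z : ℝ) ^ (δ / 2 - 1) ≤ 1 / L ^ (U + t + 3) := by
      have g1 : (z : ℝ) ^ (δ / 2 - 1) ≤ (L ^ (2 * (U + t + 3))) ^ (δ / 2 - 1) :=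
        Real.rpow_le_rpow_of_nonpos (by positivity) hz1 (by linarith)
      have g2 : (L ^ (2 * (U + t + 3))) ^ (δ / 2 - 1) ≤ (L ^ (2 * (U + t + 3))) ^ (-(1 / 2) : ℝ) :=
        Real.rpow_le_rpow_of_exponent_le (one_le_pow₀ hL1) (by linarith)
      have g3 : (L ^ (2 * (U + t + 3))) ^ (-(1 / 2) : ℝ) = 1 / L ^ (U + t + 3) := by
        rw [Real.rpow_neg (by positivity), one_div]
        congr 1
        rw [← Real.rpow_natCast L (2 * (U + t + 3)), ← Real.rpow_mul hL0.le, ← Real.rpow_natCast L (U + t + 3)]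
        congr 1
        push_cast
        ring
      linarith
    have f2 : (D : ℝ) ^ (1 + δ / 2) ≤ N / (N : ℝ) ^ (δ / 2) := by
      calc (D : ℝ) ^ (1 + δ / 2) ≤ ((N : ℝ) ^ (1 - δ)) ^ (1 + δ / 2) := Real.rpow_le_rpow hD0.le hDle (by linarith)
        _ = (N : ℝ) ^ ((1 - δ) * (1 + δ / 2)) := by rw [← Real.rpow_mul hN0.le]
        _ ≤ (N : ℝ) ^ (1 - δ / 2) := by
            apply Real.rpow_le_rpow_of_exponent_le hNr
            nlinarith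
        _ = _ := by rw [Real.rpow_sub hN0, Real.rpow_one]
    have hHN : (H : ℝ) ≤ N := by exact_mod_cast hH
    apply mul_le_mul (by linarith) _ (by positivity) (by positivity)
    apply add_le_add
    · calc 12 * (H : ℝ) * (z : ℝ) ^ (δ / 2 - 1) ≤ 12 * N * (1 / L ^ (U + t + 3)) := by
            apply mul_le_mul (by linarith) f1 (by positivity) (by positivity)
        _ = _ := by ring
    · apply mul_le_mul _ (by linarith) (by linarith) (by positivity)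
      exact mul_le_mul_of_nonneg_left f2 (by norm_num)
  have hKpos : 0 ≤ ((t : ℝ) + 2) * C * (1 + L) ^ (t + 1) := by positivity
  refine (mul_le_mul_of_nonneg_left (s2.trans s3) hKpos).trans ?_
  have s4 : ((t : ℝ) + 2) * C * (1 + L) ^ (t + 1) ≤ (t + 2) * C * (2 ^ (t + 1) * L ^ (t + 1)) := by
    apply mul_le_mul_of_nonneg_left _ (by positivity)
    rw [← mul_pow]
    exact pow_le_pow_left₀ (by positivity) (by linarith) _
  have s5 : (0 : ℝ) ≤ (3 * L) * (12 * (N / L ^ (U + t + 3)) + 12 * (N / (N : ℝ) ^ (δ / 2)) * (3 * L)) := by positivity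
  refine (mul_le_mul_of_nonneg_right s4 s5).trans ?_
  have hNδ : 0 < (N : ℝ) ^ (δ / 2) := Real.rpow_pos_of_pos hN0 _
  have t1 : ((t : ℝ) + 2) * C * (2 ^ (t + 1) * L ^ (t + 1)) * ((3 * L) * (12 * (N / L ^ (U + t + 3)))) ≤ (1 / 2) * (N / L ^ U) := by
    have e : ((t : ℝ) + 2) * C * (2 ^ (t + 1) * L ^ (t + 1)) * ((3 * L) * (12 * (N / L ^ (U + t + 3)))) = (A / 3 / L) * (N / L ^ U) := by
      rw [hA, show U + t + 3 = (t + 1) + 1 + 1 + U by ring, pow_add L ((t + 1) + 1 + 1), pow_add L ((t + 1) + 1), pow_add L (t + 1)]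
      field_simp
    rw [e]
    apply mul_le_mul_of_nonneg_right _ (by positivity)
    rw [div_le_iff₀ hL0]
    linarith
  have t2 : ((t : ℝ) + 2) * C * (2 ^ (t + 1) * L ^ (t + 1)) * ((3 * L) * (12 * (N / (N : ℝ) ^ (δ / 2)) * (3 * L))) ≤ (1 / 2) * (N / L ^ U) := by
    have e : ((t : ℝ) + 2) * C * (2 ^ (t + 1) * L ^ (t + 1)) * ((3 * L) * (12 * (N / (N : ℝ) ^ (δ / 2)) * (3 * L))) =
        (A * L ^ (t + 3) / (N : ℝ) ^ (δ / 2)) * N := by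
      rw [hA, show t + 3 = (t + 1) + 1 + 1 by ring, pow_add L ((t + 1) + 1), pow_add L (t + 1)]
      field_simp
    rw [e]
    have e2 : (1 / 2 : ℝ) * (N / L ^ U) = (1 / 2 / L ^ U) * N := by ring
    rw [e2]
    apply mul_le_mul_of_nonneg_right _ hN0.le
    rw [div_le_div_iff₀ hNδ (by positivity)]
    have e3 : A * L ^ (t + 3) * L ^ U = A * L ^ (U + t + 3) := by rw [mul_assoc, ← pow_add]; congr 2; ring
    rw [e3]
    linarith
  calc _ = ((t : ℝ) + 2) * C * (2 ^ (t + 1) * L ^ (t + 1)) * ((3 * L) * (12 * (N / L ^ (U + t + 3)))) +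
        ((t : ℝ) + 2) * C * (2 ^ (t + 1) * L ^ (t + 1)) * ((3 * L) * (12 * (N / (N : ℝ) ^ (δ / 2)) * (3 * L))) := by ring
    _ ≤ (1 / 2) * (N / L ^ U) + (1 / 2) * (N / L ^ U) := add_le_add t1 t2
    _ = _ := by ring

end Pool.Agent.TH212.DV
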