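import Pool.Agent.TH212.PL.L1
import Pool.Agent.TH212.DV.C6

set_option autoImplicit false

/-! The bilinear estimate with square integrable weights. -/

namespace Pool.Agent.TH212.DV
open Finset
open Pool.Agent.H807R2.Dav
open Pool.Agent.H373R2.T7 (orth sq_expand majorant_pow parseval_Icc triple fz energy)
open Pool.Agent.TH212.PL (En enum sum_enum energy_enum moment_energy)

theorem bil_l2 (A H x M : ℕ) (hM1 : 1 ≤ M) (f : ℕ → ℂ) (G c : ℕ → ℂ) (F : ℕ → ℤ) (δ η : ℝ) (s : ℕ) (C W g1 g2 : ℝ)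
    (hM : ∀ a ∈ Icc 1 A, ∀ m ∈ Icc 1 x, ∀ n ∈ Icc 1 H, |(a : ℤ) + F m - n| < M) (hAM : A ≤ M) (hHM : H ≤ M) (hx : 1 ≤ x)
    (hf : ∀ α : ℝ, ‖∑ n ∈ Icc 1 H, f n * ee ((n : ℝ) * α)‖ ≤ δ)
    (hG1 : ∑ a ∈ Icc 1 A, ‖G a‖ ≤ g1) (hG2 : ∑ a ∈ Icc 1 A, ‖G a‖ ^ 2 ≤ g2) (hc : ∀ m, ‖c m‖ ≤ 1)
    (hmom : ∑ t ∈ range M, (‖∑ m ∈ Icc 1 x, ee ((t : ℝ) * ((F m : ℝ) / M))‖ / x) ^ (2 * s) ≤ C)
    (hfs : ∑ n ∈ Icc 1 H, ‖f n‖ ^ 2 ≤ W) (hη : 0 < η) :
    ‖∑ a ∈ Icc 1 A, ∑ m ∈ Icc 1 x, G a * c m * fz f H (a + F m)‖ ≤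
      C / η ^ (2 * s) * δ * g1 * x / M + η * x * Real.sqrt (W * g2) := by
  have hM0 : (0 : ℝ) < M := by exact_mod_cast hM1
  have hx0 : (0 : ℝ) < x := by exact_mod_cast hx
  have hδ : 0 ≤ δ := (norm_nonneg _).trans (hf 0)
  set fh : ℕ → ℂ := fun t => ∑ n ∈ Icc 1 H, f n * ee ((t : ℝ) * ((((-1 : ℤ) * n : ℤ) : ℝ) / M)) with hfh
  set Gh : ℕ → ℂ := fun t => ∑ a ∈ Icc 1 A, G a * ee ((t : ℝ) * ((((1 : ℤ) * a : ℤ) : ℝ) / M)) with hGh
  set Sh : ℕ → ℂ := fun t => ∑ m ∈ Icc 1 x, c m * ee ((t : ℝ) * ((F m : ℝ) / M)) with hSh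
  -- the Fourier identity
  have hid : (M : ℂ) * ∑ a ∈ Icc 1 A, ∑ m ∈ Icc 1 x, G a * c m * fz f H (a + F m) =
      ∑ t ∈ range M, fh t * Gh t * Sh t := by
    have h1 : ∀ t ∈ range M, fh t * Gh t * Sh t = ∑ a ∈ Icc 1 A, ∑ m ∈ Icc 1 x, ∑ n ∈ Icc 1 H,
        G a * c m * f n * ee ((t : ℝ) * ((((a : ℤ) + F m - n : ℤ) : ℝ) / M)) := by
      intro t _
      rw [hfh, hGh, hSh]
      simp only
      rw [← triple]
      apply sum_congr rfl
      intro a _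
      apply sum_congr rfl
      intro m _
      apply sum_congr rfl
      intro n _
      have h2 : ee ((t : ℝ) * ((((a : ℤ) + F m - n : ℤ) : ℝ) / M)) =
          ee ((t : ℝ) * ((((1 : ℤ) * a : ℤ) : ℝ) / M)) * ee ((t : ℝ) * ((((-1 : ℤ) * n : ℤ) : ℝ) / M)) * ee ((t : ℝ) * ((F m : ℝ) / M)) := by
        rw [← ee_add, ← ee_add]
        congr 1
        push_cast
        ring
      rw [h2]
      ring
    rw [sum_congr rfl h1]
    symm
    rw [sum_comm, mul_sum]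
    apply sum_congr rfl
    intro a ha
    rw [sum_comm, mul_sum]
    apply sum_congr rfl
    intro m hm
    rw [sum_comm]
    have h2 : ∀ n ∈ Icc 1 H, ∑ t ∈ range M, G a * c m * f n * ee ((t : ℝ) * ((((a : ℤ) + F m - n : ℤ) : ℝ) / M)) =
        if (n : ℤ) = a + F m then (M : ℂ) * (G a * c m * f n) else 0 := by
      intro n hn
      rw [← mul_sum, orth M hM1]
      by_cases h3 : (n : ℤ) = a + F m
      · rw [if_pos h3, if_pos (by rw [h3]; simp)]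
        ring
      · rw [if_neg h3, if_neg, mul_zero]
        intro hd
        apply h3
        have := Int.eq_zero_of_abs_lt_dvd hd (hM a ha m hm n hn)
        omega
    rw [sum_congr rfl h2]
    unfold fz
    by_cases h3 : 1 ≤ (a : ℤ) + F m ∧ (a : ℤ) + F m ≤ H
    · rw [if_pos h3, sum_eq_single ((a : ℤ) + F m).toNat]
      · rw [if_pos (by rw [Int.toNat_of_nonneg (by omega)])]
      · intro n _ hne
        rw [if_neg]
        intro h4
        apply hne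
        omega
      · intro h4
        exfalso
        apply h4
        rw [mem_Icc]
        omega
    · rw [if_neg h3, mul_zero, mul_zero]
      apply sum_eq_zero
      intro n hn
      rw [mem_Icc] at hn
      rw [if_neg]
      omega
  -- bounds
  have hfh1 : ∀ t, ‖fh t‖ ≤ δ := by
    intro t
    have h1 : fh t = ∑ n ∈ Icc 1 H, f n * ee ((n : ℝ) * (-(t : ℝ) / M)) := by
      rw [hfh]
      apply sum_congr rfl
      intro n _
      congr 2
      push_cast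
      ring
    rw [h1]
    exact hf _
  have hg1 : 0 ≤ g1 := (sum_nonneg fun _ _ => norm_nonneg _).trans hG1
  have hg2 : 0 ≤ g2 := (sum_nonneg fun _ _ => by positivity).trans hG2
  have hGh1 : ∀ t, ‖Gh t‖ ≤ g1 := by
    intro t
    rw [hGh]
    refine (norm_sum_le _ _).trans ?_
    refine le_trans (le_of_eq ?_) hG1
    apply sum_congr rfl
    intro a _
    rw [norm_mul, norm_ee, mul_one]
  have hSh1 : ∀ t, ‖Sh t‖ ≤ x := by
    intro t
    rw [hSh]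
    refine (norm_sum_le _ _).trans ?_
    have : ∀ m ∈ Icc 1 x, ‖c m * ee ((t : ℝ) * ((F m : ℝ) / M))‖ ≤ 1 := by
      intro a _
      rw [norm_mul, norm_ee, mul_one]
      exact hc a
    refine (sum_le_sum this).trans ?_
    rw [sum_const, Nat.card_Icc, nsmul_eq_mul]
    simp
  have hSh2 : ∀ t, ‖Sh t‖ ≤ η * x + x * (‖Sh t‖ / x) ^ (2 * s) / η ^ (2 * s) := by
    intro t
    have hη2 : 0 < η ^ (2 * s) := by positivity
    rcases le_or_gt (‖Sh t‖) (η * x) with h | h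
    · have : 0 ≤ x * (‖Sh t‖ / x) ^ (2 * s) / η ^ (2 * s) := by positivity
      linarith
    · have h1 : η ≤ ‖Sh t‖ / x := by rw [le_div_iff₀ hx0]; exact h.le
      have h2 : η ^ (2 * s) ≤ (‖Sh t‖ / x) ^ (2 * s) := pow_le_pow_left₀ hη.le h1 _
      have h3 : (x : ℝ) ≤ x * (‖Sh t‖ / x) ^ (2 * s) / η ^ (2 * s) := by
        rw [le_div_iff₀ hη2]
        exact mul_le_mul_of_nonneg_left h2 hx0.le
      have h4 := hSh1 t
      have h5 : 0 ≤ η * x := by positivity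
      linarith
  have hpt : ∀ t, ‖fh t * Gh t * Sh t‖ ≤ η * x * (‖fh t‖ * ‖Gh t‖) + δ * g1 * x / η ^ (2 * s) * (‖Sh t‖ / x) ^ (2 * s) := by
    intro t
    rw [norm_mul, norm_mul]
    have h1 : ‖fh t‖ * ‖Gh t‖ ≤ δ * g1 := mul_le_mul (hfh1 t) (hGh1 t) (norm_nonneg _) hδ
    have h2 : 0 ≤ x * (‖Sh t‖ / x) ^ (2 * s) / η ^ (2 * s) := by positivity
    calc ‖fh t‖ * ‖Gh t‖ * ‖Sh t‖ ≤ ‖fh t‖ * ‖Gh t‖ * (η * x + x * (‖Sh t‖ / x) ^ (2 * s) / η ^ (2 * s)) :=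
          mul_le_mul_of_nonneg_left (hSh2 t) (by positivity)
      _ = η * x * (‖fh t‖ * ‖Gh t‖) + (‖fh t‖ * ‖Gh t‖) * (x * (‖Sh t‖ / x) ^ (2 * s) / η ^ (2 * s)) := by ring
      _ ≤ η * x * (‖fh t‖ * ‖Gh t‖) + (δ * g1) * (x * (‖Sh t‖ / x) ^ (2 * s) / η ^ (2 * s)) := by
          apply add_le_add le_rfl
          exact mul_le_mul_of_nonneg_right h1 h2
      _ = _ := by ring
  -- Cauchy-Schwarz
  have hcs : ∑ t ∈ range M, ‖fh t‖ * ‖Gh t‖ ≤ M * Real.sqrt (W * g2) := by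
    have h1 := sum_mul_sq_le_sq_mul_sq (range M) (fun t => ‖fh t‖) (fun t => ‖Gh t‖)
    have h2 : ∑ t ∈ range M, ‖fh t‖ ^ 2 ≤ M * W := by
      have h3 := parseval_Icc H M hM1 hHM f (-1) (Or.inr rfl)
      rw [hfh]
      simp only
      rw [h3]
      exact mul_le_mul_of_nonneg_left hfs hM0.le
    have h3 : ∑ t ∈ range M, ‖Gh t‖ ^ 2 ≤ M * g2 := by
      have h4 := parseval_Icc A M hM1 hAM G 1 (Or.inl rfl)
      rw [hGh]
      simp only
      rw [h4]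
      exact mul_le_mul_of_nonneg_left hG2 hM0.le
    have hW : 0 ≤ W := (sum_nonneg fun _ _ => by positivity).trans hfs
    have h4 : (∑ t ∈ range M, ‖fh t‖ * ‖Gh t‖) ^ 2 ≤ (M * W) * (M * g2) :=
      h1.trans (mul_le_mul h2 h3 (sum_nonneg fun _ _ => by positivity) (by positivity))
    have h5 : (M * W) * (M * g2) = (M : ℝ) ^ 2 * (W * g2) := by ring
    rw [h5] at h4
    have h6 := Real.sqrt_le_sqrt h4
    rw [Real.sqrt_sq (sum_nonneg fun _ _ => by positivity), Real.sqrt_mul (by positivity), Real.sqrt_sq hM0.le] at h6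
    exact h6
  have hmom' : ∑ t ∈ range M, (‖Sh t‖ / x) ^ (2 * s) ≤ C := by
    refine le_trans ?_ hmom
    have h1 := majorant_pow s x c hc F M hM1
    have h2 : ∀ u : ℕ → ℝ, ∑ t ∈ range M, (u t / x) ^ (2 * s) = (∑ t ∈ range M, u t ^ (2 * s)) / (x : ℝ) ^ (2 * s) := by
      intro u
      rw [sum_div]
      exact sum_congr rfl fun t _ => div_pow _ _ _
    rw [h2, h2]
    exact div_le_div_of_nonneg_right h1 (by positivity)
  have hfin : ‖(M : ℂ) * ∑ a ∈ Icc 1 A, ∑ m ∈ Icc 1 x, G a * c m * fz f H (a + F m)‖ ≤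
      η * x * (M * Real.sqrt (W * g2)) + δ * g1 * x / η ^ (2 * s) * C := by
    rw [hid]
    refine (norm_sum_le _ _).trans ((sum_le_sum fun t _ => hpt t).trans ?_)
    rw [sum_add_distrib, ← mul_sum, ← mul_sum]
    apply add_le_add
    · exact mul_le_mul_of_nonneg_left hcs (by positivity)
    · exact mul_le_mul_of_nonneg_left hmom' (by positivity)
  rw [norm_mul, Complex.norm_natCast] at hfin
  rw [← mul_le_mul_iff_right₀ hM0]
  refine hfin.trans (le_of_eq ?_)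
  field_simp
  ring


/-- the first moment over a family of shifts of nearly minimal energy, for square integrable weights -/
theorem fam_l2 (p B C c1 c2 U : ℕ) : ∃ U' N₀ : ℕ, ∀ N : ℕ, N₀ ≤ N → ∀ (ι : Type) [Fintype ι] (v : ι → ℤ), (∀ i, |v i| ≤ B * N) →
    (En p v : ℝ) * N ≤ Real.log N ^ C * (Fintype.card ι : ℝ) ^ (2 * p) → ∀ A H : ℕ, A ≤ N → H ≤ N → ∀ G f : ℕ → ℝ,
    ∑ a ∈ Icc 1 A, G a ^ 2 ≤ N * Real.log N ^ c2 → ∑ n ∈ Icc 1 H, f n ^ 2 ≤ N * Real.log N ^ c1 →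
    (∀ α : ℝ, ‖∑ n ∈ Icc 1 H, ((f n : ℝ) : ℂ) * ee ((n : ℝ) * α)‖ ≤ N / Real.log N ^ U') →
    ∑ i, |∑ a ∈ Icc 1 A, G a * (if 1 ≤ (a : ℤ) + v i ∧ (a : ℤ) + v i ≤ H then f ((a : ℤ) + v i).toNat else 0)| ≤
      N * Fintype.card ι / Real.log N ^ U := by
  obtain ⟨e, he⟩ : ∃ e, e = U + c1 + c2 + 1 := ⟨_, rfl⟩
  obtain ⟨U', hU'⟩ : ∃ U', U' = C + e * (2 * p) + c2 + U + 1 := ⟨_, rfl⟩
  obtain ⟨n1, h1⟩ := ev_log (4 * ((4 * p + 5) * (B + 1)) + 2)
  refine ⟨U', n1 + 3, fun N hN ι _ v hv hE A H hA hH G f hG hf hsup => ?_⟩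
  have a1 := h1 N (by omega)
  have hN1 : 1 ≤ N := by omega
  have hN0 : (0 : ℝ) < N := by exact_mod_cast hN1
  obtain ⟨L, hL⟩ : ∃ L, L = Real.log (N : ℝ) := ⟨_, rfl⟩
  rw [← hL] at a1 hE hG hf hsup ⊢
  have hK0 : (0 : ℝ) ≤ (4 * p + 5) * (B + 1) := by positivity
  have hL2 : 2 ≤ L := by linarith
  have hL1 : 1 ≤ L := by linarith
  have hL0 : 0 < L := by linarith
  rcases isEmpty_or_nonempty ι with hι | hι
  · simp
  obtain ⟨g, hinj, hsurj⟩ := enum ι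
  obtain ⟨x, hx⟩ : ∃ x, x = Fintype.card ι := ⟨_, rfl⟩
  have hx1 : 1 ≤ x := by rw [hx]; exact Fintype.card_pos
  have hx0 : (0 : ℝ) < x := by exact_mod_cast hx1
  obtain ⟨s, hs⟩ : ∃ s : ℕ → ℤ, s = fun m => v (g m) := ⟨_, rfl⟩
  have hsB : ∀ m ∈ Icc 1 x, |s m| ≤ ((B * N : ℕ) : ℤ) := by
    intro m _
    rw [hs]
    push_cast
    exact hv (g m)
  have hen : (energy p x s : ℝ) ≤ En p v := by
    have := energy_enum p v g 0 hinj
    simp only [sub_zero] at this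
    rw [hs, hx]
    exact_mod_cast this
  obtain ⟨M, hM⟩ : ∃ M : ℕ, M = (4 * p + 5) * ((B + 1) * N) := ⟨_, rfl⟩
  have hBN1 : 1 ≤ (B + 1) * N := Nat.mul_pos (by omega) hN1
  have hM5 : 5 * ((B + 1) * N) ≤ M := by rw [hM]; exact Nat.mul_le_mul_right _ (by omega)
  have hNB : N ≤ (B + 1) * N := Nat.le_mul_of_pos_left _ (by omega)
  have hM1 : 1 ≤ M := by omega
  have hMN : N ≤ M := by omega
  have hM0 : (0 : ℝ) < M := by exact_mod_cast hM1
  have hMr : (M : ℝ) = (4 * p + 5) * ((B + 1) * N) := by rw [hM]; push_cast; ring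
  have hcond : ∀ a ∈ Icc 1 A, ∀ m ∈ Icc 1 x, ∀ n ∈ Icc 1 H, |(a : ℤ) + s m - n| < M := by
    intro a ha m hm n hn
    have h4 := abs_le.1 (hsB m hm)
    rw [mem_Icc] at ha hn
    have h5 : (a : ℤ) ≤ N := by exact_mod_cast ha.2.trans hA
    have h6 : (n : ℤ) ≤ N := by exact_mod_cast hn.2.trans hH
    have h7 : (5 : ℤ) * ((B + 1) * N) ≤ M := by exact_mod_cast hM5
    have h8 : ((B * N : ℕ) : ℤ) + N = (B + 1) * N := by push_cast; ring
    have h9 : (1 : ℤ) ≤ N := by exact_mod_cast hN1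
    have h10 : (0 : ℤ) ≤ a := by positivity
    have h11 : (0 : ℤ) ≤ n := by positivity
    have h12 : (0 : ℤ) ≤ ((B * N : ℕ) : ℤ) := by positivity
    rw [abs_lt]
    constructor <;> linarith [h4.1, h4.2]
  have hmomE := moment_energy p x s M (B * N) hM1 hsB (by
    have h4 : 2 * p * (B * N) ≤ 2 * p * ((B + 1) * N) := Nat.mul_le_mul_left _ (Nat.mul_le_mul_right _ (by omega))
    have h5 : 2 * p * ((B + 1) * N) < (4 * p + 5) * ((B + 1) * N) := Nat.mul_lt_mul_of_pos_right (by omega) hBN1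
    omega)
  obtain ⟨C0, hC0⟩ : ∃ C0 : ℝ, C0 = (4 * p + 5) * (B + 1) * L ^ C := ⟨_, rfl⟩
  have hmom : ∑ t ∈ range M, (‖∑ m ∈ Icc 1 x, ee ((t : ℝ) * ((s m : ℝ) / M))‖ / x) ^ (2 * p) ≤ C0 := by
    have h2 : ∑ t ∈ range M, (‖∑ m ∈ Icc 1 x, ee ((t : ℝ) * ((s m : ℝ) / M))‖ / x) ^ (2 * p) =
        (M * energy p x s) / (x : ℝ) ^ (2 * p) := by
      rw [← hmomE, sum_div]
      exact sum_congr rfl fun t _ => div_pow _ _ _
    rw [h2, div_le_iff₀ (by positivity), hMr]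
    calc (4 * (p : ℝ) + 5) * ((B + 1) * N) * energy p x s = (4 * p + 5) * (B + 1) * (energy p x s * N) := by ring
      _ ≤ (4 * p + 5) * (B + 1) * (L ^ C * (x : ℝ) ^ (2 * p)) := by
          apply mul_le_mul_of_nonneg_left _ (by positivity)
          refine (mul_le_mul_of_nonneg_right hen hN0.le).trans ?_
          rw [hx]
          exact hE
      _ = _ := by rw [hC0]; ring
  obtain ⟨S, hS⟩ : ∃ S : ℕ → ℝ, S = fun m => ∑ a ∈ Icc 1 A, G a *
      (if 1 ≤ (a : ℤ) + s m ∧ (a : ℤ) + s m ≤ H then f ((a : ℤ) + s m).toNat else 0) := ⟨_, rfl⟩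
  obtain ⟨c, hc⟩ : ∃ c : ℕ → ℂ, c = fun m => if 0 ≤ S m then 1 else -1 := ⟨_, rfl⟩
  have hc1 : ∀ m, ‖c m‖ ≤ 1 := by
    intro m
    rw [hc]
    simp only
    split_ifs <;> simp
  have hcS : ∀ m, c m * (S m : ℂ) = ((|S m| : ℝ) : ℂ) := by
    intro m
    rw [hc]
    simp only
    split_ifs with h
    · rw [abs_of_nonneg h, one_mul]
    · rw [abs_of_neg (not_le.1 h)]
      push_cast
      ring
  have hG1 : ∑ a ∈ Icc 1 A, ‖((G a : ℝ) : ℂ)‖ ≤ N + N * L ^ c2 := by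
    have q1 : ∀ a ∈ Icc 1 A, ‖((G a : ℝ) : ℂ)‖ ≤ 1 + G a ^ 2 := by
      intro a _
      rw [Complex.norm_real, Real.norm_eq_abs, ← sq_abs (G a)]
      nlinarith [sq_nonneg (|G a| - 1), abs_nonneg (G a)]
    refine (sum_le_sum q1).trans ?_
    rw [sum_add_distrib, sum_const, Nat.card_Icc, nsmul_eq_mul, mul_one]
    apply add_le_add _ hG
    exact_mod_cast (by omega : A + 1 - 1 ≤ N)
  have hG2 : ∑ a ∈ Icc 1 A, ‖((G a : ℝ) : ℂ)‖ ^ 2 ≤ N * L ^ c2 := by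
    refine le_trans (le_of_eq ?_) hG
    apply sum_congr rfl
    intro a _
    rw [Complex.norm_real, Real.norm_eq_abs, sq_abs]
  have hf2 : ∑ a ∈ Icc 1 H, ‖((f a : ℝ) : ℂ)‖ ^ 2 ≤ N * L ^ c1 := by
    refine le_trans (le_of_eq ?_) hf
    apply sum_congr rfl
    intro a _
    rw [Complex.norm_real, Real.norm_eq_abs, sq_abs]
  have hη : 0 < 1 / L ^ e := by positivity
  have key := bil_l2 A H x M hM1 (fun n => ((f n : ℝ) : ℂ)) (fun n => ((G n : ℝ) : ℂ)) c s (N / L ^ U') (1 / L ^ e) p C0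
    (N * L ^ c1) (N + N * L ^ c2) (N * L ^ c2) hcond (hA.trans hMN) (hH.trans hMN) hx1 hsup hG1 hG2 hc1 hmom hf2 hη
  have heq : ∑ a ∈ Icc 1 A, ∑ m ∈ Icc 1 x, ((G a : ℝ) : ℂ) * c m * fz (fun n => ((f n : ℝ) : ℂ)) H (a + s m) =
      ((∑ m ∈ Icc 1 x, |S m| : ℝ) : ℂ) := by
    rw [sum_comm]
    push_cast
    apply sum_congr rfl
    intro m _
    rw [← hcS m, hS]
    push_cast
    rw [mul_sum]
    apply sum_congr rfl
    intro a _
    unfold fz
    split_ifs <;> simp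
    ring
  rw [heq, Complex.norm_real, Real.norm_of_nonneg (sum_nonneg fun _ _ => abs_nonneg _)] at key
  have e1 : ∑ i, |∑ a ∈ Icc 1 A, G a * (if 1 ≤ (a : ℤ) + v i ∧ (a : ℤ) + v i ≤ H then f ((a : ℤ) + v i).toNat else 0)| =
      ∑ m ∈ Icc 1 x, |S m| := by
    rw [hx, ← sum_enum g hinj hsurj, hS, hs]
  rw [e1, ← hx]
  refine key.trans ?_
  have hLc2 : 1 ≤ L ^ c2 := one_le_pow₀ hL1
  have t1 : C0 / (1 / L ^ e) ^ (2 * p) * (N / L ^ U') * (N + N * L ^ c2) * x / M ≤ 1 / 2 * (N * x / L ^ U) := by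
    have q1 : (N : ℝ) + N * L ^ c2 ≤ 2 * (N * L ^ c2) := by nlinarith
    have q2 : C0 / (1 / L ^ e) ^ (2 * p) * (N / L ^ U') * (N + N * L ^ c2) * x / M ≤
        C0 / (1 / L ^ e) ^ (2 * p) * (N / L ^ U') * (2 * (N * L ^ c2)) * x / M := by
      have hC00 : 0 ≤ C0 := by rw [hC0]; positivity
      apply div_le_div_of_nonneg_right _ hM0.le
      apply mul_le_mul_of_nonneg_right _ hx0.le
      exact mul_le_mul_of_nonneg_left q1 (by positivity)
    refine q2.trans ?_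
    have q3 : C0 / (1 / L ^ e) ^ (2 * p) * (N / L ^ U') * (2 * (N * L ^ c2)) * x / M = (2 / L) * (N * x / L ^ U) := by
      rw [hC0, hMr, div_pow, one_pow, ← pow_mul, hU']
      have e2 : L ^ (C + e * (2 * p) + c2 + U + 1) = L ^ C * L ^ (e * (2 * p)) * L ^ c2 * L ^ U * L := by
        rw [pow_succ, pow_add, pow_add, pow_add]
      rw [e2]
      field_simp
    rw [q3]
    apply mul_le_mul_of_nonneg_right _ (by positivity)
    rw [div_le_iff₀ hL0]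
    have : (5 : ℝ) ≤ (4 * p + 5) * (B + 1) := by
      have h1 : (0 : ℝ) ≤ p := Nat.cast_nonneg _
      have h2 : (0 : ℝ) ≤ B := Nat.cast_nonneg _
      nlinarith
    linarith
  have t2 : 1 / L ^ e * x * Real.sqrt (N * L ^ c1 * (N * L ^ c2)) ≤ 1 / 2 * (N * x / L ^ U) := by
    have q1 : Real.sqrt (N * L ^ c1 * (N * L ^ c2)) ≤ N * L ^ (c1 + c2) := by
      rw [Real.sqrt_le_left (by positivity)]
      have q2 : (N : ℝ) * L ^ c1 * (N * L ^ c2) = N ^ 2 * L ^ (c1 + c2) := by rw [pow_add]; ring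
      rw [q2, mul_pow]
      apply mul_le_mul_of_nonneg_left _ (by positivity)
      exact le_self_pow₀ (one_le_pow₀ hL1) (by norm_num)
    calc 1 / L ^ e * x * Real.sqrt (N * L ^ c1 * (N * L ^ c2)) ≤ 1 / L ^ e * x * (N * L ^ (c1 + c2)) :=
          mul_le_mul_of_nonneg_left q1 (by positivity)
      _ = (1 / L) * (N * x / L ^ U) := by
          rw [he, show U + c1 + c2 + 1 = U + (c1 + c2) + 1 by ring, pow_succ, pow_add L U]
          field_simp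
      _ ≤ _ := by
          apply mul_le_mul_of_nonneg_right _ (by positivity)
          exact one_div_le_one_div_of_le (by norm_num) hL2
  calc _ ≤ 1 / 2 * (N * x / L ^ U) + 1 / 2 * (N * x / L ^ U) := add_le_add t1 t2
    _ = _ := by ring

end Pool.Agent.TH212.DV
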