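import Pool.Agent.TH212.DV.C7
import Pool.Agent.TH212.DV.C8

set_option autoImplicit false

/-! Correlations of two divisor sums along a family of nearly minimal energy. -/

namespace Pool.Agent.TH212.DV
open Finset
open Pool.Agent.H807R2.Dav
open Pool.Agent.TH212.PL (En)

lemma En_neg (p : ℕ) {ι : Type} [Fintype ι] (v : ι → ℤ) : En p (fun i => -v i) = En p v := by
  unfold En
  apply Nat.card_congr
  apply Equiv.subtypeEquivRight
  intro q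
  simp only [sum_neg_distrib, neg_inj]

lemma reindex (X N : ℕ) (v : ℤ) (hv : 0 < v) (hX : (X : ℤ) + v ≤ N) (F f : ℕ → ℝ) :
    ∑ m ∈ Icc 1 N, F m * (if 1 ≤ (m : ℤ) + -v ∧ (m : ℤ) + -v ≤ X then f ((m : ℤ) + -v).toNat else 0) =
      ∑ n ∈ Icc 1 X, f n * F ((n : ℤ) + v).toNat := by
  have e1 : ∑ m ∈ Icc 1 N, F m * (if 1 ≤ (m : ℤ) + -v ∧ (m : ℤ) + -v ≤ X then f ((m : ℤ) + -v).toNat else 0) =
      ∑ m ∈ (Icc 1 N).filter (fun m : ℕ => 1 ≤ (m : ℤ) + -v ∧ (m : ℤ) + -v ≤ X), F m * f ((m : ℤ) + -v).toNat := by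
    rw [sum_filter]
    apply sum_congr rfl
    intro m _
    split_ifs <;> simp
  rw [e1]
  symm
  apply sum_bij (fun (n : ℕ) _ => ((n : ℤ) + v).toNat)
  · intro n hn
    rw [mem_Icc] at hn
    rw [mem_filter, mem_Icc]
    omega
  · intro n hn n' hn' h
    rw [mem_Icc] at hn hn'
    omega
  · intro m hm
    rw [mem_filter, mem_Icc] at hm
    refine ⟨((m : ℤ) - v).toNat, ?_, ?_⟩
    · rw [mem_Icc]; omega
    · omega
  · intro n hn
    rw [mem_Icc] at hn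
    have : ((((n : ℤ) + v).toNat : ℤ) + -v).toNat = n := by omega
    rw [this]
    ring

theorem prod_fam (p B C t k U : ℕ) (hk : 2 ≤ k) : ∃ B0 : ℕ, ∀ E : ℕ, ∃ N₀ : ℕ, ∀ N : ℕ, N₀ ≤ N → ∀ (ι : Type) [Fintype ι] (v : ι → ℤ),
    (∀ i, |v i| ≤ B * N) → (En p v : ℝ) * N ≤ Real.log N ^ C * (Fintype.card ι : ℝ) ^ (2 * p) →
    ∀ z : ℕ, Real.log N ^ B0 ≤ z → (z : ℝ) ≤ Real.log N ^ E → ∀ X : ℕ, (∀ i, (X : ℤ) + v i ≤ N) → X ≤ N →
    ∀ W W' : ℕ → ℝ, (∀ d, 0 ≤ W d) → (∀ d, W d ≤ (t + 2) * dk (t + 1) d) → (∀ d, 0 ≤ W' d) → (∀ d, W' d ≤ (t + 2) * dk (t + 1) d) →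
    ∑ i ∈ univ.filter (fun i => 0 < v i), |∑ n ∈ Icc 1 X, (FF W (N / yk k N) n * FF W' (N / yk k N) ((n : ℤ) + v i).toNat -
      MM W (N / yk k N) z n * MM W' (N / yk k N) z ((n : ℤ) + v i))| ≤ N * Fintype.card ι / Real.log N ^ U := by
  classical
  obtain ⟨c1, hc1⟩ := l2_bounds t
  obtain ⟨c, hc⟩ : ∃ c, c = c1 + 1 := ⟨_, rfl⟩
  obtain ⟨U', n1, h1⟩ := fam_l2 p B C c c (U + 1)
  obtain ⟨B0, hB0⟩ := sup_small t k U' hk
  refine ⟨B0, fun E => ?_⟩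
  obtain ⟨n2, h2⟩ := hc1 E
  obtain ⟨n3, h3⟩ := hB0 E
  obtain ⟨n4, h4⟩ := ev_log 4
  refine ⟨n1 + n2 + n3 + n4 + 3, fun N hN ι _ v hv hE z hz1 hz2 X hX hXN W W' hW0 hW hW0' hW' => ?_⟩
  have a4 := h4 N (by omega)
  have hN1 : 1 ≤ N := by omega
  have hN0 : (0 : ℝ) < N := by exact_mod_cast hN1
  have hz : 1 ≤ z := by
    have : (1 : ℝ) ≤ z := (one_le_pow₀ (by linarith)).trans hz1
    exact_mod_cast this
  obtain ⟨D, hD⟩ : ∃ D : ℕ, D = N / yk k N := ⟨_, rfl⟩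
  have hDN : D ≤ N := by rw [hD]; exact Nat.div_le_self _ _
  have s1 := h3 N (by omega) z hz1 hz2 W hW0 hW
  have s2 := h3 N (by omega) z hz1 hz2 W' hW0' hW'
  rw [← hD] at s1 s2 ⊢
  have l1 := h2 N (by omega) z hz hz2 D hDN W hW0 hW
  have l2 := h2 N (by omega) z hz hz2 D hDN W' hW0' hW'
  have f1 := h1 N (by omega) ι
  obtain ⟨L, hL⟩ : ∃ L, L = Real.log (N : ℝ) := ⟨_, rfl⟩
  rw [← hL] at a4 hE hz1 hz2 s1 s2 l1 l2 f1 ⊢
  have hL0 : 0 < L := by linarith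
  have hL1 : 1 ≤ L := by linarith
  have hLc : ∀ x : ℝ, x ≤ N * L ^ c1 → x ≤ N * L ^ c := by
    intro x hx
    refine hx.trans (mul_le_mul_of_nonneg_left (pow_le_pow_right₀ hL1 (by omega)) hN0.le)
  -- mean squares of the differences
  have hdiff : ∀ V : ℕ → ℝ, (∀ d, 0 ≤ V d) → (∀ d, V d ≤ (t + 2) * dk (t + 1) d) → ∀ A : ℕ, A ≤ N →
      ∑ n ∈ Icc 1 A, (FF V D n - MM V D z n) ^ 2 ≤ N * L ^ c := by
    intro V hV0 hV A hA
    have l3 := h2 N (by omega) z hz (by rw [← hL]; exact hz2) D hDN V hV0 hV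
    rw [← hL] at l3
    have q1 : ∑ n ∈ Icc 1 A, FF V D n ^ 2 ≤ N * L ^ c1 := by
      refine le_trans ?_ l3.1
      exact sum_le_sum_of_subset_of_nonneg (Icc_subset_Icc_right hA) (fun _ _ _ => by positivity)
    have q2 := l3.2 A hA
    calc ∑ n ∈ Icc 1 A, (FF V D n - MM V D z n) ^ 2 ≤ ∑ n ∈ Icc 1 A, (2 * FF V D n ^ 2 + 2 * MM V D z n ^ 2) := by
          apply sum_le_sum
          intro n _
          nlinarith [sq_nonneg (FF V D n + MM V D z n)]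
      _ = 2 * ∑ n ∈ Icc 1 A, FF V D n ^ 2 + 2 * ∑ n ∈ Icc 1 A, MM V D z n ^ 2 := by rw [sum_add_distrib, mul_sum, mul_sum]
      _ ≤ 4 * (N * L ^ c1) := by linarith
      _ ≤ L * (N * L ^ c1) := mul_le_mul_of_nonneg_right a4 (by positivity)
      _ = _ := by rw [hc]; ring
  -- the second term
  have tB := f1 v hv hE X N hXN le_rfl (fun n => MM W D z n) (fun m => FF W' D m - MM W' D z m)
    (hLc _ (l1.2 X hXN)) (hdiff W' hW0' hW' N le_rfl) (fun α => s2 N le_rfl α)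
  have tA := f1 (fun i => -v i) (fun i => by rw [abs_neg]; exact hv i) (by rw [En_neg]; exact hE) N X le_rfl hXN
    (fun m => FF W' D m) (fun n => FF W D n - MM W D z n) (hLc _ l2.1) (hdiff W hW0 hW X hXN) (fun α => s1 X hXN α)
  have e1 : ∀ i ∈ univ.filter (fun i => 0 < v i), |∑ n ∈ Icc 1 X, (FF W D n * FF W' D ((n : ℤ) + v i).toNat -
      MM W D z n * MM W' D z ((n : ℤ) + v i))| ≤
      |∑ a ∈ Icc 1 N, FF W' D a * (if 1 ≤ (a : ℤ) + -v i ∧ (a : ℤ) + -v i ≤ X then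
        FF W D ((a : ℤ) + -v i).toNat - MM W D z (((a : ℤ) + -v i).toNat : ℕ) else 0)| +
      |∑ a ∈ Icc 1 X, MM W D z a * (if 1 ≤ (a : ℤ) + v i ∧ (a : ℤ) + v i ≤ N then
        FF W' D ((a : ℤ) + v i).toNat - MM W' D z (((a : ℤ) + v i).toNat : ℕ) else 0)| := by
    intro i hi
    rw [mem_filter] at hi
    rw [reindex X N (v i) hi.2 (hX i) (fun m => FF W' D m) (fun n => FF W D n - MM W D z n)]
    refine le_trans (le_of_eq ?_) (abs_add_le _ _)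
    congr 1
    rw [← sum_add_distrib]
    apply sum_congr rfl
    intro n hn
    rw [mem_Icc] at hn
    have h5 := hX i
    rw [if_pos (by omega)]
    have h6 : ((((n : ℤ) + v i).toNat : ℕ) : ℤ) = (n : ℤ) + v i := Int.toNat_of_nonneg (by omega)
    rw [h6]
    ring
  refine (sum_le_sum e1).trans ?_
  rw [sum_add_distrib]
  have e2 : ∀ F : ι → ℝ, ∑ i ∈ univ.filter (fun i => 0 < v i), |F i| ≤ ∑ i, |F i| := fun F =>
    sum_le_sum_of_subset_of_nonneg (filter_subset _ _) (fun _ _ _ => abs_nonneg _)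
  have e3 := (e2 _).trans tA
  have e4 := (e2 _).trans tB
  have e5 : (N : ℝ) * Fintype.card ι / L ^ (U + 1) + N * Fintype.card ι / L ^ (U + 1) ≤ N * Fintype.card ι / L ^ U := by
    rw [← two_mul, pow_succ, ← div_div, mul_div_assoc', div_le_iff₀ hL0]
    have : 0 ≤ (N : ℝ) * Fintype.card ι / L ^ U := by positivity
    nlinarith
  exact (add_le_add e3 e4).trans e5

end Pool.Agent.TH212.DV
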