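import Pool.Agent.TH212.DV.C13
import Pool.Agent.TH212.DV.C9
import Pool.Agent.TH212.PL.L1

set_option autoImplicit false

/-! Correlations of the divisor functions along thin families of shifts. -/

namespace Pool.Agent.TH212.DV
open Finset
open Pool.Agent.TH212.PL (En)

/-- the correlation -/
noncomputable def DD (r X : ℕ) (h : ℤ) : ℝ := ∑ n ∈ Icc 1 X, (dk r n : ℝ) * dk r ((n : ℤ) + h).toNat

lemma RR_up (t N D q : ℕ) (W : ℕ → ℝ) (hW0 : ∀ d, 0 ≤ W d) (hW : ∀ d, W d ≤ (t + 2) * dk (t + 1) d) (hq : 1 ≤ q) (hD : D ≤ N)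
    (hL : 1 ≤ Real.log N) : RR W D q ≤ ((t + 2) * 2 ^ (t + 1)) * ((dk (t + 1) q : ℝ) / q) * Real.log N ^ (t + 1) := by
  have h1 := RR_le W (t + 2) t D q hW (by positivity) hq
  have h2 : Real.log D ≤ Real.log N := by
    rcases Nat.eq_zero_or_pos D with h | h
    · rw [h, Nat.cast_zero, Real.log_zero]; linarith
    · exact Real.log_le_log (by exact_mod_cast h) (by exact_mod_cast hD)
  have h0 : 0 ≤ Real.log D := Real.log_natCast_nonneg D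
  have h3 : (1 + Real.log D) ^ (t + 1) ≤ (2 * Real.log N) ^ (t + 1) := pow_le_pow_left₀ (by linarith) (by linarith) _
  refine h1.trans ?_
  calc ((t : ℝ) + 2) * ((dk (t + 1) q : ℝ) / q) * (1 + Real.log D) ^ (t + 1) ≤ ((t : ℝ) + 2) * ((dk (t + 1) q : ℝ) / q) * (2 * Real.log N) ^ (t + 1) :=
        mul_le_mul_of_nonneg_left h3 (by positivity)
    _ = _ := by rw [mul_pow]; ring

/-- the main terms -/
lemma main_terms (t : ℕ) (ε : ℝ) (hε : 0 < ε) : ∃ k K : ℕ, 2 * (t + 2) ≤ k ∧ 1 ≤ K ∧ ∃ N₀ : ℕ, ∀ N : ℕ, N₀ ≤ N → ∀ z : ℕ, K ≤ z → ∀ H : ℕ, 1 ≤ H →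
    |∑ q ∈ Icc 1 z, RR (WL t) (N / yk k N) q * RR (WL t) (N / yk k N) q * (cz q (H : ℤ) : ℝ) -
      Sing (t + 1) H * (Real.log N ^ (t + 1) / ((t + 1).factorial : ℕ)) ^ 2| ≤ ε * (sg H * (Real.log N ^ (t + 1)) ^ 2) ∧
    |∑ q ∈ Icc 1 z, RR (WU (yk k N) t) (N / yk k N) q * RR (WU (yk k N) t) (N / yk k N) q * (cz q (H : ℤ) : ℝ) -
      Sing (t + 1) H * (Real.log N ^ (t + 1) / ((t + 1).factorial : ℕ)) ^ 2| ≤ ε * (sg H * (Real.log N ^ (t + 1)) ^ 2) := by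
  obtain ⟨Cs, hCs, hcmp⟩ := series_cmp t
  obtain ⟨A, hA⟩ : ∃ A : ℝ, A = (t + 2) * 2 ^ (t + 1) := ⟨_, rfl⟩
  obtain ⟨c3, hc3⟩ : ∃ c3 : ℝ, c3 = 3 + (t + 1) * 2 ^ (t + 1) := ⟨_, rfl⟩
  have hA0 : 0 ≤ A := by rw [hA]; positivity
  have hc30 : 0 ≤ c3 := by rw [hc3]; positivity
  obtain ⟨k, hk⟩ : ∃ k : ℕ, k = ⌈2 * Cs * c3 * (A + 1) / ε⌉₊ + 2 * (t + 2) := ⟨_, rfl⟩
  obtain ⟨w, hw⟩ : ∃ w : ℝ, w = 2 * Cs * (A ^ 2 + 1) / ε + 1 := ⟨_, rfl⟩
  have hw1 : 1 ≤ w := by rw [hw]; have : 0 ≤ 2 * Cs * (A ^ 2 + 1) / ε := by positivity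
                         linarith
  obtain ⟨K, hK⟩ : ∃ K : ℕ, K = ⌈w ^ 4⌉₊ := ⟨_, rfl⟩
  have hk1 : 2 * Cs * c3 * (A + 1) / ε ≤ k := by
    rw [hk]; push_cast
    have := Nat.le_ceil (2 * Cs * c3 * (A + 1) / ε)
    have : (0 : ℝ) ≤ t := Nat.cast_nonneg t
    linarith
  have hk0 : (0 : ℝ) < k := by
    have : 0 < k := by omega
    exact_mod_cast this
  have hKw : w ^ 4 ≤ K := by rw [hK]; exact Nat.le_ceil _
  have hK1 : 1 ≤ K := by rw [hK]; exact Nat.ceil_pos.2 (by positivity)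
  have hbound : Cs * (c3 / k * (A + 1) + (A ^ 2 + 1) * (K : ℝ) ^ (-(1 / 4) : ℝ)) ≤ ε := by
    have h1 : Cs * (c3 / k * (A + 1)) ≤ ε / 2 := by
      have e1 : Cs * (c3 / k * (A + 1)) = (Cs * c3 * (A + 1)) / k := by ring
      rw [e1, div_le_iff₀ hk0]
      rw [div_le_iff₀ hε] at hk1
      linarith
    have h2 : (K : ℝ) ^ (-(1 / 4) : ℝ) ≤ w⁻¹ := by
      have h3 : (K : ℝ) ^ (-(1 / 4) : ℝ) ≤ (w ^ 4) ^ (-(1 / 4) : ℝ) := Real.rpow_le_rpow_of_nonpos (by positivity) hKw (by norm_num)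
      have h4 : (w ^ 4) ^ (-(1 / 4) : ℝ) = w⁻¹ := by
        rw [← Real.rpow_natCast w 4, ← Real.rpow_mul (by linarith), ← Real.rpow_neg_one w]
        norm_num
      rw [← h4]
      exact h3
    have h5 : Cs * ((A ^ 2 + 1) * (K : ℝ) ^ (-(1 / 4) : ℝ)) ≤ ε / 2 := by
      have h6 : Cs * ((A ^ 2 + 1) * (K : ℝ) ^ (-(1 / 4) : ℝ)) ≤ Cs * ((A ^ 2 + 1) * w⁻¹) := by
        apply mul_le_mul_of_nonneg_left _ hCs
        exact mul_le_mul_of_nonneg_left h2 (by positivity)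
      refine h6.trans ?_
      have e1 : Cs * ((A ^ 2 + 1) * w⁻¹) = (Cs * (A ^ 2 + 1)) / w := by rw [div_eq_mul_inv]; ring
      rw [e1, div_le_iff₀ (by linarith), hw]
      have e2 : ε / 2 * (2 * Cs * (A ^ 2 + 1) / ε + 1) = Cs * (A ^ 2 + 1) + ε / 2 := by field_simp
      rw [e2]
      linarith
    rw [mul_add]
    linarith
  obtain ⟨n1, h1⟩ := RR_main t k K (by omega)
  obtain ⟨n2, h2⟩ := ev_log 1
  refine ⟨k, K, by omega, hK1, n1 + n2 + 1, fun N hN z hz H hH => ?_⟩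
  have a1 := h1 N (by omega)
  have a2 := h2 N (by omega)
  obtain ⟨L, hL⟩ : ∃ L, L = Real.log N := ⟨_, rfl⟩
  have hΛ : 0 ≤ L ^ (t + 1) := by rw [hL]; positivity
  have hF : (1 : ℝ) ≤ (((t + 1).factorial : ℕ) : ℝ) := by exact_mod_cast Nat.one_le_iff_ne_zero.2 (Nat.factorial_ne_zero _)
  have hf0 : 0 ≤ L ^ (t + 1) / (((t + 1).factorial : ℕ) : ℝ) := by positivity
  have hf1 : L ^ (t + 1) / (((t + 1).factorial : ℕ) : ℝ) ≤ L ^ (t + 1) := div_le_self hΛ hF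
  have hD : N / yk k N ≤ N := Nat.div_le_self _ _
  have hfin : ∀ W : ℕ → ℝ, (∀ d, 0 ≤ W d) → (∀ d, W d ≤ (t + 2) * dk (t + 1) d) →
      (∀ q ∈ Icc 1 K, |RR W (N / yk k N) q - kap (t + 1) q * (Real.log N ^ (t + 1) / ((t + 1).factorial : ℕ))| ≤
        (3 + (t + 1) * 2 ^ (t + 1)) / k * ((dk (t + 1) q : ℝ) / q) * Real.log N ^ (t + 1)) →
      |∑ q ∈ Icc 1 z, RR W (N / yk k N) q * RR W (N / yk k N) q * (cz q (H : ℤ) : ℝ) -
      Sing (t + 1) H * (Real.log N ^ (t + 1) / ((t + 1).factorial : ℕ)) ^ 2| ≤ ε * (sg H * (Real.log N ^ (t + 1)) ^ 2) := by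
    intro W hW0 hW hq
    have h3 := hcmp H hH K z hK1 hz (fun q => RR W (N / yk k N) q) A (c3 / k) (L ^ (t + 1)) (L ^ (t + 1) / (((t + 1).factorial : ℕ) : ℝ)) hA0
      (by positivity) hΛ hf0 hf1 (fun q _ => RR_nonneg W _ q hW0) (by
        intro q hq
        rw [mem_Icc] at hq
        rw [hA, hL]
        exact RR_up t N _ q W hW0 hW hq.1 hD a2) (by
        intro q hq'
        rw [hc3, hL]
        exact hq q hq')
    rw [← hL]
    refine h3.trans ?_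
    exact mul_le_mul_of_nonneg_right hbound (mul_nonneg (sg_nonneg H) (by positivity))
  exact ⟨hfin (WL t) (WL_nonneg t) (WL_le t) fun q hq => (a1 q hq).1, hfin (WU (yk k N) t) (WU_nonneg _ t) (WU_le _ t) fun q hq => (a1 q hq).2⟩

/-- from the divisor sums to the divisor functions -/
lemma single (t E k : ℕ) (hk : 2 * (t + 2) ≤ k) : ∃ N₀ : ℕ, ∀ N : ℕ, N₀ ≤ N → ∀ z : ℕ, 1 ≤ z → (z : ℝ) ≤ Real.log N ^ E → ∀ X : ℕ, X ≤ N →
    ∀ h : ℤ, 0 < h → (X : ℤ) + h ≤ N → ∀ T G : ℝ,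
    |∑ q ∈ Icc 1 z, RR (WL t) (N / yk k N) q * RR (WL t) (N / yk k N) q * (cz q h : ℝ) - T| ≤ G →
    |∑ q ∈ Icc 1 z, RR (WU (yk k N) t) (N / yk k N) q * RR (WU (yk k N) t) (N / yk k N) q * (cz q h : ℝ) - T| ≤ G →
    |∑ n ∈ Icc 1 X, (FF (WL t) (N / yk k N) n * FF (WL t) (N / yk k N) ((n : ℤ) + h).toNat -
      MM (WL t) (N / yk k N) z n * MM (WL t) (N / yk k N) z ((n : ℤ) + h))| ≤ N →
    |∑ n ∈ Icc 1 X, (FF (WU (yk k N) t) (N / yk k N) n * FF (WU (yk k N) t) (N / yk k N) ((n : ℤ) + h).toNat -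
      MM (WU (yk k N) t) (N / yk k N) z n * MM (WU (yk k N) t) (N / yk k N) z ((n : ℤ) + h))| ≤ N →
    |DD (t + 2) X h - X * T| ≤ 3 * N + X * G := by
  obtain ⟨C, hC1, hC⟩ := dk_eps (t + 2) (1 / 8) (by norm_num)
  obtain ⟨n1, h1⟩ := ev_pow (E * (2 * t + 8) + (2 * t + 2)) ((t + 2) ^ 2 * 2 ^ (2 * t + 2)) 1 one_pos
  obtain ⟨n2, h2⟩ := ev_pow 0 (2 ^ (t + 2) * C ^ 2) (1 / 4) (by norm_num)
  obtain ⟨n3, h3⟩ := ev_log 1
  refine ⟨n1 + n2 + n3 + 1, fun N hN z hz hzE X hX h hh hXh T G g1 g2 g3 g4 => ?_⟩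
  have a1 := h1 N (by omega)
  have a2 := h2 N (by omega)
  have a3 := h3 N (by omega)
  have hN1 : 1 ≤ N := by omega
  have hN0 : (0 : ℝ) < N := by exact_mod_cast hN1
  have hN1' : (1 : ℝ) ≤ N := by exact_mod_cast hN1
  rw [Real.rpow_one] at a1
  rw [pow_zero, mul_one] at a2
  obtain ⟨L, hL⟩ : ∃ L, L = Real.log N := ⟨_, rfl⟩
  rw [← hL] at a1 hzE a3
  have hL0 : 0 ≤ L := by linarith
  obtain ⟨D, hD⟩ : ∃ D, D = N / yk k N := ⟨_, rfl⟩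
  obtain ⟨y, hy⟩ : ∃ y, y = yk k N := ⟨_, rfl⟩
  rw [← hD] at g1 g2 g3 g4
  rw [← hy] at g2 g4
  have hDN : D ≤ N := by rw [hD]; exact Nat.div_le_self _ _
  have hz1 : (1 : ℝ) ≤ z := by exact_mod_cast hz
  -- both weights
  have key : ∀ W : ℕ → ℝ, (∀ d, 0 ≤ W d) → (∀ d, W d ≤ (t + 2) * dk (t + 1) d) →
      |∑ q ∈ Icc 1 z, RR W D q * RR W D q * (cz q h : ℝ) - T| ≤ G →
      |∑ n ∈ Icc 1 X, (FF W D n * FF W D ((n : ℤ) + h).toNat - MM W D z n * MM W D z ((n : ℤ) + h))| ≤ N →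
      |∑ n ∈ Icc 1 X, FF W D n * FF W D ((n : ℤ) + h).toNat - X * T| ≤ 2 * N + X * G := by
    intro W hW0 hW w1 w2
    obtain ⟨ρ, hρ⟩ : ∃ ρ : ℝ, ρ = (t + 2) * 2 ^ (t + 1) * (z : ℝ) ^ (t + 1) * L ^ (t + 1) := ⟨_, rfl⟩
    have hρ0 : 0 ≤ ρ := by rw [hρ]; positivity
    have hRR : ∀ q ∈ Icc 1 z, |RR W D q| ≤ ρ := by
      intro q hq
      rw [mem_Icc] at hq
      have hq1 : (1 : ℝ) ≤ q := by exact_mod_cast hq.1
      have hqz : (q : ℝ) ≤ z := by exact_mod_cast hq.2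
      rw [abs_of_nonneg (RR_nonneg W D q hW0)]
      refine (RR_up t N D q W hW0 hW hq.1 hDN (by rw [← hL]; exact a3)).trans ?_
      rw [← hL, hρ]
      apply mul_le_mul_of_nonneg_right _ (by positivity)
      apply mul_le_mul_of_nonneg_left _ (by positivity)
      have h5 : (dk (t + 1) q : ℝ) ≤ (q : ℝ) ^ (t + 1) := by
        have := (dk_le_tau (t + 1) q).trans (Nat.pow_le_pow_left (Nat.card_divisors_le_self q) (t + 1))
        exact_mod_cast this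
      calc (dk (t + 1) q : ℝ) / q ≤ dk (t + 1) q := div_le_self (Nat.cast_nonneg _) hq1
        _ ≤ (q : ℝ) ^ (t + 1) := h5
        _ ≤ (z : ℝ) ^ (t + 1) := pow_le_pow_left₀ (by linarith) hqz _
    have h6 := model_corr W W D D z X hz h ρ hρ0 hRR hRR
    have h7 : (z : ℝ) ^ 6 * ρ ^ 2 ≤ N := by
      have e1 : (z : ℝ) ^ 6 * ρ ^ 2 = ((t + 2) ^ 2 * 2 ^ (2 * t + 2)) * ((z : ℝ) ^ (2 * t + 8) * L ^ (2 * t + 2)) := by
        rw [hρ]; ring
      rw [e1]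
      refine le_trans ?_ a1
      apply mul_le_mul_of_nonneg_left _ (by positivity)
      calc (z : ℝ) ^ (2 * t + 8) * L ^ (2 * t + 2) ≤ (L ^ E) ^ (2 * t + 8) * L ^ (2 * t + 2) := by
            apply mul_le_mul_of_nonneg_right _ (by positivity)
            exact pow_le_pow_left₀ (by linarith) hzE _
        _ = L ^ (E * (2 * t + 8) + (2 * t + 2)) := by rw [← pow_mul, ← pow_add]
    rw [sum_sub_distrib] at w2
    have hX0 : (0 : ℝ) ≤ X := Nat.cast_nonneg X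
    have w3 : |(X : ℝ) * ∑ q ∈ Icc 1 z, RR W D q * RR W D q * (cz q h : ℝ) - X * T| ≤ X * G := by
      rw [← mul_sub, abs_mul, abs_of_nonneg hX0]
      exact mul_le_mul_of_nonneg_left w1 hX0
    rw [abs_le] at w2 w3 h6 ⊢
    constructor <;> linarith [w2.1, w2.2, w3.1, w3.2, h6.1, h6.2]
  have kL := key (WL t) (WL_nonneg t) (WL_le t) g1 g3
  have kU := key (WU y t) (WU_nonneg y t) (WU_le y t) g2 g4
  -- lower bound
  have low : ∑ n ∈ Icc 1 X, FF (WL t) D n * FF (WL t) D ((n : ℤ) + h).toNat ≤ DD (t + 2) X h := by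
    unfold DD
    apply sum_le_sum
    intro n hn
    rw [mem_Icc] at hn
    have b1 : 1 ≤ ((n : ℤ) + h).toNat := by omega
    exact mul_le_mul (FF_lower t D n hn.1) (FF_lower t D _ b1) (sum_nonneg fun d _ => WL_nonneg t d) (Nat.cast_nonneg _)
  have up : DD (t + 2) X h ≤ ∑ n ∈ Icc 1 X, FF (WU y t) D n * FF (WU y t) D ((n : ℤ) + h).toNat + N := by
    have hy1 : 1 ≤ y := by rw [hy]; exact yk_pos k N hN1
    have b2 : ∀ m : ℕ, 1 ≤ m → m ≤ N → (dk (t + 2) m : ℝ) ≤ C * (N : ℝ) ^ (1 / 8 : ℝ) := by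
      intro m hm hmN
      refine (hC m hm).trans ?_
      apply mul_le_mul_of_nonneg_left _ (by linarith)
      exact Real.rpow_le_rpow (Nat.cast_nonneg _) (by exact_mod_cast hmN) (by norm_num)
    have b3 : DD (t + 2) X h ≤ ∑ n ∈ Icc 1 X, (FF (WU y t) D n * FF (WU y t) D ((n : ℤ) + h).toNat +
        if n < y ^ (t + 2) then C ^ 2 * (N : ℝ) ^ (1 / 4 : ℝ) else 0) := by
      unfold DD
      apply sum_le_sum
      intro n hn
      rw [mem_Icc] at hn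
      have c1 : 1 ≤ ((n : ℤ) + h).toNat := by omega
      have c2 : ((n : ℤ) + h).toNat ≤ N := by omega
      have c4 : 0 ≤ FF (WU y t) D n := sum_nonneg fun d _ => WU_nonneg y t d
      have c5 : 0 ≤ FF (WU y t) D ((n : ℤ) + h).toNat := sum_nonneg fun d _ => WU_nonneg y t d
      split_ifs with hlt
      · have c6 := b2 n hn.1 (by omega)
        have c7 := b2 _ c1 c2
        have c8 : (dk (t + 2) n : ℝ) * dk (t + 2) ((n : ℤ) + h).toNat ≤ (C * (N : ℝ) ^ (1 / 8 : ℝ)) * (C * (N : ℝ) ^ (1 / 8 : ℝ)) :=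
          mul_le_mul c6 c7 (Nat.cast_nonneg _) (by positivity)
        have e1 : (C * (N : ℝ) ^ (1 / 8 : ℝ)) * (C * (N : ℝ) ^ (1 / 8 : ℝ)) = C ^ 2 * (N : ℝ) ^ (1 / 4 : ℝ) := by
          have : (N : ℝ) ^ (1 / 4 : ℝ) = (N : ℝ) ^ (1 / 8 : ℝ) * (N : ℝ) ^ (1 / 8 : ℝ) := by
            rw [← Real.rpow_add hN0]; norm_num
          rw [this]; ring
        have c9 : 0 ≤ FF (WU y t) D n * FF (WU y t) D ((n : ℤ) + h).toNat := mul_nonneg c4 c5
        linarith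
      · push Not at hlt
        rw [add_zero]
        have d1 := FF_upper t N y n hy1 hlt (by omega)
        have d2 := FF_upper t N y ((n : ℤ) + h).toNat hy1 (by omega) c2
        rw [hy, ← hD, ← hy] at d1 d2
        exact mul_le_mul d1 d2 (Nat.cast_nonneg _) c4
    rw [sum_add_distrib] at b3
    refine b3.trans ?_
    gcongr
    rw [← sum_filter, sum_const, nsmul_eq_mul]
    have hcard : (((Icc 1 X).filter (fun n => n < y ^ (t + 2))).card : ℝ) ≤ (y : ℝ) ^ (t + 2) := by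
      have : ((Icc 1 X).filter (fun n => n < y ^ (t + 2))).card ≤ (range (y ^ (t + 2))).card := by
        apply card_le_card
        intro n hn
        rw [mem_filter] at hn
        rw [mem_range]
        exact hn.2
      rw [card_range] at this
      exact_mod_cast this
    have hyN : (y : ℝ) ^ (t + 2) ≤ 2 ^ (t + 2) * (N : ℝ) ^ (1 / 2 : ℝ) := by
      have e1 : (y : ℝ) ≤ 2 * (N : ℝ) ^ ((1 : ℝ) / k) := by rw [hy]; exact yk_le k N hN1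
      have e2 : (y : ℝ) ^ (t + 2) ≤ (2 * (N : ℝ) ^ ((1 : ℝ) / k)) ^ (t + 2) := pow_le_pow_left₀ (Nat.cast_nonneg _) e1 _
      refine e2.trans ?_
      rw [mul_pow]
      apply mul_le_mul_of_nonneg_left _ (by positivity)
      rw [← Real.rpow_natCast ((N : ℝ) ^ ((1 : ℝ) / k)), ← Real.rpow_mul hN0.le]
      apply Real.rpow_le_rpow_of_exponent_le hN1'
      have hk0 : (0 : ℝ) < k := by exact_mod_cast (by omega : 0 < k)
      have hk' : 2 * ((t : ℝ) + 2) ≤ k := by exact_mod_cast hk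
      push_cast
      rw [div_mul_eq_mul_div, one_mul, div_le_div_iff₀ hk0 (by norm_num)]
      linarith
    have e3 : (0 : ℝ) ≤ C ^ 2 * (N : ℝ) ^ (1 / 4 : ℝ) := by positivity
    calc (((Icc 1 X).filter (fun n => n < y ^ (t + 2))).card : ℝ) * (C ^ 2 * (N : ℝ) ^ (1 / 4 : ℝ))
        ≤ (2 ^ (t + 2) * (N : ℝ) ^ (1 / 2 : ℝ)) * (C ^ 2 * (N : ℝ) ^ (1 / 4 : ℝ)) := mul_le_mul_of_nonneg_right (hcard.trans hyN) e3
      _ = (2 ^ (t + 2) * C ^ 2) * ((N : ℝ) ^ (1 / 2 : ℝ) * (N : ℝ) ^ (1 / 4 : ℝ)) := by ring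
      _ ≤ (N : ℝ) ^ (1 / 4 : ℝ) * ((N : ℝ) ^ (1 / 2 : ℝ) * (N : ℝ) ^ (1 / 4 : ℝ)) := mul_le_mul_of_nonneg_right a2 (by positivity)
      _ = N := by
        rw [← Real.rpow_add hN0, ← Real.rpow_add hN0]
        norm_num
  rw [abs_le] at kL kU ⊢
  constructor <;> linarith [kL.1, kL.2, kU.1, kU.2]

end Pool.Agent.TH212.DV
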