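import Pool.Agent.TH212.DV.C14

set_option autoImplicit false

/-! Correlations of the divisor functions along thin families of shifts: almost all members. -/

namespace Pool.Agent.TH212.DV
open Finset
open Pool.Agent.TH212.PL (En)

lemma sing_le (t : ℕ) : ∃ Cs : ℝ, 0 ≤ Cs ∧ ∀ H : ℕ, 1 ≤ H → |Sing (t + 1) H| ≤ Cs * sg H := by
  obtain ⟨C1, hC1, h1⟩ := cz_sums t
  obtain ⟨C2, hC2, h2⟩ := sing_tail t
  refine ⟨C1 + C2, by positivity, fun H hH => ?_⟩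
  have h3 := h2 H hH 1 le_rfl
  rw [Nat.cast_one, Real.one_rpow, mul_one] at h3
  have h4 : |∑ q ∈ Icc 1 1, kap (t + 1) q ^ 2 * (cz q (H : ℤ) : ℝ)| ≤ C1 * sg H := by
    refine (abs_sum_le_sum_abs _ _).trans ?_
    refine (sum_le_sum fun q _ => kap_sq_le t q H).trans ?_
    exact (h1 H hH 1).1
  rw [abs_le] at h3 h4 ⊢
  constructor <;> nlinarith [h3.1, h3.2, h4.1, h4.2]

lemma pow_conv (L l lB η : ℝ) (s : ℕ) (hs0 : 1 ≤ s) (hl2 : 2 ≤ l) (hlL : l ≤ L) (hL : L = lB + l) (hlB : 0 ≤ lB) (hlB2 : lB ≤ l) (hη0 : 0 < η)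
    (hb : 2 * (s : ℝ) * 2 ^ (2 * s) * lB / η ≤ l) : L ^ (2 * s) - l ^ (2 * s) ≤ η * l ^ (2 * s) := by
  have c1 := (pow_diff L l (by linarith) hlL (2 * s - 1)).2
  have e1 : 2 * s - 1 + 1 = 2 * s := by omega
  rw [e1] at c1
  have e2 : (((2 * s - 1 : ℕ) : ℝ) + 1) = 2 * s := by
    have : ((2 * s - 1 + 1 : ℕ) : ℝ) = ((2 * s : ℕ) : ℝ) := by rw [e1]
    push_cast at this ⊢
    exact this
  rw [e2] at c1
  have c2 : L ≤ 2 * l := by linarith
  have c3 : L ^ (2 * s - 1) ≤ (2 * l) ^ (2 * s - 1) := pow_le_pow_left₀ (by linarith) c2 _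
  have c4 : L - l = lB := by linarith
  rw [c4] at c1
  refine c1.trans ?_
  have c5 : 2 * (s : ℝ) * 2 ^ (2 * s) * lB ≤ η * l := by
    rw [div_le_iff₀ hη0] at hb
    linarith
  have c6 : (2 * l) ^ (2 * s - 1) ≤ 2 ^ (2 * s) * l ^ (2 * s - 1) := by
    rw [mul_pow]
    apply mul_le_mul_of_nonneg_right _ (by positivity)
    exact pow_le_pow_right₀ (by norm_num) (by omega)
  have c7 : 2 * (s : ℝ) * (L ^ (2 * s - 1) * lB) ≤ 2 * (s : ℝ) * ((2 ^ (2 * s) * l ^ (2 * s - 1)) * lB) := by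
    apply mul_le_mul_of_nonneg_left _ (by positivity)
    exact mul_le_mul_of_nonneg_right (c3.trans c6) hlB
  refine c7.trans ?_
  have e3 : l ^ (2 * s) = l * l ^ (2 * s - 1) := by
    rw [← pow_succ']
    congr 1
    omega
  rw [e3]
  have c8 := mul_le_mul_of_nonneg_right c5 (by positivity : 0 ≤ l ^ (2 * s - 1))
  linarith

lemma conv_final (D x X S g P Q F ε η CS N B : ℝ) (hε : 0 < ε) (hη0 : 0 < η) (hη1 : η ≤ 1) (hη2 : η * (8 * (CS + 1)) ≤ ε) (hCS : 0 ≤ CS)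
    (hF1 : 1 ≤ F) (hS : |S| ≤ CS * g) (hg : 1 ≤ g) (hX0 : 0 < X) (hx0 : 0 ≤ x) (hx2 : x ≤ 2 * X) (hP0 : 0 < P) (hPQ : P ≤ Q)
    (hQP : Q - P ≤ η * P) (hN : N = (B + 2) * X) (hc : 12 * (B + 2) / ε ≤ P)
    (m2 : |D - x * (S * Q / F ^ 2)| ≤ 3 * N + x * (ε / 8 * (g * Q))) : |D - x * (S * P / F ^ 2)| ≤ ε * (g * X * P) := by
  have hd0 : 0 ≤ (Q - P) / F ^ 2 := div_nonneg (by linarith) (by positivity)
  have q1 : |x * (S * Q / F ^ 2) - x * (S * P / F ^ 2)| ≤ ε / 4 * (g * X * P) := by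
    have e1 : x * (S * Q / F ^ 2) - x * (S * P / F ^ 2) = x * (S * ((Q - P) / F ^ 2)) := by ring
    rw [e1, abs_mul, abs_mul, abs_of_nonneg hx0, abs_of_nonneg hd0]
    have c1 : (Q - P) / F ^ 2 ≤ η * P := (div_le_self (by linarith) (one_le_pow₀ hF1)).trans hQP
    have c2 : |S| * ((Q - P) / F ^ 2) ≤ (CS * g) * (η * P) := mul_le_mul hS c1 hd0 (by positivity)
    have c3 : x * (|S| * ((Q - P) / F ^ 2)) ≤ (2 * X) * ((CS * g) * (η * P)) :=
      mul_le_mul hx2 c2 (mul_nonneg (abs_nonneg _) hd0) (by positivity)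
    refine c3.trans ?_
    have c4 : CS * η ≤ ε / 8 := by linarith
    have c5 : 0 ≤ g * X * P := by positivity
    have c6 := mul_le_mul_of_nonneg_right c4 c5
    linarith
  have q2 : 3 * N ≤ ε / 4 * (g * X * P) := by
    rw [hN]
    rw [div_le_iff₀ hε] at hc
    have c2 : 12 * (B + 2) * X ≤ P * ε * X := mul_le_mul_of_nonneg_right hc hX0.le
    have c3 : P * ε * X ≤ P * ε * X * g := le_mul_of_one_le_right (by positivity) hg
    linarith
  have q3 : x * (ε / 8 * (g * Q)) ≤ ε / 2 * (g * X * P) := by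
    have c0 : η * P ≤ 1 * P := mul_le_mul_of_nonneg_right hη1 hP0.le
    have c1 : Q ≤ 2 * P := by linarith
    have c2 : ε / 8 * (g * Q) ≤ ε / 8 * (g * (2 * P)) := by
      apply mul_le_mul_of_nonneg_left _ (by positivity)
      exact mul_le_mul_of_nonneg_left c1 (by linarith)
    have hQ0 : 0 ≤ Q := by linarith
    have c3 : x * (ε / 8 * (g * Q)) ≤ (2 * X) * (ε / 8 * (g * (2 * P))) :=
      mul_le_mul hx2 c2 (by positivity) (by positivity)
    linarith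
  have q4 := abs_sub_le D (x * (S * Q / F ^ 2)) (x * (S * P / F ^ 2))
  linarith

open Classical in
theorem corr_fixed (t p B C U : ℕ) (ε : ℝ) (hε : 0 < ε) : ∃ X₀ : ℕ, ∀ X : ℕ, X₀ ≤ X → ∀ (ι : Type) [Fintype ι] (v : ι → ℤ),
    (∀ i, |v i| ≤ B * X) → (En p v : ℝ) * X ≤ Real.log X ^ C * (Fintype.card ι : ℝ) ^ (2 * p) → ∀ x : ℕ, x ≤ 2 * X →
    ((univ.filter (fun i : ι => 0 < v i ∧ ε * (sg (v i).toNat * X * Real.log X ^ (2 * (t + 1))) <
      |DD (t + 2) x (v i) - x * (Sing (t + 1) (v i).toNat * Real.log X ^ (2 * (t + 1)) / ((t + 1).factorial : ℕ) ^ 2)|)).card : ℝ) ≤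
      Fintype.card ι / Real.log X ^ U := by
  obtain ⟨k, K, hk, hK, n1, h1⟩ := main_terms t (ε / 8) (by positivity)
  obtain ⟨B0, hB0⟩ := prod_fam p B (C + 1) t k (U + 1) (by omega)
  obtain ⟨E, hE⟩ : ∃ E, E = B0 + 2 := ⟨_, rfl⟩
  obtain ⟨n2, h2⟩ := hB0 E
  obtain ⟨n3, h3⟩ := single t E k hk
  obtain ⟨CS, hCS, hS⟩ := sing_le t
  obtain ⟨η, hη⟩ : ∃ η : ℝ, η = min 1 (ε / (8 * (CS + 1))) := ⟨_, rfl⟩
  have hη0 : 0 < η := by rw [hη]; apply lt_min one_pos; positivity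
  have hη1 : η ≤ 1 := by rw [hη]; exact min_le_left _ _
  have hη2 : η * (8 * (CS + 1)) ≤ ε := by
    have : η ≤ ε / (8 * (CS + 1)) := by rw [hη]; exact min_le_right _ _
    rwa [le_div_iff₀ (by positivity)] at this
  obtain ⟨lB, hlB⟩ : ∃ lB, lB = Real.log (B + 2) := ⟨_, rfl⟩
  have hlB0 : 0 ≤ lB := by rw [hlB]; apply Real.log_nonneg; have : (0 : ℝ) ≤ B := Nat.cast_nonneg B; linarith
  obtain ⟨s, hs⟩ : ∃ s : ℕ, s = t + 1 := ⟨_, rfl⟩
  obtain ⟨n4, h4⟩ := ev_log (2 + K + lB + B + 12 * (B + 2) / ε + 2 * s * 2 ^ (2 * s) * lB / η)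
  refine ⟨n1 + n2 + n3 + n4 + 1, fun X hX ι _ v hv hEn x hx => ?_⟩
  obtain ⟨N, hN⟩ : ∃ N, N = (B + 2) * X := ⟨_, rfl⟩
  have hX1 : 1 ≤ X := by omega
  have hXN : X ≤ N := by rw [hN]; nlinarith
  obtain ⟨L, hL⟩ : ∃ L, L = Real.log N := ⟨_, rfl⟩
  obtain ⟨l, hl⟩ : ∃ l, l = Real.log X := ⟨_, rfl⟩
  have a4 := h4 X (by omega)
  have hB0' : (0 : ℝ) ≤ B := Nat.cast_nonneg B
  have hK0' : (0 : ℝ) ≤ K := Nat.cast_nonneg K
  have b1 : 0 ≤ 12 * ((B : ℝ) + 2) / ε := by positivity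
  have b2 : 0 ≤ 2 * (s : ℝ) * 2 ^ (2 * s) * lB / η := by positivity
  rw [← hl] at a4
  have hl2 : 2 ≤ l := by linarith
  have hX0 : (0 : ℝ) < X := by exact_mod_cast hX1
  have hN0 : (0 : ℝ) < N := lt_of_lt_of_le hX0 (by exact_mod_cast hXN)
  have hNe : (N : ℝ) = (B + 2) * X := by rw [hN]; push_cast; ring
  have hLl : L = lB + l := by
    rw [hL, hNe, Real.log_mul (by positivity) hX0.ne', hlB, hl]
  have hlL : l ≤ L := by linarith
  have hL1 : 2 ≤ L := by linarith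
  -- the parameter z
  obtain ⟨z, hz⟩ : ∃ z : ℕ, z = ⌈L ^ (B0 + 1)⌉₊ := ⟨_, rfl⟩
  have hzge : L ^ (B0 + 1) ≤ z := by rw [hz]; exact Nat.le_ceil _
  have hzL : L ≤ z := by
    refine le_trans ?_ hzge
    calc L = L ^ 1 := (pow_one L).symm
      _ ≤ L ^ (B0 + 1) := pow_le_pow_right₀ (by linarith) (by omega)
  have hzB : L ^ B0 ≤ z := le_trans (pow_le_pow_right₀ (by linarith) (by omega)) hzge
  have hzK : K ≤ z := by
    have : (K : ℝ) ≤ z := by linarith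
    exact_mod_cast this
  have hzE : (z : ℝ) ≤ L ^ E := by
    have h5 : (z : ℝ) < L ^ (B0 + 1) + 1 := by rw [hz]; exact Nat.ceil_lt_add_one (by positivity)
    have h6 : 1 ≤ L ^ (B0 + 1) := one_le_pow₀ (by linarith)
    have h7 : L ^ E = L * L ^ (B0 + 1) := by rw [hE]; ring
    rw [h7]
    nlinarith
  have hz1 : 1 ≤ z := hK.trans hzK
  -- the hypotheses
  have hv' : ∀ i, |v i| ≤ B * N := by
    intro i
    refine (hv i).trans ?_
    have : (X : ℤ) ≤ N := by exact_mod_cast hXN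
    have hB' : (0 : ℤ) ≤ B := Int.natCast_nonneg B
    nlinarith
  have hcn : 0 ≤ (Fintype.card ι : ℝ) ^ (2 * p) := by positivity
  have hEn' : (En p v : ℝ) * N ≤ Real.log N ^ (C + 1) * (Fintype.card ι : ℝ) ^ (2 * p) := by
    rw [← hL, hNe]
    have h5 : (B : ℝ) + 2 ≤ L := by linarith
    have h6 : l ^ C ≤ L ^ C := pow_le_pow_left₀ (by linarith) hlL _
    rw [← hl] at hEn
    calc (En p v : ℝ) * ((B + 2) * X) = ((B : ℝ) + 2) * ((En p v : ℝ) * X) := by ring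
      _ ≤ (B + 2) * (l ^ C * (Fintype.card ι : ℝ) ^ (2 * p)) := mul_le_mul_of_nonneg_left hEn (by positivity)
      _ ≤ L * (L ^ C * (Fintype.card ι : ℝ) ^ (2 * p)) := by
          apply mul_le_mul h5 (mul_le_mul_of_nonneg_right h6 hcn) (by positivity) (by linarith)
      _ = _ := by ring
  have hxv : ∀ i, (x : ℤ) + v i ≤ N := by
    intro i
    have h5 := (abs_le.1 (hv i)).2
    have h6 : (x : ℤ) ≤ 2 * X := by exact_mod_cast hx
    have h7 : (N : ℤ) = (B + 2) * X := by rw [hN]; push_cast; ring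
    rw [h7]
    linarith
  have hxN : x ≤ N := by rw [hN]; nlinarith
  have hsum := h2 N (by omega) ι v hv' hEn' z (by rw [← hL]; exact hzB) (by rw [← hL]; exact hzE) x hxv hxN
  obtain ⟨D, hD⟩ : ∃ D, D = N / yk k N := ⟨_, rfl⟩
  obtain ⟨err, herr⟩ : ∃ err : (ℕ → ℝ) → ι → ℝ, err = fun W i => ∑ n ∈ Icc 1 x, (FF W D n * FF W D ((n : ℤ) + v i).toNat -
      MM W D z n * MM W D z ((n : ℤ) + v i)) := ⟨_, rfl⟩
  have hmark : ∀ W : ℕ → ℝ, (∀ d, 0 ≤ W d) → (∀ d, W d ≤ (t + 2) * dk (t + 1) d) →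
      ((univ.filter (fun i : ι => 0 < v i ∧ (N : ℝ) ≤ |err W i|)).card : ℝ) ≤ (N * Fintype.card ι / L ^ (U + 1)) / N := by
    intro W hW0 hW
    apply Pool.Agent.TH212.PL.markov (fun i : ι => 0 < v i ∧ (N : ℝ) ≤ |err W i|) (fun i => if 0 < v i then |err W i| else 0) N _ hN0
    · intro i hi
      rw [if_pos hi.1]
      exact hi.2
    · intro i
      split_ifs
      · exact abs_nonneg _
      · exact le_rfl
    · rw [← sum_filter, herr, hL, hD]
      exact hsum W W hW0 hW hW0 hW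
  have mL := hmark (WL t) (WL_nonneg t) (WL_le t)
  have mU := hmark (WU (yk k N) t) (WU_nonneg _ t) (WU_le _ t)
  have hsub : univ.filter (fun i : ι => 0 < v i ∧ ε * (sg (v i).toNat * X * Real.log X ^ (2 * (t + 1))) <
      |DD (t + 2) x (v i) - x * (Sing (t + 1) (v i).toNat * Real.log X ^ (2 * (t + 1)) / ((t + 1).factorial : ℕ) ^ 2)|) ⊆
      univ.filter (fun i : ι => 0 < v i ∧ (N : ℝ) ≤ |err (WL t) i|) ∪ univ.filter (fun i : ι => 0 < v i ∧ (N : ℝ) ≤ |err (WU (yk k N) t) i|) := by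
    intro i hi
    rw [mem_filter] at hi
    rw [mem_union, mem_filter, mem_filter]
    obtain ⟨_, hi0, hbig⟩ := hi
    by_contra hcon
    push Not at hcon
    have g3 := (hcon.1 (mem_univ _) hi0).le
    have g4 := (hcon.2 (mem_univ _) hi0).le
    rw [herr, hD] at g3 g4
    simp only at g3 g4
    obtain ⟨H, hH⟩ : ∃ H : ℕ, H = (v i).toNat := ⟨_, rfl⟩
    have hHv : (H : ℤ) = v i := by rw [hH]; exact Int.toNat_of_nonneg hi0.le
    have hH1 : 1 ≤ H := by omega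
    have m1 := h1 N (by omega) z hzK H hH1
    rw [hHv] at m1
    rw [← hL] at m1
    obtain ⟨T, hT⟩ : ∃ T : ℝ, T = Sing (t + 1) H * (L ^ (t + 1) / ((t + 1).factorial : ℕ)) ^ 2 := ⟨_, rfl⟩
    rw [← hT] at m1
    have m2 := h3 N (by omega) z hz1 (by rw [← hL]; exact hzE) x hxN (v i) hi0 (hxv i) T _ m1.1 m1.2 g3 g4
    rw [← hH, ← hl] at hbig
    have hsg1 := one_le_sg H hH1
    have hSing := hS H hH1
    obtain ⟨F, hF⟩ : ∃ F : ℝ, F = (((t + 1).factorial : ℕ) : ℝ) := ⟨_, rfl⟩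
    have hF1 : 1 ≤ F := by rw [hF]; exact_mod_cast Nat.one_le_iff_ne_zero.2 (Nat.factorial_ne_zero _)
    rw [← hF] at hbig hT
    rw [← hs] at hbig hT m2
    have hx2 : (x : ℝ) ≤ 2 * X := by exact_mod_cast hx
    have hx0 : (0 : ℝ) ≤ x := Nat.cast_nonneg x
    -- powers of logarithms
    have hs1 : 1 ≤ 2 * s := by omega
    have hpow : L ^ (2 * s) - l ^ (2 * s) ≤ η * l ^ (2 * s) :=
      pow_conv L l lB η s (by omega) hl2 hlL hLl hlB0 (by linarith) hη0 (by linarith)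
    have hl2s : l ≤ l ^ (2 * s) := by
      calc l = l ^ 1 := (pow_one l).symm
        _ ≤ l ^ (2 * s) := pow_le_pow_right₀ (by linarith) hs1
    have hLL : l ^ (2 * s) ≤ L ^ (2 * s) := pow_le_pow_left₀ (by linarith) hlL _
    obtain ⟨P, hP⟩ : ∃ P : ℝ, P = l ^ (2 * s) := ⟨_, rfl⟩
    obtain ⟨Q, hQ⟩ : ∃ Q : ℝ, Q = L ^ (2 * s) := ⟨_, rfl⟩
    have eQ : (L ^ s) ^ 2 = Q := by rw [hQ, ← pow_mul, mul_comm s 2]
    have eT : T = Sing s H * Q / F ^ 2 := by rw [hT, div_pow, eQ]; ring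
    rw [eQ, eT] at m2
    rw [← hP] at hbig hpow hl2s hLL
    rw [← hQ] at hpow hLL
    rw [← hs] at hSing
    have hP0 : 0 < P := by linarith
    have hfin := conv_final (DD (t + 2) x (v i)) x X (Sing s H) (sg H) P Q F ε η CS N B hε hη0 hη1 hη2 hCS hF1 hSing hsg1 hX0 hx0 hx2 hP0 hLL hpow
      hNe (by linarith) m2
    exact absurd hfin (not_le.2 hbig)
  have hcard : ((univ.filter (fun i : ι => 0 < v i ∧ ε * (sg (v i).toNat * X * Real.log X ^ (2 * (t + 1))) <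
      |DD (t + 2) x (v i) - x * (Sing (t + 1) (v i).toNat * Real.log X ^ (2 * (t + 1)) / ((t + 1).factorial : ℕ) ^ 2)|)).card : ℝ) ≤
      ((univ.filter (fun i : ι => 0 < v i ∧ (N : ℝ) ≤ |err (WL t) i|)).card : ℝ) + ((univ.filter (fun i : ι => 0 < v i ∧ (N : ℝ) ≤ |err (WU (yk k N) t) i|)).card : ℝ) := by
    exact_mod_cast (card_le_card hsub).trans (card_union_le _ _)
  refine hcard.trans ?_
  rw [← hl]
  have e1 : (N * (Fintype.card ι : ℝ) / L ^ (U + 1)) / N = Fintype.card ι / L ^ (U + 1) := by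
    have : L ^ (U + 1) ≠ 0 := by positivity
    field_simp
  rw [e1] at mL mU
  have e2 : (Fintype.card ι : ℝ) / L ^ (U + 1) + Fintype.card ι / L ^ (U + 1) ≤ Fintype.card ι / l ^ U := by
    have c1 : (0 : ℝ) ≤ Fintype.card ι := Nat.cast_nonneg _
    have c2 : 0 < l ^ U := by positivity
    have c3 : 0 < L ^ U := by positivity
    have c4 : l ^ U ≤ L ^ U := pow_le_pow_left₀ (by linarith) hlL _
    have e3 : (Fintype.card ι : ℝ) / L ^ (U + 1) + Fintype.card ι / L ^ (U + 1) = 2 * Fintype.card ι / (L * L ^ U) := by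
      rw [pow_succ']; ring
    rw [e3]
    calc 2 * (Fintype.card ι : ℝ) / (L * L ^ U) ≤ L * Fintype.card ι / (L * L ^ U) := by
          apply div_le_div_of_nonneg_right _ (by positivity)
          exact mul_le_mul_of_nonneg_right hL1 c1
      _ = Fintype.card ι / L ^ U := by
          rw [mul_div_mul_left _ _ (by linarith : L ≠ 0)]
      _ ≤ _ := div_le_div_of_nonneg_left c1 c2 c4
  linarith

end Pool.Agent.TH212.DV
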