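import Pool.Agent.TH212.DV.C15

set_option autoImplicit false

/-! Correlations of the divisor functions along thin families of shifts: all lengths, both signs. -/

namespace Pool.Agent.TH212.DV
open Finset
open Pool.Agent.TH212.PL (En)

lemma DD_mono (r x y : ℕ) (hxy : x ≤ y) (h : ℤ) : DD r x h ≤ DD r y h := by
  unfold DD
  apply sum_le_sum_of_subset_of_nonneg
  · intro n hn
    rw [mem_Icc] at hn ⊢
    omega
  · intro n _ _
    positivity

lemma DD_neg (r x : ℕ) (h : ℤ) (hh : h < 0) : DD r x h = DD r ((x : ℤ) + h).toNat (-h) := by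
  unfold DD
  have h1 : ∑ n ∈ Icc 1 x, (dk r n : ℝ) * dk r ((n : ℤ) + h).toNat = ∑ n ∈ (Icc 1 x).filter (fun n : ℕ => 1 ≤ (n : ℤ) + h), (dk r n : ℝ) * dk r ((n : ℤ) + h).toNat := by
    rw [sum_filter]
    apply sum_congr rfl
    intro n _
    split_ifs with hc
    · rfl
    · have : ((n : ℤ) + h).toNat = 0 := by omega
      rw [this, ArithmeticFunction.map_zero]
      simp
  rw [h1]
  symm
  apply sum_bij (fun (m : ℕ) _ => ((m : ℤ) + -h).toNat)
  · intro m hm
    rw [mem_Icc] at hm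
    rw [mem_filter, mem_Icc]
    omega
  · intro n hn n' hn' h
    rw [mem_Icc] at hn hn'
    omega
  · intro n hn
    rw [mem_filter, mem_Icc] at hn
    refine ⟨((n : ℤ) + h).toNat, ?_, ?_⟩
    · rw [mem_Icc]; omega
    · omega
  · intro m hm
    rw [mem_Icc] at hm
    have : ((((m : ℤ) + -h).toNat : ℤ) + h).toNat = m := by omega
    rw [this]
    ring

lemma grid (D Da Db x a b w m g X P ε : ℝ) (h1 : Da ≤ D) (h2 : D ≤ Db) (ha : a ≤ x) (hax : x ≤ a + w) (hb : x ≤ b) (hbx : b ≤ x + w)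
    (hw : w * |m| ≤ ε / 2 * (g * X * P)) (ga : |Da - a * m| ≤ ε / 2 * (g * X * P)) (gb : |Db - b * m| ≤ ε / 2 * (g * X * P)) :
    |D - x * m| ≤ ε * (g * X * P) := by
  have q1 : |(b - x) * m| ≤ w * |m| := by
    rw [abs_mul, abs_of_nonneg (by linarith)]
    exact mul_le_mul_of_nonneg_right (by linarith) (abs_nonneg _)
  have q2 : |(x - a) * m| ≤ w * |m| := by
    rw [abs_mul, abs_of_nonneg (by linarith)]
    exact mul_le_mul_of_nonneg_right (by linarith) (abs_nonneg _)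
  rw [abs_le] at ga gb q1 q2 ⊢
  constructor <;> linarith [ga.1, ga.2, gb.1, gb.2, q1.1, q1.2, q2.1, q2.2]

/-- the inequality for one member and one length -/
def Bad (t X : ℕ) (ε : ℝ) (x : ℕ) (h : ℤ) : Prop := ε * (sg h.toNat * X * Real.log X ^ (2 * (t + 1))) <
  |DD (t + 2) x h - x * (Sing (t + 1) h.toNat * Real.log X ^ (2 * (t + 1)) / ((t + 1).factorial : ℕ) ^ 2)|

open Classical in
theorem corr_all (t p B C U : ℕ) (ε : ℝ) (hε : 0 < ε) : ∃ X₀ : ℕ, ∀ X : ℕ, X₀ ≤ X → ∀ (ι : Type) [Fintype ι] (v : ι → ℤ),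
    (∀ i, |v i| ≤ B * X) → (En p v : ℝ) * X ≤ Real.log X ^ C * (Fintype.card ι : ℝ) ^ (2 * p) →
    ((univ.filter (fun i : ι => 0 < v i ∧ ∃ x : ℕ, x ≤ X ∧ Bad t X ε x (v i))).card : ℝ) ≤ Fintype.card ι / Real.log X ^ U := by
  obtain ⟨CS, hCS, hS⟩ := sing_le t
  obtain ⟨n1, h1⟩ := corr_fixed t p B C (U + 1) (ε / 2) (by positivity)
  obtain ⟨J, hJ⟩ : ∃ J : ℕ, J = ⌈4 * CS / ε⌉₊ + 2 := ⟨_, rfl⟩
  have hJ1 : 4 * CS / ε ≤ J := by
    rw [hJ]; push_cast
    have := Nat.le_ceil (4 * CS / ε)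
    linarith
  obtain ⟨n2, h2⟩ := ev_log (J + 2)
  refine ⟨n1 + n2 + 2 * J + 1, fun X hX ι _ v hv hEn => ?_⟩
  have a1 := h1 X (by omega) ι v hv hEn
  have a2 := h2 X (by omega)
  obtain ⟨w, hw⟩ : ∃ w, w = X / J + 1 := ⟨_, rfl⟩
  have hJ2 : 2 ≤ J := by omega
  have hX1 : 1 ≤ X := by omega
  have hXr : (0 : ℝ) < X := by exact_mod_cast hX1
  have hJr : (0 : ℝ) < J := by exact_mod_cast (by omega : 0 < J)
  have hwJ : X < w * J := by
    rw [hw]
    have := Nat.lt_div_mul_add (a := X) (b := J) (by omega)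
    linarith
  have hwJ2 : w * J ≤ 2 * X := by
    rw [hw]
    calc (X / J + 1) * J = X / J * J + J := by ring
      _ ≤ X + X := add_le_add (Nat.div_mul_le_self X J) (by omega)
      _ = 2 * X := by ring
  have hwr : (w : ℝ) ≤ 2 * X / J := by
    rw [le_div_iff₀ hJr]
    exact_mod_cast hwJ2
  have hwpos : 0 < w := by rw [hw]; exact Nat.succ_pos _
  obtain ⟨l, hl⟩ : ∃ l, l = Real.log X := ⟨_, rfl⟩
  rw [← hl] at a2
  have hsub : univ.filter (fun i : ι => 0 < v i ∧ ∃ x : ℕ, x ≤ X ∧ Bad t X ε x (v i)) ⊆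
      (range (J + 1)).biUnion (fun j => univ.filter (fun i : ι => 0 < v i ∧ Bad t X (ε / 2) (w * j) (v i))) := by
    intro i hi
    rw [mem_filter] at hi
    obtain ⟨_, hi0, x, hx, hbad⟩ := hi
    by_contra hcon
    rw [mem_biUnion] at hcon
    push Not at hcon
    have good : ∀ j, j ≤ J → ¬ Bad t X (ε / 2) (w * j) (v i) := by
      intro j hj hb
      apply hcon j (mem_range.2 (by omega))
      rw [mem_filter]
      exact ⟨mem_univ _, hi0, hb⟩
    obtain ⟨j, hj⟩ : ∃ j, j = x / w := ⟨_, rfl⟩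
    have hjJ : j < J := by
      rw [hj, Nat.div_lt_iff_lt_mul hwpos, mul_comm]
      omega
    have ha : w * j ≤ x := by rw [hj]; exact Nat.mul_div_le x w
    have hb : x < w * (j + 1) := by
      rw [hj]
      exact Nat.lt_mul_div_succ x hwpos
    have ga := good j hjJ.le
    have gb := good (j + 1) (by omega)
    unfold Bad at ga gb hbad
    push Not at ga gb
    have d1 := DD_mono (t + 2) (w * j) x ha (v i)
    have d2 := DD_mono (t + 2) x (w * (j + 1)) hb.le (v i)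
    have hH1 : 1 ≤ (v i).toNat := by omega
    have hSi := hS _ hH1
    have hsg := one_le_sg _ hH1
    have hF : (1 : ℝ) ≤ (((t + 1).factorial : ℕ) : ℝ) := by exact_mod_cast Nat.one_le_iff_ne_zero.2 (Nat.factorial_ne_zero _)
    apply absurd _ (not_le.2 hbad)
    apply grid _ _ _ (x : ℝ) ((w * j : ℕ) : ℝ) ((w * (j + 1) : ℕ) : ℝ) w _ _ _ _ ε d1 d2 (by exact_mod_cast ha) _ (by exact_mod_cast hb.le) _ _ ga gb
    · have : x ≤ w * j + w := by rw [mul_add, mul_one] at hb; omega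
      exact_mod_cast this
    · have : w * (j + 1) ≤ x + w := by rw [mul_add, mul_one]; omega
      exact_mod_cast this
    · rw [abs_div, abs_mul]
      have hl00 : 0 ≤ Real.log X := by rw [← hl]; linarith
      rw [abs_of_nonneg (by positivity : 0 ≤ Real.log X ^ (2 * (t + 1))), abs_of_nonneg (by positivity : (0 : ℝ) ≤ (((t + 1).factorial : ℕ) : ℝ) ^ 2)]
      have c1 : |Sing (t + 1) (v i).toNat| * Real.log X ^ (2 * (t + 1)) / (((t + 1).factorial : ℕ) : ℝ) ^ 2 ≤
          |Sing (t + 1) (v i).toNat| * Real.log X ^ (2 * (t + 1)) := by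
        apply div_le_self
        · rw [← hl]; have := abs_nonneg (Sing (t + 1) (v i).toNat); have : 0 ≤ l := by linarith
          positivity
        · exact one_le_pow₀ hF
      have hl0 : 0 ≤ Real.log X ^ (2 * (t + 1)) := by rw [← hl]; have : 0 ≤ l := by linarith
                                                      positivity
      have c2 : |Sing (t + 1) (v i).toNat| * Real.log X ^ (2 * (t + 1)) ≤ CS * sg (v i).toNat * Real.log X ^ (2 * (t + 1)) :=
        mul_le_mul_of_nonneg_right hSi hl0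
      have c3 : 2 * (X : ℝ) / J * CS ≤ ε / 2 * X := by
        rw [div_le_iff₀ hε] at hJ1
        rw [div_mul_eq_mul_div, div_le_iff₀ hJr]
        have := mul_le_mul_of_nonneg_left hJ1 hXr.le
        linarith
      have c4 : (w : ℝ) * (|Sing (t + 1) (v i).toNat| * Real.log X ^ (2 * (t + 1)) / (((t + 1).factorial : ℕ) : ℝ) ^ 2) ≤
          (2 * X / J) * (CS * sg (v i).toNat * Real.log X ^ (2 * (t + 1))) :=
        mul_le_mul hwr (c1.trans c2) (by apply div_nonneg _ (by positivity); exact mul_nonneg (abs_nonneg _) hl0) (by positivity)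
      refine c4.trans ?_
      have c5 := mul_le_mul_of_nonneg_right c3 (mul_nonneg (by linarith : 0 ≤ sg (v i).toNat) hl0)
      calc (2 * (X : ℝ) / J) * (CS * sg (v i).toNat * Real.log X ^ (2 * (t + 1))) = 2 * X / J * CS * (sg (v i).toNat * Real.log X ^ (2 * (t + 1))) := by ring
        _ ≤ _ := c5
        _ = _ := by ring
  have hcard : ((univ.filter (fun i : ι => 0 < v i ∧ ∃ x : ℕ, x ≤ X ∧ Bad t X ε x (v i))).card : ℝ) ≤
      ∑ j ∈ range (J + 1), ((univ.filter (fun i : ι => 0 < v i ∧ Bad t X (ε / 2) (w * j) (v i))).card : ℝ) := by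
    exact_mod_cast (card_le_card hsub).trans card_biUnion_le
  refine hcard.trans ?_
  have each : ∀ j ∈ range (J + 1), ((univ.filter (fun i : ι => 0 < v i ∧ Bad t X (ε / 2) (w * j) (v i))).card : ℝ) ≤ Fintype.card ι / Real.log X ^ (U + 1) := by
    intro j hj
    rw [mem_range] at hj
    apply a1 (w * j)
    refine le_trans ?_ hwJ2
    exact Nat.mul_le_mul_left _ (by omega)
  refine (sum_le_sum each).trans ?_
  rw [sum_const, card_range, nsmul_eq_mul, ← hl]
  have hl0 : 0 < l := by linarith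
  push_cast
  rw [pow_succ', mul_div_assoc', div_le_div_iff₀ (by positivity) (by positivity)]
  have c1 : (0 : ℝ) ≤ Fintype.card ι := Nat.cast_nonneg _
  have c2 : 0 ≤ (Fintype.card ι : ℝ) * l ^ U := by positivity
  have c3 : ((J : ℝ) + 1) * ((Fintype.card ι : ℝ) * l ^ U) ≤ l * ((Fintype.card ι : ℝ) * l ^ U) := mul_le_mul_of_nonneg_right (by linarith) c2
  linarith

/-- the same for shifts of both signs -/
def Bad' (t X : ℕ) (ε : ℝ) (x : ℕ) (h : ℤ) : Prop := ε * (sg h.natAbs * X * Real.log X ^ (2 * (t + 1))) <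
  |DD (t + 2) x h - (((x : ℤ) + min h 0).toNat : ℝ) * (Sing (t + 1) h.natAbs * Real.log X ^ (2 * (t + 1)) / ((t + 1).factorial : ℕ) ^ 2)|

lemma bad_pos (t X : ℕ) (ε : ℝ) (x : ℕ) (h : ℤ) (hh : 0 < h) (hb : Bad' t X ε x h) : Bad t X ε x h := by
  unfold Bad' at hb
  unfold Bad
  have e1 : h.natAbs = h.toNat := by omega
  have e2 : ((x : ℤ) + min h 0).toNat = x := by omega
  rw [e1, e2] at hb
  exact hb

lemma bad_neg (t X : ℕ) (ε : ℝ) (x : ℕ) (h : ℤ) (hh : h < 0) (hb : Bad' t X ε x h) : Bad t X ε ((x : ℤ) + h).toNat (-h) := by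
  unfold Bad' at hb
  unfold Bad
  have e1 : h.natAbs = (-h).toNat := by omega
  have e2 : ((x : ℤ) + min h 0) = (x : ℤ) + h := by omega
  rw [e1, e2, DD_neg _ _ _ hh] at hb
  exact hb

open Classical in
theorem corr_signs (t p B C U : ℕ) (ε : ℝ) (hε : 0 < ε) : ∃ X₀ : ℕ, ∀ X : ℕ, X₀ ≤ X → ∀ (ι : Type) [Fintype ι] (v : ι → ℤ),
    (∀ i, |v i| ≤ B * X) → (En p v : ℝ) * X ≤ Real.log X ^ C * (Fintype.card ι : ℝ) ^ (2 * p) →
    ((univ.filter (fun i : ι => v i ≠ 0 ∧ ∃ x : ℕ, x ≤ X ∧ Bad' t X ε x (v i))).card : ℝ) ≤ Fintype.card ι / Real.log X ^ U := by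
  obtain ⟨n1, h1⟩ := corr_all t p B C (U + 1) ε hε
  obtain ⟨n2, h2⟩ := ev_log 2
  refine ⟨n1 + n2 + 1, fun X hX ι _ v hv hEn => ?_⟩
  have a1 := h1 X (by omega) ι v hv hEn
  have a2 := h2 X (by omega)
  have a3 := h1 X (by omega) ι (fun i => -v i) (fun i => by rw [abs_neg]; exact hv i) (by rw [En_neg]; exact hEn)
  obtain ⟨l, hl⟩ : ∃ l, l = Real.log X := ⟨_, rfl⟩
  rw [← hl] at a1 a2 a3 ⊢
  have hsub : univ.filter (fun i : ι => v i ≠ 0 ∧ ∃ x : ℕ, x ≤ X ∧ Bad' t X ε x (v i)) ⊆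
      univ.filter (fun i : ι => 0 < v i ∧ ∃ x : ℕ, x ≤ X ∧ Bad t X ε x (v i)) ∪
      univ.filter (fun i : ι => 0 < -v i ∧ ∃ x : ℕ, x ≤ X ∧ Bad t X ε x (-v i)) := by
    intro i hi
    rw [mem_filter] at hi
    rw [mem_union, mem_filter, mem_filter]
    obtain ⟨_, hi0, x, hx, hb⟩ := hi
    rcases lt_or_gt_of_ne hi0 with h | h
    · right
      exact ⟨mem_univ _, by omega, ((x : ℤ) + v i).toNat, by omega, bad_neg t X ε x (v i) h hb⟩
    · left
      exact ⟨mem_univ _, h, x, hx, bad_pos t X ε x (v i) h hb⟩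
  have hcard : ((univ.filter (fun i : ι => v i ≠ 0 ∧ ∃ x : ℕ, x ≤ X ∧ Bad' t X ε x (v i))).card : ℝ) ≤
      ((univ.filter (fun i : ι => 0 < v i ∧ ∃ x : ℕ, x ≤ X ∧ Bad t X ε x (v i))).card : ℝ) +
      ((univ.filter (fun i : ι => 0 < -v i ∧ ∃ x : ℕ, x ≤ X ∧ Bad t X ε x (-v i))).card : ℝ) := by
    exact_mod_cast (card_le_card hsub).trans (card_union_le _ _)
  refine hcard.trans ?_
  have hl0 : 0 < l := by linarith
  have c1 : (0 : ℝ) ≤ Fintype.card ι := Nat.cast_nonneg _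
  have e2 : (Fintype.card ι : ℝ) / l ^ (U + 1) + Fintype.card ι / l ^ (U + 1) ≤ Fintype.card ι / l ^ U := by
    have e3 : (Fintype.card ι : ℝ) / l ^ (U + 1) + Fintype.card ι / l ^ (U + 1) = 2 * Fintype.card ι / (l * l ^ U) := by
      rw [pow_succ']; ring
    rw [e3]
    calc 2 * (Fintype.card ι : ℝ) / (l * l ^ U) ≤ l * Fintype.card ι / (l * l ^ U) := by
          apply div_le_div_of_nonneg_right _ (by positivity)
          exact mul_le_mul_of_nonneg_right a2 c1
      _ = Fintype.card ι / l ^ U := by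
          rw [mul_div_mul_left _ _ (by linarith : l ≠ 0)]
  linarith

end Pool.Agent.TH212.DV
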