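import Pool.Agent.TH212.DV.C17

set_option autoImplicit false

/-! The proportion of tuples with product zero. -/

namespace Pool.Agent.TH212.DV
open Finset

/-- the number of tuples with product divisible by `q'` -/
lemma card_tuples (s : ℕ) : ∀ q q' : ℕ, 1 ≤ q → q' ∣ q →
    (∑ a : Fin s → Fin q, if q' ∣ ∏ i, (a i : ℕ) then (1 : ℝ) else 0) = (q : ℝ) ^ s * kap s q' := by
  induction s with
  | zero =>
    intro q q' hq hd
    unfold kap
    rw [Fintype.sum_unique, pow_zero, one_mul]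
    simp [Nat.dvd_one]
  | succ s ih =>
    intro q q' hq hd
    obtain ⟨m, hm⟩ := hd
    have hm1 : 1 ≤ m := Nat.pos_of_ne_zero (by rintro rfl; simp at hm; omega)
    have hq' : 1 ≤ q' := Nat.pos_of_ne_zero (by rintro rfl; simp at hm; omega)
    have hq'0 : (0 : ℝ) < q' := by exact_mod_cast hq'
    have e1 : (∑ a : Fin (s + 1) → Fin q, if q' ∣ ∏ i, (a i : ℕ) then (1 : ℝ) else 0) =
        ∑ x : Fin q × (Fin s → Fin q), if q' / Nat.gcd (x.1 : ℕ) q' ∣ ∏ i, (x.2 i : ℕ) then (1 : ℝ) else 0 := by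
      symm
      apply Fintype.sum_equiv (Fin.consEquiv (fun _ : Fin (s + 1) => Fin q))
      intro x
      rw [Fin.prod_univ_succ]
      have w1 : (Fin.consEquiv (fun _ : Fin (s + 1) => Fin q)) x 0 = x.1 := rfl
      have w2 : ∀ i : Fin s, (Fin.consEquiv (fun _ : Fin (s + 1) => Fin q)) x i.succ = x.2 i := fun i => rfl
      simp only [w1, w2]
      simp only [dvd_mul_iff q' (x.1 : ℕ) _ hq']
    rw [e1, Fintype.sum_prod_type]
    have e2 : ∀ b : Fin q, (∑ a : Fin s → Fin q, if q' / Nat.gcd (b : ℕ) q' ∣ ∏ i, (a i : ℕ) then (1 : ℝ) else 0) = (q : ℝ) ^ s * kap s (q' / Nat.gcd (b : ℕ) q') := by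
      intro b
      apply ih q _ hq
      exact (Nat.div_dvd_of_dvd (Nat.gcd_dvd_right _ _)).trans (hm ▸ Dvd.intro m rfl)
    simp only [e2]
    rw [← mul_sum, Fin.sum_univ_eq_sum_range (fun b : ℕ => kap s (q' / Nat.gcd b q')) q, kap_succ]
    have e3 : range q = range (m * q') := by rw [hm, mul_comm]
    rw [e3, per_avg (fun b => kap s (q' / Nat.gcd b q')) q' m (fun k => by simp only [gcd_per]), hm]
    push_cast
    field_simp
    ring

theorem kap_card (s q : ℕ) (hq : 1 ≤ q) :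
    (Nat.card {a : Fin s → Fin q // q ∣ ∏ i, (a i : ℕ)} : ℝ) / (q : ℝ) ^ s = kap s q := by
  have h1 := card_tuples s q q hq dvd_rfl
  have hq0 : (0 : ℝ) < q := by exact_mod_cast hq
  rw [div_eq_iff (by positivity), mul_comm, ← h1, Nat.card_eq_fintype_card, Fintype.card_subtype, card_filter]
  push_cast
  rfl

end Pool.Agent.TH212.DV
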