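import Pool.Agent.TH212.DV.C1

set_option autoImplicit false

/-! The spacing of the Farey fractions. -/

namespace Pool.Agent.TH212.DV
open Finset
open Pool.Agent.H807R2.Dav

/-- the pairs `(q, b)` with `1 ≤ q ≤ Q` and `b` a reduced residue -/
def PP (Q : ℕ) : Finset (Σ _ : ℕ, ℕ) := (Icc 1 Q).sigma (fun q => Rd q)

/-- reduction of `x` to `[-1/2, 1/2]` -/
noncomputable def red (x : ℝ) : ℝ := x - round x

lemma abs_red (x : ℝ) : |red x| ≤ 1 / 2 := abs_sub_round x

lemma KK_red (M x : ℝ) : KK M (red x) = KK M x := by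
  unfold KK red
  congr 3
  have : x - (round x : ℝ) = x + ((-round x : ℤ) : ℝ) := by push_cast; ring
  rw [this, dd_add_int]

lemma dd_red (x : ℝ) (h : |x| ≤ 1 / 2) : 4 * |x| ≤ dd x := by
  rcases le_total 0 x with h0 | h0
  · rw [abs_of_nonneg h0] at h ⊢
    have := dd_ge h0 (by linarith)
    rw [min_eq_left (by linarith)] at this
    exact this
  · rw [abs_of_nonpos h0] at h ⊢
    have := dd_ge (t := -x) (by linarith) (by linarith)
    rw [min_eq_left (by linarith), dd_neg] at this
    exact this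

/-- two different fractions are separated -/
lemma separated (Q : ℕ) (α : ℝ) (x y : Σ _ : ℕ, ℕ) (hx : x ∈ PP Q) (hy : y ∈ PP Q)
    (h : |red (α + (x.2 : ℝ) / x.1) - red (α + (y.2 : ℝ) / y.1)| < 1 / (Q : ℝ) ^ 2) : x = y := by
  obtain ⟨q, a⟩ := x
  obtain ⟨q', a'⟩ := y
  unfold PP at hx hy
  rw [mem_sigma, mem_Icc, mem_Rd] at hx hy
  simp only at hx hy h
  obtain ⟨⟨hq1, hqQ⟩, haq, hac⟩ := hx
  obtain ⟨⟨hq1', hqQ'⟩, haq', hac'⟩ := hy
  have hq0 : (0 : ℝ) < q := by exact_mod_cast hq1
  have hq0' : (0 : ℝ) < q' := by exact_mod_cast hq1'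
  have hQ0 : (0 : ℝ) < Q := by
    have : (q : ℝ) ≤ Q := by exact_mod_cast hqQ
    linarith
  obtain ⟨k, hk⟩ : ∃ k : ℤ, k = round (α + (a' : ℝ) / q') - round (α + (a : ℝ) / q) := ⟨_, rfl⟩
  have e1 : red (α + (a : ℝ) / q) - red (α + (a' : ℝ) / q') = ((a * q' - a' * q + k * (q * q') : ℤ) : ℝ) / (q * q') := by
    unfold red
    rw [hk]
    push_cast
    field_simp
    ring
  rw [e1] at h
  have hqq : (0 : ℝ) < q * q' := by positivity
  have hz : (a * q' - a' * q + k * (q * q') : ℤ) = 0 := by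
    by_contra hne
    have h1 : (1 : ℝ) ≤ |((a * q' - a' * q + k * (q * q') : ℤ) : ℝ)| := by
      have := Int.one_le_abs hne
      exact_mod_cast this
    rw [abs_div, abs_of_pos hqq, div_lt_div_iff₀ hqq (by positivity), one_mul] at h
    have h2 : (q : ℝ) * q' ≤ Q ^ 2 := by
      rw [pow_two]
      exact mul_le_mul (by exact_mod_cast hqQ) (by exact_mod_cast hqQ') hq0'.le hQ0.le
    have h3 : (Q : ℝ) ^ 2 ≤ |((a * q' - a' * q + k * (q * q') : ℤ) : ℝ)| * Q ^ 2 := le_mul_of_one_le_left (by positivity) h1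
    linarith
  -- `k = 0`
  have hk0 : k = 0 := by
    have h1 : (k : ℤ) * (q * q') = a' * q - a * q' := by linarith
    have hqz : (0 : ℤ) < q * q' := by exact_mod_cast Nat.mul_pos hq1 hq1'
    have h2 : (a' : ℤ) * q < q * q' := by
      have : a' * q < q' * q := Nat.mul_lt_mul_of_pos_right haq' hq1
      have h5 : (a' : ℤ) * q < q' * q := by exact_mod_cast this
      linarith
    have h3 : (a : ℤ) * q' < q * q' := by
      have : a * q' < q * q' := Nat.mul_lt_mul_of_pos_right haq hq1'
      exact_mod_cast this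
    have h4 : (0 : ℤ) ≤ (a : ℤ) * q' := by positivity
    have h5 : (0 : ℤ) ≤ (a' : ℤ) * q := by positivity
    have h6 : k * (q * q') < 1 * (q * q' : ℤ) := by linarith
    have h7 : (-1) * (q * q' : ℤ) < k * (q * q') := by linarith
    have h8 := lt_of_mul_lt_mul_right h6 hqz.le
    have h9 := lt_of_mul_lt_mul_right h7 hqz.le
    omega
  rw [hk0, zero_mul, add_zero, sub_eq_zero] at hz
  have hz' : a * q' = a' * q := by exact_mod_cast hz
  have h1 : q ∣ q' := by
    have : q ∣ a * q' := by rw [hz']; exact dvd_mul_left _ _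
    exact (Nat.Coprime.dvd_of_dvd_mul_left hac.symm this)
  have h2 : q' ∣ q := by
    have : q' ∣ a' * q := by rw [← hz']; exact dvd_mul_left _ _
    exact (Nat.Coprime.dvd_of_dvd_mul_left hac'.symm this)
  have h3 := Nat.dvd_antisymm h1 h2
  subst h3
  have h4 := Nat.eq_of_mul_eq_mul_right hq1 hz'
  rw [h4]

/-- the bound at the `n`-th place -/
noncomputable def gb (M D : ℝ) (n : ℕ) : ℝ := if n = 0 then 3 * M else 3 * D / 4 * (1 / n)

lemma gb_nonneg (M D : ℝ) (hM : 0 ≤ M) (hD : 0 ≤ D) (n : ℕ) : 0 ≤ gb M D n := by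
  unfold gb
  split_ifs <;> positivity

/-- the place of an integer -/
def pl (j : ℤ) : ℕ := if 0 ≤ j then j.toNat else (-j - 1).toNat

lemma KK_place (M D x : ℝ) (hM : 0 ≤ M) (hD : 0 < D) (hx : |x| ≤ 1 / 2) : KK M x ≤ gb M D (pl ⌊x * D⌋) := by
  unfold gb
  split_ifs with h0
  · exact KK_le hM x
  · have key : (pl ⌊x * D⌋ : ℝ) ≤ |x| * D := by
      unfold pl
      split_ifs with h1
      · have h2 : (0 : ℝ) ≤ x * D := (Int.cast_nonneg h1).trans (Int.floor_le _)
        have h3 : 0 ≤ x := nonneg_of_mul_nonneg_left h2 hD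
        rw [abs_of_nonneg h3]
        have h4 : ((⌊x * D⌋.toNat : ℕ) : ℝ) = (⌊x * D⌋ : ℝ) := by
          have : ((⌊x * D⌋.toNat : ℤ)) = ⌊x * D⌋ := Int.toNat_of_nonneg h1
          exact_mod_cast this
        rw [h4]
        exact Int.floor_le _
      · push Not at h1
        have h2 : x * D < 0 := by
          by_contra hc
          push Not at hc
          have := Int.floor_nonneg.2 hc
          omega
        have h3 : x < 0 := by
          by_contra hc
          push Not at hc
          have := mul_nonneg hc hD.le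
          linarith
        rw [abs_of_neg h3]
        have h4 : (((-⌊x * D⌋ - 1).toNat : ℕ) : ℝ) = (-⌊x * D⌋ - 1 : ℝ) := by
          have : (((-⌊x * D⌋ - 1).toNat : ℤ)) = -⌊x * D⌋ - 1 := Int.toNat_of_nonneg (by omega)
          exact_mod_cast this
        rw [h4]
        have := Int.lt_floor_add_one (x * D)
        linarith
    have hp : (0 : ℝ) < (pl ⌊x * D⌋ : ℝ) := by exact_mod_cast Nat.pos_of_ne_zero h0
    have h5 : 4 * ((pl ⌊x * D⌋ : ℝ) / D) ≤ dd x := by
      refine le_trans ?_ (dd_red x hx)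
      apply mul_le_mul_of_nonneg_left _ (by norm_num)
      rw [div_le_iff₀ hD]
      exact key
    refine (KK_le' hM (by positivity) h5).trans (le_of_eq ?_)
    field_simp

/-- the sum over all fractions -/
theorem spacing (Q : ℕ) (hQ : 1 ≤ Q) (M α : ℝ) (hM : 0 ≤ M) :
    ∑ q ∈ Icc 1 Q, ∑ a ∈ Rd q, KK M (α + (a : ℝ) / q) ≤ 6 * M + 3 / 2 * (Q : ℝ) ^ 2 * (2 + 2 * Real.log Q) := by
  classical
  have hQ0 : (0 : ℝ) < Q := by exact_mod_cast hQ
  obtain ⟨D, hD⟩ : ∃ D : ℝ, D = (Q : ℝ) ^ 2 := ⟨_, rfl⟩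
  have hD0 : 0 < D := by rw [hD]; positivity
  obtain ⟨J, hJ⟩ : ∃ J : ℕ, J = Q ^ 2 := ⟨_, rfl⟩
  have hJD : (J : ℝ) = D := by rw [hJ, hD]; push_cast; ring
  have e1 : ∑ q ∈ Icc 1 Q, ∑ a ∈ Rd q, KK M (α + (a : ℝ) / q) = ∑ x ∈ PP Q, KK M (red (α + (x.2 : ℝ) / x.1)) := by
    unfold PP
    rw [sum_sigma]
    simp only [KK_red]
  rw [e1]
  obtain ⟨j, hj⟩ : ∃ j : (Σ _ : ℕ, ℕ) → ℤ, j = fun x => ⌊red (α + (x.2 : ℝ) / x.1) * D⌋ := ⟨_, rfl⟩
  have hinj : Set.InjOn j (PP Q : Set (Σ _ : ℕ, ℕ)) := by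
    intro x hx y hy hxy
    rw [mem_coe] at hx hy
    rw [hj] at hxy
    simp only at hxy
    apply separated Q α x y hx hy
    have h1 := Int.floor_le (red (α + (x.2 : ℝ) / x.1) * D)
    have h2 := Int.lt_floor_add_one (red (α + (x.2 : ℝ) / x.1) * D)
    have h3 := Int.floor_le (red (α + (y.2 : ℝ) / y.1) * D)
    have h4 := Int.lt_floor_add_one (red (α + (y.2 : ℝ) / y.1) * D)
    rw [hxy] at h1 h2
    rw [← hD, lt_div_iff₀ hD0, ← abs_of_pos hD0, ← abs_mul, abs_lt]
    constructor <;> linarith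
  have hrange : ∀ x ∈ PP Q, j x ∈ Ico (-(J : ℤ)) (J + 1) := by
    intro x _
    rw [hj, mem_Ico]
    simp only
    have h1 := abs_le.1 (abs_red (α + (x.2 : ℝ) / x.1))
    constructor
    · rw [Int.le_floor]
      push_cast
      rw [hJD]
      nlinarith
    · rw [Int.floor_lt]
      push_cast
      rw [hJD]
      nlinarith
  calc ∑ x ∈ PP Q, KK M (red (α + (x.2 : ℝ) / x.1)) ≤ ∑ x ∈ PP Q, gb M D (pl (j x)) := by
        apply sum_le_sum
        intro x _
        rw [hj]
        exact KK_place M D _ hM hD0 (abs_red _)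
    _ = ∑ i ∈ (PP Q).image j, gb M D (pl i) := by rw [sum_image hinj]
    _ ≤ ∑ i ∈ Ico (-(J : ℤ)) (J + 1), gb M D (pl i) := by
        apply sum_le_sum_of_subset_of_nonneg
        · intro i hi
          rw [mem_image] at hi
          obtain ⟨x, hx, rfl⟩ := hi
          exact hrange x hx
        · intro i _ _
          exact gb_nonneg M D hM hD0.le _
    _ ≤ 2 * ∑ n ∈ range (J + 1), gb M D n := by
        have h1 : Ico (-(J : ℤ)) (J + 1) ⊆ ((range (J + 1)).image (fun n : ℕ => (n : ℤ))) ∪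
            ((range (J + 1)).image (fun n : ℕ => -(n : ℤ) - 1)) := by
          intro i hi
          rw [mem_Ico] at hi
          rw [mem_union, mem_image, mem_image]
          rcases le_or_gt 0 i with h | h
          · left
            exact ⟨i.toNat, mem_range.2 (by omega), by omega⟩
          · right
            exact ⟨(-i - 1).toNat, mem_range.2 (by omega), by omega⟩
        refine (sum_le_sum_of_subset_of_nonneg h1 (fun i _ _ => gb_nonneg M D hM hD0.le _)).trans ?_
        have h5 := sum_union_inter (s₁ := (range (J + 1)).image (fun n : ℕ => (n : ℤ)))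
          (s₂ := (range (J + 1)).image (fun n : ℕ => -(n : ℤ) - 1)) (f := fun i => gb M D (pl i))
        have h6 : 0 ≤ ∑ i ∈ ((range (J + 1)).image (fun n : ℕ => (n : ℤ))) ∩
            ((range (J + 1)).image (fun n : ℕ => -(n : ℤ) - 1)), gb M D (pl i) :=
          sum_nonneg fun i _ => gb_nonneg M D hM hD0.le _
        refine le_trans (by linarith : _ ≤ ∑ i ∈ (range (J + 1)).image (fun n : ℕ => (n : ℤ)), gb M D (pl i) +
          ∑ i ∈ (range (J + 1)).image (fun n : ℕ => -(n : ℤ) - 1), gb M D (pl i)) ?_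
        rw [two_mul]
        apply add_le_add
        · rw [sum_image (by intro a _ b _ h; simpa using h)]
          apply le_of_eq
          apply sum_congr rfl
          intro n _
          congr 1
        · rw [sum_image (by intro a _ b _ h; simpa using h)]
          apply le_of_eq
          apply sum_congr rfl
          intro n _
          congr 1
          unfold pl
          rw [if_neg (by omega)]
          omega
    _ ≤ 2 * (3 * M + 3 * D / 4 * (1 + Real.log (J + 1 : ℕ))) := by
        apply mul_le_mul_of_nonneg_left _ (by norm_num)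
        rw [sum_range_succ']
        unfold gb
        simp only [Nat.add_eq_zero_iff, one_ne_zero, and_false, if_false, if_true]
        rw [add_comm]
        apply add_le_add le_rfl
        rw [← mul_sum]
        apply mul_le_mul_of_nonneg_left _ (by positivity)
        have h1 := sum_inv_range (J + 1)
        rw [sum_range_succ'] at h1
        simpa using h1
    _ ≤ _ := by
        have h1 : Real.log ((J + 1 : ℕ) : ℝ) ≤ 1 + 2 * Real.log Q := by
          have h2 : ((J + 1 : ℕ) : ℝ) ≤ Real.exp 1 * (Q : ℝ) ^ 2 := by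
            have h3 : (2 : ℝ) ≤ Real.exp 1 := by linarith [Real.add_one_le_exp (1 : ℝ)]
            have h4 : (1 : ℝ) ≤ (Q : ℝ) ^ 2 := one_le_pow₀ (by exact_mod_cast hQ)
            push_cast
            rw [hJD, hD]
            nlinarith
          have h3 := Real.log_le_log (by positivity) h2
          rw [Real.log_mul (Real.exp_pos 1).ne' (by positivity), Real.log_exp, Real.log_pow] at h3
          exact_mod_cast h3
        rw [hD]
        have h2 : (0 : ℝ) < (Q : ℝ) ^ 2 := by positivity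
        have h3 : 3 * (Q : ℝ) ^ 2 / 4 * (1 + Real.log ((J + 1 : ℕ) : ℝ)) ≤ 3 * (Q : ℝ) ^ 2 / 4 * (2 + 2 * Real.log Q) :=
          mul_le_mul_of_nonneg_left (by linarith) (by positivity)
        linarith

end Pool.Agent.TH212.DV
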