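import Pool.Agent.TH212.DV.C2

set_option autoImplicit false

/-! Sums over divisors, their models and the exponential sum of the difference. -/

namespace Pool.Agent.TH212.DV
open Finset
open Pool.Agent.H807R2.Dav

/-- the sum of `W d` over the divisors `d ≤ D` of `n` -/
noncomputable def FF (W : ℕ → ℝ) (D : ℕ) (n : ℕ) : ℝ := ∑ d ∈ (Icc 1 D).filter (fun d => d ∣ n), W d

/-- the sum of `W d / d` over the multiples `d ≤ D` of `q` -/
noncomputable def RR (W : ℕ → ℝ) (D : ℕ) (q : ℕ) : ℝ := ∑ d ∈ (Icc 1 D).filter (fun d => q ∣ d), W d / d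

/-- the model -/
noncomputable def MM (W : ℕ → ℝ) (D z : ℕ) (n : ℤ) : ℝ := ∑ q ∈ Icc 1 z, RR W D q * (cz q n : ℝ)

lemma sum_cz (r : ℕ) (n : ℤ) (hr : 0 < r) : ∑ d ∈ r.divisors, (cz d n : ℝ) = if (r : ℤ) ∣ n then (r : ℝ) else 0 := by
  have h := sum_divisors_cr' r n hr
  have h2 : ∑ d ∈ r.divisors, cr d n = ((∑ d ∈ r.divisors, (cz d n : ℝ) : ℝ) : ℂ) := by
    push_cast
    apply sum_congr rfl
    intro d hd
    rw [cr_eq d n (Nat.pos_of_mem_divisors hd)]
  rw [h2] at h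
  have h3 : ((if (r : ℤ) ∣ n then (r : ℂ) else 0)) = (((if (r : ℤ) ∣ n then (r : ℝ) else 0) : ℝ) : ℂ) := by
    split_ifs <;> simp
  rw [h3] at h
  exact_mod_cast h

lemma FF_expand (W : ℕ → ℝ) (D n : ℕ) : FF W D n = ∑ q ∈ Icc 1 D, RR W D q * (cz q n : ℝ) := by
  unfold FF RR
  rw [sum_filter]
  have h1 : ∀ d ∈ Icc 1 D, (if d ∣ n then W d else 0) = ∑ q ∈ Icc 1 D, if q ∣ d then W d / d * (cz q n : ℝ) else 0 := by
    intro d hd
    rw [mem_Icc] at hd
    have hd0 : (d : ℝ) ≠ 0 := by exact_mod_cast (by omega : d ≠ 0)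
    have e1 : ∑ q ∈ Icc 1 D, (if q ∣ d then W d / d * (cz q n : ℝ) else 0) = W d / d * ∑ q ∈ d.divisors, (cz q n : ℝ) := by
      rw [← sum_filter, mul_sum]
      apply sum_congr _ (fun _ _ => rfl)
      ext q
      rw [mem_filter, mem_Icc, Nat.mem_divisors]
      constructor
      · rintro ⟨_, h⟩
        exact ⟨h, by omega⟩
      · rintro ⟨h, _⟩
        exact ⟨⟨Nat.pos_of_dvd_of_pos h (by omega), (Nat.le_of_dvd (by omega) h).trans hd.2⟩, h⟩
    rw [e1, sum_cz d n (by omega)]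
    by_cases h : d ∣ n
    · rw [if_pos h, if_pos (by exact_mod_cast h)]
      field_simp
    · rw [if_neg h, if_neg (by exact_mod_cast h), mul_zero]
  rw [sum_congr rfl h1, sum_comm]
  apply sum_congr rfl
  intro q _
  rw [← sum_filter, sum_mul]

/-- the difference -/
lemma diff_expand (W : ℕ → ℝ) (D z n : ℕ) (hz : z ≤ D) :
    FF W D n - MM W D z n = ∑ q ∈ Ioc z D, RR W D q * (cz q n : ℝ) := by
  rw [FF_expand]
  unfold MM
  have h1 : Icc 1 D = Icc 1 z ∪ Ioc z D := by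
    ext q
    rw [mem_union, mem_Icc, mem_Icc, mem_Ioc]
    omega
  rw [h1, sum_union]
  · ring
  · rw [disjoint_left]
    intro q h2 h3
    rw [mem_Icc] at h2
    rw [mem_Ioc] at h3
    omega

theorem sup_KK (W : ℕ → ℝ) (D z H : ℕ) (hz : z ≤ D) (α : ℝ) :
    ‖∑ n ∈ Icc 1 H, ((FF W D n - MM W D z n : ℝ) : ℂ) * ee ((n : ℝ) * α)‖ ≤
      ∑ q ∈ Ioc z D, |RR W D q| * ∑ a ∈ Rd q, KK H (α + (a : ℝ) / q) := by
  have h1 : ∑ n ∈ Icc 1 H, ((FF W D n - MM W D z n : ℝ) : ℂ) * ee ((n : ℝ) * α) =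
      ∑ q ∈ Ioc z D, (RR W D q : ℂ) * ∑ a ∈ Rd q, ∑ n ∈ Ico 1 (H + 1), ee ((n : ℝ) * (α + (a : ℝ) / q)) := by
    have e0 : ∀ n ∈ Icc 1 H, ((FF W D n - MM W D z n : ℝ) : ℂ) * ee ((n : ℝ) * α) =
        ∑ q ∈ Ioc z D, (RR W D q : ℂ) * ∑ a ∈ Rd q, ee ((n : ℝ) * (α + (a : ℝ) / q)) := by
      intro n _
      rw [diff_expand W D z n hz]
      push_cast
      rw [sum_mul]
      apply sum_congr rfl
      intro q hq
      rw [mem_Ioc] at hq
      have e1 := cr_eq q n (by omega)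
      have e2 : ((cz q n : ℤ) : ℂ) = ∑ b ∈ Rd q, ee (((n : ℤ) : ℝ) * ((b : ℝ) / q)) := by rw [← e1]; rfl
      rw [mul_assoc, e2, sum_mul]
      congr 1
      apply sum_congr rfl
      intro a _
      rw [← ee_add]
      congr 1
      push_cast
      ring
    rw [sum_congr rfl e0, sum_comm]
    apply sum_congr rfl
    intro q _
    rw [← mul_sum, sum_comm]
    rfl
  rw [h1]
  refine (norm_sum_le _ _).trans (sum_le_sum fun q _ => ?_)
  rw [norm_mul, Complex.norm_real, Real.norm_eq_abs]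
  apply mul_le_mul_of_nonneg_left _ (abs_nonneg _)
  refine (norm_sum_le _ _).trans (sum_le_sum fun a _ => ?_)
  exact geo_bound 1 (H + 1) (by omega) (by push_cast; linarith) _

/-- dyadic decomposition -/
theorem dyadic (D z H : ℕ) (hz : 1 ≤ z) (hzD : z ≤ D) (α η : ℝ) (h0 : 0 ≤ η) (h1 : η ≤ 1) :
    ∑ q ∈ Ioc z D, (q : ℝ) ^ (η - 1) * ∑ a ∈ Rd q, KK H (α + (a : ℝ) / q) ≤
      (1 + 2 * Real.log D) * (12 * H * (z : ℝ) ^ (η - 1) + 12 * (D : ℝ) ^ (1 + η) * (2 + Real.log D)) := by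
  classical
  have hz0 : (0 : ℝ) < z := by exact_mod_cast hz
  have hD0 : (0 : ℝ) < D := by exact_mod_cast (by omega : 0 < D)
  have hD1 : (1 : ℝ) ≤ D := by exact_mod_cast (by omega : 1 ≤ D)
  have hlD : 0 ≤ Real.log D := Real.log_nonneg hD1
  have hT : ∀ q, 0 ≤ ∑ a ∈ Rd q, KK H (α + (a : ℝ) / q) := fun q => sum_nonneg fun a _ => KK_nonneg (Nat.cast_nonneg _) _
  obtain ⟨bd, hbd⟩ : ∃ bd : ℝ, bd = 12 * H * (z : ℝ) ^ (η - 1) + 12 * (D : ℝ) ^ (1 + η) * (2 + Real.log D) := ⟨_, rfl⟩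
  have hbd0 : 0 ≤ bd := by rw [hbd]; positivity
  rw [← hbd, ← sum_fiberwise_of_maps_to (s := Ioc z D) (t := range (Nat.log 2 D + 1)) (g := fun q => Nat.log 2 q) (by
    intro q hq
    rw [mem_Ioc] at hq
    rw [mem_range]
    exact Nat.lt_succ_of_le (Nat.log_mono_right hq.2))]
  have hblock : ∀ j ∈ range (Nat.log 2 D + 1), ∑ q ∈ (Ioc z D).filter (fun q => Nat.log 2 q = j),
      (q : ℝ) ^ (η - 1) * ∑ a ∈ Rd q, KK H (α + (a : ℝ) / q) ≤ bd := by
    intro j _
    rcases ((Ioc z D).filter (fun q => Nat.log 2 q = j)).eq_empty_or_nonempty with he | ⟨q0, hq0⟩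
    · rw [he, sum_empty]
      exact hbd0
    · rw [mem_filter, mem_Ioc] at hq0
      obtain ⟨⟨hq0z, hq0D⟩, hq0j⟩ := hq0
      have hp1 : 2 ^ j ≤ q0 := by rw [← hq0j]; exact Nat.pow_log_le_self 2 (by omega)
      have hp2 : q0 < 2 ^ (j + 1) := by rw [← hq0j]; exact Nat.lt_pow_succ_log_self (by norm_num) _
      obtain ⟨P, hP⟩ : ∃ P : ℕ, P = 2 ^ j := ⟨_, rfl⟩
      have hP1 : 1 ≤ P := by rw [hP]; exact Nat.one_le_two_pow
      have hP0 : (0 : ℝ) < P := by exact_mod_cast hP1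
      have hPD : P ≤ D := by rw [hP]; exact hp1.trans hq0D
      have hPz : z < 2 * P := by rw [hP, ← pow_succ']; omega
      have hPDr : (P : ℝ) ≤ D := by exact_mod_cast hPD
      have e1 : ∀ q ∈ (Ioc z D).filter (fun q => Nat.log 2 q = j), (q : ℝ) ^ (η - 1) * ∑ a ∈ Rd q, KK H (α + (a : ℝ) / q) ≤
          (P : ℝ) ^ (η - 1) * ∑ a ∈ Rd q, KK H (α + (a : ℝ) / q) := by
        intro q hq
        rw [mem_filter, mem_Ioc] at hq
        apply mul_le_mul_of_nonneg_right _ (hT q)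
        apply Real.rpow_le_rpow_of_nonpos hP0 _ (by linarith)
        have : 2 ^ j ≤ q := by rw [← hq.2]; exact Nat.pow_log_le_self 2 (by omega)
        rw [hP]
        exact_mod_cast this
      refine (sum_le_sum e1).trans ?_
      rw [← mul_sum]
      have e2 : ∑ q ∈ (Ioc z D).filter (fun q => Nat.log 2 q = j), ∑ a ∈ Rd q, KK H (α + (a : ℝ) / q) ≤
          6 * H + 3 / 2 * ((2 * P : ℕ) : ℝ) ^ 2 * (2 + 2 * Real.log ((2 * P : ℕ) : ℝ)) := by
        refine le_trans ?_ (spacing (2 * P) (by omega) H α (Nat.cast_nonneg _))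
        apply sum_le_sum_of_subset_of_nonneg
        · intro q hq
          rw [mem_filter, mem_Ioc] at hq
          rw [mem_Icc]
          have : q < 2 ^ (j + 1) := by rw [← hq.2]; exact Nat.lt_pow_succ_log_self (by norm_num) _
          rw [hP, ← pow_succ']
          omega
        · intro q _ _
          exact hT q
      have hPp : 0 < (P : ℝ) ^ (η - 1) := Real.rpow_pos_of_pos hP0 _
      refine (mul_le_mul_of_nonneg_left e2 hPp.le).trans ?_
      have e3 : (P : ℝ) ^ (η - 1) ≤ 2 * (z : ℝ) ^ (η - 1) := by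
        have q1 : (P : ℝ) ^ (η - 1) ≤ ((z : ℝ) / 2) ^ (η - 1) := by
          apply Real.rpow_le_rpow_of_nonpos (by positivity) _ (by linarith)
          have : (z : ℝ) < 2 * P := by exact_mod_cast hPz
          linarith
        refine q1.trans ?_
        rw [Real.div_rpow hz0.le (by norm_num), div_eq_mul_inv, ← Real.rpow_neg (by norm_num), mul_comm]
        apply mul_le_mul_of_nonneg_right _ (Real.rpow_nonneg hz0.le _)
        calc (2 : ℝ) ^ (-(η - 1)) ≤ (2 : ℝ) ^ (1 : ℝ) := Real.rpow_le_rpow_of_exponent_le (by norm_num) (by linarith)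
          _ = 2 := Real.rpow_one 2
      have e4 : (P : ℝ) ^ (η - 1) * (P : ℝ) ^ 2 ≤ (D : ℝ) ^ (1 + η) := by
        have q1 : (P : ℝ) ^ (η - 1) * (P : ℝ) ^ 2 = (P : ℝ) ^ (1 + η) := by
          rw [← Real.rpow_natCast (P : ℝ) 2, ← Real.rpow_add hP0]
          congr 1
          push_cast
          ring
        rw [q1]
        exact Real.rpow_le_rpow hP0.le hPDr (by linarith)
      have e5 : Real.log ((2 * P : ℕ) : ℝ) ≤ 1 + Real.log D := by
        push_cast
        rw [Real.log_mul (by norm_num) hP0.ne']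
        have q1 := Real.log_le_log hP0 hPDr
        have q2 := Real.log_two_lt_d9
        linarith
      have e6 : 0 ≤ Real.log ((2 * P : ℕ) : ℝ) := Real.log_natCast_nonneg _
      rw [hbd]
      have f1 : (P : ℝ) ^ (η - 1) * (6 * H) ≤ 12 * H * (z : ℝ) ^ (η - 1) := by
        have : (P : ℝ) ^ (η - 1) * (6 * H) ≤ (2 * (z : ℝ) ^ (η - 1)) * (6 * H) := mul_le_mul_of_nonneg_right e3 (by positivity)
        linarith
      have f2 : (P : ℝ) ^ (η - 1) * (3 / 2 * ((2 * P : ℕ) : ℝ) ^ 2 * (2 + 2 * Real.log ((2 * P : ℕ) : ℝ))) ≤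
          12 * (D : ℝ) ^ (1 + η) * (2 + Real.log D) := by
        have q1 : (P : ℝ) ^ (η - 1) * (3 / 2 * ((2 * P : ℕ) : ℝ) ^ 2 * (2 + 2 * Real.log ((2 * P : ℕ) : ℝ))) =
            12 * ((P : ℝ) ^ (η - 1) * (P : ℝ) ^ 2) * (1 + Real.log ((2 * P : ℕ) : ℝ)) := by
          push_cast
          ring
        rw [q1]
        apply mul_le_mul _ (by linarith) (by linarith) (by positivity)
        exact mul_le_mul_of_nonneg_left e4 (by norm_num)
      rw [mul_add]
      exact add_le_add f1 f2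
  refine (sum_le_sum hblock).trans ?_
  rw [sum_const, card_range, nsmul_eq_mul]
  apply mul_le_mul_of_nonneg_right _ hbd0
  have h5 : (Nat.log 2 D : ℝ) ≤ 2 * Real.log D := by
    have q1 : ((2 ^ Nat.log 2 D : ℕ) : ℝ) ≤ D := by exact_mod_cast Nat.pow_log_le_self 2 (by omega)
    have q2 := Real.log_le_log (by positivity) q1
    push_cast at q2
    rw [Real.log_pow] at q2
    have q3 := Real.log_two_gt_d9
    have q4 : (0 : ℝ) ≤ (Nat.log 2 D : ℝ) := Nat.cast_nonneg _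
    nlinarith
  push_cast
  linarith

end Pool.Agent.TH212.DV
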