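import Pool.Agent.TH212.DV.C1

set_option autoImplicit false

/-! The divisor functions: submultiplicativity and logarithmic means. -/

namespace Pool.Agent.TH212.DV
open Finset
open ArithmeticFunction (zeta)

/-- arithmetic functions with natural values -/
abbrev AF := ArithmeticFunction ℕ

/-- the submultiplicativity of a Dirichlet product -/
lemma sub_mul_gen (f g f1 g1 f2 g2 : AF) (hf : ∀ a b : ℕ, 1 ≤ a → 1 ≤ b → f (a * b) ≤ f1 a * f2 b)
    (hg : ∀ a b : ℕ, 1 ≤ a → 1 ≤ b → g (a * b) ≤ g1 a * g2 b) (m n : ℕ) (hm : 1 ≤ m) (hn : 1 ≤ n) :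
    (f * g) (m * n) ≤ (f1 * g1) m * (f2 * g2) n := by
  classical
  have hmn : m * n ≠ 0 := Nat.mul_ne_zero (by omega) (by omega)
  rw [ArithmeticFunction.mul_apply, ArithmeticFunction.mul_apply, ArithmeticFunction.mul_apply, sum_mul_sum, ← sum_product']
  -- the map
  have hmap : ∀ x ∈ (m * n).divisorsAntidiagonal, ∃ y : (ℕ × ℕ) × (ℕ × ℕ), y ∈ m.divisorsAntidiagonal ×ˢ n.divisorsAntidiagonal ∧
      x.1 = y.1.1 * y.2.1 ∧ x.2 = y.1.2 * y.2.2 := by
    rintro ⟨e, c⟩ hx
    rw [Nat.mem_divisorsAntidiagonal] at hx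
    simp only at hx
    have he0 : 0 < e := Nat.pos_of_ne_zero (by rintro rfl; rw [zero_mul] at hx; exact hmn hx.1.symm)
    have hg0 : 0 < Nat.gcd e m := Nat.gcd_pos_of_pos_left _ he0
    obtain ⟨e2, m1, hcop, he, hm'⟩ := Nat.exists_coprime e m
    obtain ⟨g0, hg0'⟩ : ∃ g0, g0 = Nat.gcd e m := ⟨_, rfl⟩
    rw [← hg0'] at he hm' hg0
    have h1 : e2 * c = m1 * n := by
      have h2 : g0 * (e2 * c) = g0 * (m1 * n) := by
        calc g0 * (e2 * c) = (e2 * g0) * c := by ring
          _ = e * c := by rw [← he]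
          _ = m * n := hx.1
          _ = (m1 * g0) * n := by rw [← hm']
          _ = _ := by ring
      exact Nat.eq_of_mul_eq_mul_left hg0 h2
    have h2 : e2 ∣ n := by
      have : e2 ∣ m1 * n := by rw [← h1]; exact dvd_mul_right _ _
      exact hcop.dvd_of_dvd_mul_left this
    obtain ⟨n2, hn2⟩ := h2
    have he2 : 0 < e2 := Nat.pos_of_ne_zero (by rintro rfl; rw [zero_mul] at he; omega)
    have h3 : c = m1 * n2 := by
      rw [hn2] at h1
      have : e2 * c = e2 * (m1 * n2) := by rw [h1]; ring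
      exact Nat.eq_of_mul_eq_mul_left he2 this
    refine ⟨((g0, m1), (e2, n2)), ?_, ?_, ?_⟩
    · rw [mem_product, Nat.mem_divisorsAntidiagonal, Nat.mem_divisorsAntidiagonal]
      simp only
      refine ⟨⟨?_, by omega⟩, ?_, by omega⟩
      · rw [hm', mul_comm]
      · exact hn2.symm
    · simp only
      rw [he, mul_comm]
    · exact h3
  choose! φ hφ1 hφ2 hφ3 using hmap
  calc ∑ x ∈ (m * n).divisorsAntidiagonal, f x.1 * g x.2
      ≤ ∑ x ∈ (m * n).divisorsAntidiagonal, (f1 (φ x).1.1 * g1 (φ x).1.2) * (f2 (φ x).2.1 * g2 (φ x).2.2) := by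
        apply sum_le_sum
        intro x hx
        have h1 := hφ1 x hx
        rw [mem_product, Nat.mem_divisorsAntidiagonal, Nat.mem_divisorsAntidiagonal] at h1
        obtain ⟨⟨h2, _⟩, h3, _⟩ := h1
        have p1 : 1 ≤ (φ x).1.1 := Nat.pos_of_ne_zero (by intro h; rw [h, zero_mul] at h2; omega)
        have p2 : 1 ≤ (φ x).1.2 := Nat.pos_of_ne_zero (by intro h; rw [h, mul_zero] at h2; omega)
        have p3 : 1 ≤ (φ x).2.1 := Nat.pos_of_ne_zero (by intro h; rw [h, zero_mul] at h3; omega)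
        have p4 : 1 ≤ (φ x).2.2 := Nat.pos_of_ne_zero (by intro h; rw [h, mul_zero] at h3; omega)
        have q1 := hf _ _ p1 p3
        have q2 := hg _ _ p2 p4
        rw [← hφ2 x hx] at q1
        rw [← hφ3 x hx] at q2
        calc f x.1 * g x.2 ≤ (f1 (φ x).1.1 * f2 (φ x).2.1) * (g1 (φ x).1.2 * g2 (φ x).2.2) := Nat.mul_le_mul q1 q2
          _ = _ := by ring
    _ = ∑ y ∈ (m * n).divisorsAntidiagonal.image φ, (f1 y.1.1 * g1 y.1.2) * (f2 y.2.1 * g2 y.2.2) := by
        rw [sum_image]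
        intro x hx x' hx' h
        apply Prod.ext
        · rw [hφ2 x hx, hφ2 x' hx', h]
        · rw [hφ3 x hx, hφ3 x' hx', h]
    _ ≤ _ := by
        apply sum_le_sum_of_subset
        intro y hy
        rw [mem_image] at hy
        obtain ⟨x, hx, rfl⟩ := hy
        exact hφ1 x hx

/-- the divisor function `d_s` -/
def dk (s : ℕ) : AF := (zeta : AF) ^ s

lemma dk_zero (n : ℕ) : dk 0 n = if n = 1 then 1 else 0 := by
  unfold dk
  rw [pow_zero, ArithmeticFunction.one_apply]

lemma dk_succ (s : ℕ) : dk (s + 1) = zeta * dk s := by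
  unfold dk
  rw [pow_succ']

lemma dk_succ_apply (s n : ℕ) : dk (s + 1) n = ∑ d ∈ n.divisors, dk s d := by
  rw [dk_succ, ArithmeticFunction.zeta_mul_apply]

lemma dk_sub (s : ℕ) : ∀ a b : ℕ, 1 ≤ a → 1 ≤ b → dk s (a * b) ≤ dk s a * dk s b := by
  induction s with
  | zero =>
    intro a b ha hb
    rw [dk_zero, dk_zero, dk_zero]
    split_ifs with h1 h2 h3 h3
    · norm_num
    · exfalso
      exact h3 (Nat.eq_one_of_mul_eq_one_left h1)
    · exfalso
      exact h2 (Nat.eq_one_of_mul_eq_one_right h1)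
    · exfalso
      exact h2 (Nat.eq_one_of_mul_eq_one_right h1)
    all_goals simp
  | succ s ih =>
    intro a b ha hb
    rw [dk_succ]
    apply sub_mul_gen zeta (dk s) zeta (dk s) zeta (dk s) _ ih a b ha hb
    intro c d hc hd
    rw [ArithmeticFunction.zeta_apply, ArithmeticFunction.zeta_apply, ArithmeticFunction.zeta_apply, if_neg (by positivity), if_neg (by omega), if_neg (by omega)]

lemma dk_le_tau (s n : ℕ) : dk s n ≤ n.divisors.card ^ s := by
  induction s generalizing n with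
  | zero =>
    rw [dk_zero, pow_zero]
    split_ifs <;> simp
  | succ s ih =>
    rw [dk_succ_apply, pow_succ, mul_comm]
    calc ∑ d ∈ n.divisors, dk s d ≤ ∑ _d ∈ n.divisors, n.divisors.card ^ s := by
          apply sum_le_sum
          intro d hd
          refine (ih d).trans (Nat.pow_le_pow_left ?_ s)
          exact card_le_card (Nat.divisors_subset_of_dvd (Nat.ne_zero_of_mem_divisors hd) (Nat.dvd_of_mem_divisors hd))
      _ = _ := by rw [sum_const, smul_eq_mul]

/-- the part below `y` -/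
def lo (y : ℕ) : AF := ⟨fun n => if n = 0 then 0 else if n < y then 1 else 0, by simp⟩

/-- the part from `y` on -/
def hi (y : ℕ) : AF := ⟨fun n => if n = 0 then 0 else if n < y then 0 else 1, by simp⟩

lemma lo_apply (y n : ℕ) : lo y n = if n = 0 then 0 else if n < y then 1 else 0 := rfl

lemma hi_apply (y n : ℕ) : hi y n = if n = 0 then 0 else if n < y then 0 else 1 := rfl

lemma lo_sub (y a b : ℕ) (ha : 1 ≤ a) (hb : 1 ≤ b) : lo y (a * b) ≤ zeta a * lo y b := by
  rw [lo_apply, lo_apply, ArithmeticFunction.zeta_apply, if_neg (by omega : ¬ a = 0), one_mul,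
    if_neg (by positivity), if_neg (by omega : ¬ b = 0)]
  have : b ≤ a * b := Nat.le_mul_of_pos_left b ha
  split_ifs
  · exact le_rfl
  · omega
  · norm_num
  · exact le_rfl

/-- `a_1 < y` for the first of the `s + 1` factors -/
def uu (y s : ℕ) : AF := lo y * dk s

lemma uu_sub (y s a b : ℕ) (ha : 1 ≤ a) (hb : 1 ≤ b) : uu y s (a * b) ≤ dk (s + 1) a * uu y s b := by
  unfold uu
  rw [dk_succ]
  exact sub_mul_gen (lo y) (dk s) zeta (dk s) (lo y) (dk s) (lo_sub y) (dk_sub s) a b ha hb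

/-- logarithmic sums of a Dirichlet product -/
lemma sum_conv_le (f g : AF) (x : ℕ) :
    ∑ n ∈ Icc 1 x, ((f * g) n : ℝ) / n ≤ (∑ n ∈ Icc 1 x, (f n : ℝ) / n) * ∑ n ∈ Icc 1 x, (g n : ℝ) / n := by
  classical
  rw [sum_mul_sum, ← sum_product']
  have h1 : ∀ n ∈ Icc 1 x, ((f * g) n : ℝ) / n = ∑ y ∈ n.divisorsAntidiagonal, ((f y.1 : ℝ) / y.1) * ((g y.2 : ℝ) / y.2) := by
    intro n hn
    rw [mem_Icc] at hn
    rw [ArithmeticFunction.mul_apply]
    push_cast
    rw [sum_div]
    apply sum_congr rfl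
    intro y hy
    rw [Nat.mem_divisorsAntidiagonal] at hy
    rw [← hy.1]
    push_cast
    rw [mul_div_mul_comm]
  rw [sum_congr rfl h1, ← sum_biUnion]
  · apply sum_le_sum_of_subset_of_nonneg
    · intro y hy
      rw [mem_biUnion] at hy
      obtain ⟨n, hn, hy⟩ := hy
      rw [mem_Icc] at hn
      rw [Nat.mem_divisorsAntidiagonal] at hy
      obtain ⟨h2, h3⟩ := hy
      have p1 : y.1 ≠ 0 := by intro h; rw [h, zero_mul] at h2; exact h3 h2.symm
      have p2 : y.2 ≠ 0 := by intro h; rw [h, mul_zero] at h2; exact h3 h2.symm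
      rw [mem_product, mem_Icc, mem_Icc]
      have q1 : y.1 ≤ n := by rw [← h2]; exact Nat.le_mul_of_pos_right _ (by omega)
      have q2 : y.2 ≤ n := by rw [← h2]; exact Nat.le_mul_of_pos_left _ (by omega)
      omega
    · intro y _ _
      positivity
  · intro n _ n' _ hne
    rw [Function.onFun, disjoint_left]
    intro y hy hy'
    rw [Nat.mem_divisorsAntidiagonal] at hy hy'
    exact hne (hy.1.symm.trans hy'.1)

lemma sum_inv_Icc (x : ℕ) : ∑ n ∈ Icc 1 x, (1 : ℝ) / n ≤ 1 + Real.log x := by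
  have h1 := harmonic_le_one_add_log x
  refine le_trans (le_of_eq ?_) h1
  rw [harmonic_eq_sum_Icc]
  push_cast
  apply sum_congr rfl
  intro n _
  rw [one_div]

lemma sum_dk_le (s x : ℕ) : ∑ n ∈ Icc 1 x, (dk s n : ℝ) / n ≤ (1 + Real.log x) ^ s := by
  have hl : 0 ≤ Real.log x := Real.log_natCast_nonneg x
  induction s with
  | zero =>
    rw [pow_zero]
    calc ∑ n ∈ Icc 1 x, (dk 0 n : ℝ) / n = ∑ n ∈ Icc 1 x, if n = 1 then (1 : ℝ) else 0 := by
          apply sum_congr rfl
          intro n _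
          rw [dk_zero]
          split_ifs with h
          · rw [h]; simp
          · simp
      _ ≤ 1 := by
          rw [sum_ite_eq']
          split_ifs <;> norm_num
  | succ s ih =>
    rw [dk_succ, pow_succ']
    refine (sum_conv_le zeta (dk s) x).trans ?_
    apply mul_le_mul _ ih (sum_nonneg fun n _ => by positivity) (by positivity)
    refine le_trans (le_of_eq ?_) (sum_inv_Icc x)
    apply sum_congr rfl
    intro n hn
    rw [mem_Icc] at hn
    rw [ArithmeticFunction.zeta_apply, if_neg (by omega)]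
    simp

lemma sum_uu_le (y s x : ℕ) (hy : 1 ≤ y) : ∑ n ∈ Icc 1 x, (uu y s n : ℝ) / n ≤ (1 + Real.log y) * (1 + Real.log x) ^ s := by
  have hl : 0 ≤ Real.log x := Real.log_natCast_nonneg x
  have hl' : 0 ≤ Real.log y := Real.log_natCast_nonneg y
  unfold uu
  refine (sum_conv_le (lo y) (dk s) x).trans ?_
  apply mul_le_mul _ (sum_dk_le s x) (sum_nonneg fun n _ => by positivity) (by positivity)
  refine le_trans ?_ (sum_inv_Icc y)
  calc ∑ n ∈ Icc 1 x, (lo y n : ℝ) / n = ∑ n ∈ (Icc 1 x).filter (fun n => n < y), (1 : ℝ) / n := by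
        rw [sum_filter]
        apply sum_congr rfl
        intro n hn
        rw [mem_Icc] at hn
        rw [lo_apply, if_neg (by omega)]
        split_ifs <;> simp
    _ ≤ ∑ n ∈ Icc 1 y, (1 : ℝ) / n := by
        apply sum_le_sum_of_subset_of_nonneg
        · intro n hn
          rw [mem_filter, mem_Icc] at hn
          rw [mem_Icc]
          omega
        · intro n _ _
          positivity

end Pool.Agent.TH212.DV
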