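import Pool.Agent.TH212.DV.C3
import Pool.Agent.TH212.DV.C4

set_option autoImplicit false

/-! The divisor functions between two sums over small divisors. -/

namespace Pool.Agent.TH212.DV
open Finset
open ArithmeticFunction (zeta)


lemma mul_mono (f g f' g' : AF) (hf : ∀ n, f n ≤ f' n) (hg : ∀ n, g n ≤ g' n) (n : ℕ) : (f * g) n ≤ (f' * g') n := by
  rw [ArithmeticFunction.mul_apply, ArithmeticFunction.mul_apply]
  exact sum_le_sum fun x _ => Nat.mul_le_mul (hf _) (hg _)

lemma hi_le_zeta (y n : ℕ) : hi y n ≤ zeta n := by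
  rw [hi_apply, ArithmeticFunction.zeta_apply]
  split_ifs <;> simp

lemma lo_le_zeta (y n : ℕ) : lo y n ≤ zeta n := by
  rw [lo_apply, ArithmeticFunction.zeta_apply]
  split_ifs <;> simp

lemma zeta_eq (y n : ℕ) : zeta n = hi y n + lo y n := by
  rw [hi_apply, lo_apply, ArithmeticFunction.zeta_apply]
  split_ifs <;> rfl

/-- one of the factors of a large number is large -/
lemma dk_large (y : ℕ) (hy : 1 ≤ y) (t : ℕ) : ∀ m : ℕ, y ^ (t + 1) ≤ m → dk (t + 1) m ≤ (t + 1) * (hi y * dk t) m := by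
  induction t with
  | zero =>
    intro m hm
    rw [zero_add, pow_one] at hm
    have e1 : dk 1 m = zeta m := by rw [show dk 1 = (zeta : AF) by unfold dk; rw [pow_one]]
    have e2 : (hi y * dk 0) m = hi y m := by
      rw [show dk 0 = (1 : AF) by unfold dk; rw [pow_zero], mul_one]
    rw [zero_add, e1, e2, one_mul, hi_apply, ArithmeticFunction.zeta_apply, if_neg (by omega), if_neg (by omega), if_neg (by omega)]
  | succ t ih =>
    intro m hm
    have e1 : dk (t + 1 + 1) m = (hi y * dk (t + 1)) m + (lo y * dk (t + 1)) m := by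
      rw [dk_succ (t + 1), ArithmeticFunction.mul_apply, ArithmeticFunction.mul_apply, ArithmeticFunction.mul_apply, ← sum_add_distrib]
      apply sum_congr rfl
      intro x _
      rw [← add_mul, ← zeta_eq]
    have e2 : (lo y * dk (t + 1)) m ≤ (t + 1) * (hi y * dk (t + 1)) m := by
      have e3 : (lo y * dk (t + 1)) m ≤ (t + 1) * (lo y * (hi y * dk t)) m := by
        rw [ArithmeticFunction.mul_apply, ArithmeticFunction.mul_apply, mul_sum]
        apply sum_le_sum
        intro x hx
        rw [Nat.mem_divisorsAntidiagonal] at hx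
        obtain ⟨h1, h2⟩ := hx
        have p1 : x.1 ≠ 0 := by intro h; rw [h, zero_mul] at h1; exact h2 h1.symm
        rw [lo_apply, if_neg p1]
        split_ifs with h3
        · rw [one_mul, one_mul]
          apply ih
          by_contra hc
          push Not at hc
          have h4 : x.1 * x.2 < y * y ^ (t + 1) := Nat.mul_lt_mul'' h3 hc
          rw [h1, ← pow_succ'] at h4
          omega
        · simp
      refine e3.trans (Nat.mul_le_mul_left _ ?_)
      rw [dk_succ t]
      have e4 : hi y * (zeta * dk t) = zeta * (hi y * dk t) := by ring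
      rw [e4]
      exact mul_mono _ _ _ _ (lo_le_zeta y) (fun _ => le_rfl) m
    rw [e1]
    calc (hi y * dk (t + 1)) m + (lo y * dk (t + 1)) m ≤ (hi y * dk (t + 1)) m + (t + 1) * (hi y * dk (t + 1)) m :=
          Nat.add_le_add_left e2 _
      _ = _ := by ring

/-- the lower weights -/
noncomputable def WL (t d : ℕ) : ℝ := dk (t + 1) d

/-- the upper weights -/
noncomputable def WU (y t d : ℕ) : ℝ := dk (t + 1) d + (t + 1) * uu y t d

lemma FF_lower (t D n : ℕ) (hn : 1 ≤ n) : FF (WL t) D n ≤ dk (t + 2) n := by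
  unfold FF WL
  rw [dk_succ_apply]
  push_cast
  apply sum_le_sum_of_subset_of_nonneg
  · intro d hd
    rw [mem_filter] at hd
    rw [Nat.mem_divisors]
    exact ⟨hd.2, by omega⟩
  · intro d _ _
    positivity

lemma FF_upper (t N y n : ℕ) (hy : 1 ≤ y) (hn1 : y ^ (t + 2) ≤ n) (hn2 : n ≤ N) :
    (dk (t + 2) n : ℝ) ≤ FF (WU y t) (N / y) n := by
  have hn0 : 1 ≤ n := le_trans (Nat.one_le_pow _ _ hy) hn1
  have key : dk (t + 2) n ≤ ∑ d ∈ n.divisors.filter (fun d => d ≤ N / y), dk (t + 1) d +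
      (t + 1) * ∑ d ∈ n.divisors.filter (fun d => d ≤ N / y), uu y t d := by
    rw [dk_succ_apply, ← sum_filter_add_sum_filter_not n.divisors (fun d => d ≤ N / y)]
    apply Nat.add_le_add_left
    have e1 : ∑ d ∈ n.divisors.filter (fun d => ¬ d ≤ N / y), dk (t + 1) d ≤ (t + 1) * (lo y * (hi y * dk t)) n := by
      rw [ArithmeticFunction.mul_apply, mul_sum, sum_filter]
      rw [← Nat.sum_divisorsAntidiagonal' (fun _ d => if ¬ d ≤ N / y then dk (t + 1) d else 0)]
      apply sum_le_sum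
      intro x hx
      rw [Nat.mem_divisorsAntidiagonal] at hx
      obtain ⟨h1, h2⟩ := hx
      have p1 : x.1 ≠ 0 := by intro h; rw [h, zero_mul] at h1; exact h2 h1.symm
      by_cases h3 : x.2 ≤ N / y
      · rw [if_neg (not_not.2 h3)]
        exact Nat.zero_le _
      · rw [if_pos h3]
        push Not at h3
        have h4 : N < x.2 * y := (Nat.div_lt_iff_lt_mul (by omega)).1 h3
        have h5 : x.1 < y := by
          by_contra hc
          push Not at hc
          have : y * x.2 ≤ x.1 * x.2 := Nat.mul_le_mul_right _ hc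
          rw [h1, mul_comm] at this
          omega
        rw [lo_apply, if_neg p1, if_pos h5, one_mul]
        apply dk_large y hy t
        by_contra hc
        push Not at hc
        have h6 : x.1 * x.2 < y * y ^ (t + 1) := Nat.mul_lt_mul'' h5 hc
        rw [h1, ← pow_succ'] at h6
        have h7 : y ^ (t + 1 + 1) = y ^ (t + 2) := rfl
        omega
    refine e1.trans (Nat.mul_le_mul_left _ ?_)
    have e2 : lo y * (hi y * dk t) = hi y * uu y t := by unfold uu; ring
    rw [e2, ArithmeticFunction.mul_apply, sum_filter]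
    rw [← Nat.sum_divisorsAntidiagonal' (fun _ d => if d ≤ N / y then uu y t d else 0)]
    apply sum_le_sum
    intro x hx
    rw [Nat.mem_divisorsAntidiagonal] at hx
    obtain ⟨h1, h2⟩ := hx
    rw [hi_apply]
    by_cases h3 : x.1 = 0
    · rw [if_pos h3, zero_mul]; exact Nat.zero_le _
    · rw [if_neg h3]
      by_cases h4 : x.1 < y
      · rw [if_pos h4, zero_mul]; exact Nat.zero_le _
      · rw [if_neg h4, one_mul, if_pos]
        rw [Nat.le_div_iff_mul_le (by omega)]
        push Not at h4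
        calc x.2 * y ≤ x.2 * x.1 := Nat.mul_le_mul_left _ h4
          _ = n := by rw [mul_comm]; exact h1
          _ ≤ N := hn2
  have hset : n.divisors.filter (fun d => d ≤ N / y) = (Icc 1 (N / y)).filter (fun d => d ∣ n) := by
    ext d
    rw [mem_filter, mem_filter, Nat.mem_divisors, mem_Icc]
    constructor
    · rintro ⟨⟨h1, _⟩, h2⟩
      exact ⟨⟨Nat.pos_of_dvd_of_pos h1 (by omega), h2⟩, h1⟩
    · rintro ⟨⟨_, h2⟩, h1⟩
      exact ⟨⟨h1, by omega⟩, h2⟩
  rw [hset] at key
  unfold FF WU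
  rw [sum_add_distrib, ← mul_sum]
  exact_mod_cast key

lemma WL_nonneg (t d : ℕ) : 0 ≤ WL t d := by unfold WL; positivity

lemma WU_nonneg (y t d : ℕ) : 0 ≤ WU y t d := by unfold WU; positivity

lemma uu_le (y t d : ℕ) : uu y t d ≤ dk (t + 1) d := by
  unfold uu
  rw [dk_succ]
  exact mul_mono _ _ _ _ (lo_le_zeta y) (fun _ => le_rfl) d

lemma WL_le (t d : ℕ) : WL t d ≤ (t + 2) * dk (t + 1) d := by
  unfold WL
  have : (0 : ℝ) ≤ dk (t + 1) d := Nat.cast_nonneg _
  have ht : (0 : ℝ) ≤ t := Nat.cast_nonneg _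
  nlinarith

lemma WU_le (y t d : ℕ) : WU y t d ≤ (t + 2) * dk (t + 1) d := by
  unfold WU
  have h1 : (uu y t d : ℝ) ≤ dk (t + 1) d := by exact_mod_cast uu_le y t d
  have h2 : ((t : ℝ) + 1) * uu y t d ≤ (t + 1) * dk (t + 1) d := mul_le_mul_of_nonneg_left h1 (by positivity)
  linarith

/-- the bound for the coefficients of the model -/
lemma RR_le (W : ℕ → ℝ) (c : ℝ) (t D q : ℕ) (hW : ∀ d, W d ≤ c * dk (t + 1) d) (hc : 0 ≤ c) (hq : 1 ≤ q) :
    RR W D q ≤ c * (dk (t + 1) q / q) * (1 + Real.log D) ^ (t + 1) := by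
  unfold RR
  have h1 : ∑ d ∈ (Icc 1 D).filter (fun d => q ∣ d), W d / d ≤ ∑ d ∈ (Icc 1 D).filter (fun d => q ∣ d), c * dk (t + 1) d / d := by
    apply sum_le_sum
    intro d _
    exact div_le_div_of_nonneg_right (hW d) (Nat.cast_nonneg _)
  have h2 : ∑ d ∈ (Icc 1 D).filter (fun d => q ∣ d), c * (dk (t + 1) d : ℝ) / d ≤
      ∑ m ∈ Icc 1 D, c * (dk (t + 1) q / q) * (dk (t + 1) m / m) := by
    have hsub : (Icc 1 D).filter (fun d => q ∣ d) ⊆ (Icc 1 D).image (fun m => q * m) := by
      intro d hd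
      rw [mem_filter, mem_Icc] at hd
      obtain ⟨⟨h3, h4⟩, m, hm⟩ := hd
      rw [mem_image]
      have hm0 : m ≠ 0 := by rintro rfl; omega
      have : m ≤ d := by rw [hm]; exact Nat.le_mul_of_pos_left _ hq
      exact ⟨m, by rw [mem_Icc]; omega, hm.symm⟩
    refine (sum_le_sum_of_subset_of_nonneg hsub (fun d _ _ => by positivity)).trans ?_
    rw [sum_image (fun a _ b _ h => Nat.eq_of_mul_eq_mul_left hq h)]
    apply sum_le_sum
    intro m hm
    rw [mem_Icc] at hm
    have h5 : (dk (t + 1) (q * m) : ℝ) ≤ dk (t + 1) q * dk (t + 1) m := by exact_mod_cast dk_sub (t + 1) q m hq hm.1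
    push_cast
    calc c * (dk (t + 1) (q * m) : ℝ) / (q * m) ≤ c * (dk (t + 1) q * dk (t + 1) m) / (q * m) := by
          apply div_le_div_of_nonneg_right _ (by positivity)
          exact mul_le_mul_of_nonneg_left h5 hc
      _ = _ := by
          rw [← mul_assoc, mul_div_mul_comm, mul_div_assoc]
  refine h1.trans (h2.trans ?_)
  rw [← mul_sum]
  exact mul_le_mul_of_nonneg_left (sum_dk_le (t + 1) D) (by positivity)

lemma RR_nonneg (W : ℕ → ℝ) (D q : ℕ) (hW : ∀ d, 0 ≤ W d) : 0 ≤ RR W D q :=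
  sum_nonneg fun d _ => div_nonneg (hW d) (Nat.cast_nonneg _)

/-- the difference of the coefficients -/
lemma RR_diff (y t D q : ℕ) (hy : 1 ≤ y) (hq : 1 ≤ q) :
    RR (WU y t) D q ≤ RR (WL t) D q + (t + 1) * (dk (t + 1) q / q) * ((1 + Real.log y) * (1 + Real.log D) ^ t) := by
  have e1 : RR (WU y t) D q = RR (WL t) D q + (t + 1) * ∑ d ∈ (Icc 1 D).filter (fun d => q ∣ d), (uu y t d : ℝ) / d := by
    unfold RR WU WL
    rw [mul_sum, ← sum_add_distrib]
    apply sum_congr rfl
    intro d _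
    ring
  rw [e1, mul_assoc]
  apply add_le_add le_rfl
  apply mul_le_mul_of_nonneg_left _ (by positivity)
  have hsub : (Icc 1 D).filter (fun d => q ∣ d) ⊆ (Icc 1 D).image (fun m => q * m) := by
    intro d hd
    rw [mem_filter, mem_Icc] at hd
    obtain ⟨⟨h3, h4⟩, m, hm⟩ := hd
    rw [mem_image]
    have hm0 : m ≠ 0 := by rintro rfl; omega
    have : m ≤ d := by rw [hm]; exact Nat.le_mul_of_pos_left _ hq
    exact ⟨m, by rw [mem_Icc]; omega, hm.symm⟩
  refine (sum_le_sum_of_subset_of_nonneg hsub (fun d _ _ => by positivity)).trans ?_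
  rw [sum_image (fun a _ b _ h => Nat.eq_of_mul_eq_mul_left hq h)]
  have h2 : ∑ m ∈ Icc 1 D, (uu y t (q * m) : ℝ) / ((q * m : ℕ) : ℝ) ≤ ∑ m ∈ Icc 1 D, (dk (t + 1) q / q) * ((uu y t m : ℝ) / m) := by
    apply sum_le_sum
    intro m hm
    rw [mem_Icc] at hm
    have h5 : (uu y t (q * m) : ℝ) ≤ dk (t + 1) q * uu y t m := by exact_mod_cast uu_sub y t q m hq hm.1
    push_cast
    calc (uu y t (q * m) : ℝ) / (q * m) ≤ (dk (t + 1) q * uu y t m) / (q * m) := by
          apply div_le_div_of_nonneg_right h5 (by positivity)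
      _ = _ := by rw [mul_div_mul_comm]
  refine h2.trans ?_
  rw [← mul_sum]
  exact mul_le_mul_of_nonneg_left (sum_uu_le y t D hy) (by positivity)

end Pool.Agent.TH212.DV
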